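import Pool.Agent.EF40.Defs
import Pool.Agent.EF39.Types
import Pool.Agent.EF39.Deco
import Pool.Agent.EF39.Fin

/-!
# EF40: extension, decoding and types with the order
-/

set_option autoImplicit false

open FirstOrder Language

namespace EF39

variable {l : ℕ} {ar : Fin l → ℕ} {M : Type} {S : ∀ i, (Fin (ar i) → M) → Prop} {lt : M → M → Prop}
variable {k : ℕ} {br : Fin k → ℕ} {T : ∀ j, (Fin (br j) → M) → Prop}

/-- the order of the points `v 0, …, v (m - 1)` is given by `o` -/
def Pt (lt : M → M → Prop) (m : ℕ) (o : ℕ → ℕ) (v : ℕ → M) : Prop :=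
  ∀ i < m, ∀ j < m, (o i < o j ↔ lt (v i) (v j))

/-- extension with a given order -/
theorem exto [Nonempty M] (h : GenOrd ar S lt) {m m' : ℕ} {v : ℕ → M} {X : Atom → Prop} {o : ℕ → ℕ} (hm : m ≤ m')
    (hX : Leg ar S X (Finset.range m')) (hvX : ∀ a, WF ar a → supp a ⊆ Finset.range m → (Hold ar S v a ↔ X a))
    (ho : Set.InjOn o (Finset.range m')) (hov : Pt lt m o v) :
    ∃ v' : ℕ → M, (∀ i < m, v' i = v i) ∧ Set.InjOn v' (Finset.range m') ∧
      (∀ a, WF ar a → supp a ⊆ Finset.range m' → (Hold ar S v' a ↔ X a)) ∧ Pt lt m' o v' := by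
  classical
  have hord := h.order
  obtain ⟨w, hw1, hw2⟩ := hX
  obtain ⟨b, hb1, hb2⟩ := h.generic m' (fun i => w i) (fun i => o i)
    (fun i j hij => Fin.ext (hw1 (by simp) (by simp) hij)) (fun i j hij => Fin.ext (ho (by simp) (by simp) hij))
  have hlt : ∀ i : Fin m, (i : ℕ) < m' := fun i => lt_of_lt_of_le i.2 hm
  obtain ⟨e, he1, he2, he3⟩ := h.homog m (fun i => b ⟨i, hlt i⟩) (fun i => v i) (by
    intro i j
    rw [hb1]
    exact hov i i.2 j j.2) (by
    intro i x
    have h1 := hb2 i (fun t => ⟨x t, hlt (x t)⟩)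
    have h2 := hw2 (atm i (fun t => (x t : ℕ))) (WF_atm _ _) (by
      intro z hz
      rw [mem_supp_atm] at hz
      obtain ⟨t, rfl⟩ := hz
      simpa using hlt (x t))
    have h3 := hvX (atm i (fun t => (x t : ℕ))) (WF_atm _ _) (by
      intro z hz
      rw [mem_supp_atm] at hz
      obtain ⟨t, rfl⟩ := hz
      simp)
    rw [Hold_atm] at h2 h3
    exact h1.trans (h2.trans h3.symm))
  have hbinj : Function.Injective b := by
    intro i j hij
    by_contra hne
    have h1 : o i ≠ o j := fun h2 => hne (Fin.ext (ho (by simp) (by simp) h2))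
    rcases lt_or_gt_of_ne h1 with h2 | h2
    · have := (hb1 i j).2 h2
      rw [hij] at this
      exact irrefl_of lt _ this
    · have := (hb1 j i).2 h2
      rw [hij] at this
      exact irrefl_of lt _ this
  refine ⟨fun i => if hi : i < m' then e (b ⟨i, hi⟩) else v i, ?_, ?_, ?_, ?_⟩
  · intro i hi
    have hi' : i < m' := lt_of_lt_of_le hi hm
    simp only [hi', dif_pos]
    exact he3 ⟨i, hi⟩
  · intro i hi j hj hij
    have hi' : i < m' := by simpa using hi
    have hj' : j < m' := by simpa using hj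
    simp only [hi', hj', dif_pos] at hij
    have := hbinj (e.injective hij)
    exact congrArg Fin.val this
  · intro a ha hs
    obtain ⟨i, x, rfl⟩ := exists_atm ha
    have hx : ∀ t, x t < m' := by
      intro t
      have : x t ∈ supp (atm i x) := by
        rw [mem_supp_atm]
        exact ⟨t, rfl⟩
      simpa using hs this
    have h1 := hb2 i (fun t => ⟨x t, hx t⟩)
    have h2 := hw2 (atm i x) (WF_atm _ _) hs
    have h3 := he2 i (fun t => b ⟨x t, hx t⟩)
    rw [Hold_atm] at h2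
    rw [Hold_atm]
    have h4 : (fun t => (fun i => if hi : i < m' then e (b ⟨i, hi⟩) else v i) (x t)) =
        (e ∘ fun t => b ⟨x t, hx t⟩) := by
      funext t
      simp [hx t]
    rw [h4]
    exact h3.trans (h1.trans h2)
  · intro i hi j hj
    simp only [hi, hj, dif_pos]
    rw [he1, hb1]

/-- every tuple has an order pattern -/
theorem exists_pt (h : GenOrd ar S lt) {N : ℕ} {v : ℕ → M} (hv : Set.InjOn v (Finset.range N)) :
    ∃ o : ℕ → ℕ, Set.InjOn o (Finset.range N) ∧ Pt lt N o v := by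
  obtain ⟨o, -, h2, h3⟩ := exists_rank h.order hv
  exact ⟨fun i => o.getD i 0, fun i hi j hj hij => h2 i (by simpa using hi) j (by simpa using hj) hij, h3⟩

/-- decoding of a move with a given position in the order -/
theorem decodeO [Nonempty M] (h : GenOrd ar S lt) {m : ℕ} {v : ℕ → M} (hv : Set.InjOn v (Finset.range m))
    {o : ℕ → ℕ} (ho : Set.InjOn o (Finset.range (m + 1))) (hov : Pt lt m o v) (U : Atom → Prop) :
    ∃ v' : ℕ → M, (∀ i < m, v' i = v i) ∧ Set.InjOn v' (Finset.range (m + 1)) ∧ Pt lt (m + 1) o v' ∧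
      ∀ T ⊆ Finset.range (m + 1), m ∈ T → Leg ar S (mixF (Hold ar S v') U T) T →
        ∀ a, WF ar a → supp a = T → (Hold ar S v' a ↔ U a) := by
  obtain ⟨X, hX1, hX2⟩ := decode_aux (nice_of h) hv U (m + 1)
  obtain ⟨v', h1, h2, h3, h4⟩ := exto h (m := m) (m' := m + 1) (v := v) (X := X) (by omega)
    ((hX2 _ (Finset.Subset.refl _) (by simp)).1 (by simp)) (fun a _ hs => (hX1 a hs).symm) ho hov
  refine ⟨v', h1, h2, h4, ?_⟩
  intro T hT hm hL a ha hs
  rw [h3 a ha (hs ▸ hT)]
  have hTc : T.card ≤ m + 1 := by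
    have := Finset.card_le_card hT
    simpa using this
  apply (hX2 T hT hTc).2 hm _ a ha hs
  have hmix : Leg ar S (mixF X U T) T ↔ Leg ar S (mixF (Hold ar S v') U T) T :=
    Leg_congr (mixF_congr (fun b hb hbs => (h3 b hb (hbs.1.trans hT)).symm))
  exact hmix.2 hL

/-! ## same diagram over the ordered structure -/

/-- the back and forth system of pairs of injective tuples with the same ordered diagram -/
def ISo {l : ℕ} (ar : Fin l → ℕ) {M : Type} (S : ∀ i, (Fin (ar i) → M) → Prop) (lt : M → M → Prop) (N : ℕ)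
    (v w : ℕ → M) : Prop :=
  Set.InjOn v (Finset.range N) ∧ Set.InjOn w (Finset.range N) ∧
    (∀ a, WF ar a → (∀ z ∈ a.2, z < N) → (Hold ar S v a ↔ Hold ar S w a)) ∧
    ∀ i < N, ∀ j < N, (lt (v i) (v j) ↔ lt (w i) (w j))

theorem ISo.symm {N : ℕ} {v w : ℕ → M} (h : ISo ar S lt N v w) : ISo ar S lt N w v :=
  ⟨h.2.1, h.1, fun a ha hz => (h.2.2.1 a ha hz).symm, fun i hi j hj => (h.2.2.2 i hi j hj).symm⟩

theorem ISo_forth [Nonempty M] (hG : GenOrd ar S lt) {N : ℕ} {v w : ℕ → M} (h : ISo ar S lt N v w) (a : M)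
    (ha : ∀ i < N, v i ≠ a) :
    ∃ v' w', (∀ i < N, v' i = v i) ∧ (∀ i < N, w' i = w i) ∧ v' N = a ∧ ISo ar S lt (N + 1) v' w' := by
  have h1 : ∀ i < N, Function.update v N a i = v i := fun i hi => by
    rw [Function.update_of_ne (by omega)]
  have hinj : Set.InjOn (Function.update v N a) (Finset.range (N + 1)) :=
    injOn_succ h.1 h1 (fun i hi => by rw [Function.update_self]; exact ha i hi)
  obtain ⟨o, ho1, ho2⟩ := exists_pt hG hinj
  obtain ⟨w', hw1, hw2, hw3, hw4⟩ := exto hG (m := N) (m' := N + 1) (v := w)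
    (X := Hold ar S (Function.update v N a)) (o := o) (by omega) (Leg_Hold hinj) (by
      intro b hb hs
      rw [supp_subset_range] at hs
      rw [← h.2.2.1 b hb hs]
      exact Hold_congr fun z hz => (h1 z (hs z hz)).symm) ho1 (by
      intro i hi j hj
      rw [ho2 i (by omega) j (by omega), h1 i hi, h1 j hj]
      exact h.2.2.2 i hi j hj)
  refine ⟨Function.update v N a, w', h1, hw1, Function.update_self _ _ _, hinj, hw2, ?_, ?_⟩
  · intro b hb hs
    exact (hw3 b hb (supp_subset_range.2 hs)).symm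
  · intro i hi j hj
    rw [← ho2 i hi j hj, hw4 i hi j hj]

theorem ISo_bfs [Nonempty M] (hG : GenOrd ar S lt) : BFS (arO ar) (SO ar S lt) (ISo ar S lt) where
  injv := fun h => h.1
  injw := fun h => h.2.1
  rel := by
    intro N v w h j
    have key : ∀ (i : Fin l) (x : Fin (ar i) → ℕ), (∀ t, x t < N) →
        (S i (fun t => v (x t)) ↔ S i (fun t => w (x t))) := by
      intro i x hx
      have h1 := h.2.2.1 (atm i x) (WF_atm i x) (by
        intro z hz
        rw [mem_atm] at hz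
        obtain ⟨t, rfl⟩ := hz
        exact hx t)
      rw [Hold_atm, Hold_atm] at h1
      exact h1
    refine Fin.cases ?_ (fun i => ?_) j
    · intro x hx
      exact h.2.2.2 (x (0 : Fin 2)) (hx (0 : Fin 2)) (x (1 : Fin 2)) (hx (1 : Fin 2))
    · intro x hx
      exact key i x hx
  forth := fun h a ha => ISo_forth hG h a ha
  back := by
    intro N v w h b hb
    obtain ⟨w', v', h1, h2, h3, h4⟩ := ISo_forth hG h.symm b hb
    exact ⟨v', w', h2, h1, h3, h4.symm⟩

theorem ISo_bfs' [Nonempty M] (hG : GenOrd ar S lt) (hT : ∀ j, FODef (arO ar) (SO ar S lt) (T j)) :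
    BFS br T (ISo ar S lt) where
  injv := fun h => h.1
  injw := fun h => h.2.1
  rel := by
    intro N v w h j x hx
    obtain ⟨φ, hφ⟩ := hT j
    rw [hφ, hφ]
    have h1 := bf_idx (ISo_bfs hG) φ h x Fin.elim0 hx (fun i => i.elim0)
    let _ := str (arO ar) (SO ar S lt)
    rw [Formula.boundedFormula_realize_eq_realize, Formula.boundedFormula_realize_eq_realize] at h1
    exact h1
  forth := (ISo_bfs hG).forth
  back := (ISo_bfs hG).back

/-- same diagram over `(M; lt, S)` -/
def SDo {l : ℕ} (ar : Fin l → ℕ) {M : Type} (S : ∀ i, (Fin (ar i) → M) → Prop) (lt : M → M → Prop) (m : ℕ)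
    (x y : ℕ → M) : Prop :=
  (∀ i < m, ∀ j < m, (x i = x j ↔ y i = y j)) ∧
    (∀ a, WF ar a → (∀ z ∈ a.2, z < m) → (Hold ar S x a ↔ Hold ar S y a)) ∧
    ∀ i < m, ∀ j < m, (lt (x i) (x j) ↔ lt (y i) (y j))

theorem ET_of_SDo [Nonempty M] (hG : GenOrd ar S lt) (hT : ∀ j, FODef (arO ar) (SO ar S lt) (T j)) {m : ℕ}
    {x y : ℕ → M} (h : SDo ar S lt m x y) : ET br T m x y := by
  obtain ⟨n', π, σ, h1, h2, h3, h4, h5, h6, h7, h8⟩ := exists_red x y m h.1
  have h9 : ISo ar S lt n' (fun i => x (σ i)) (fun i => y (σ i)) := by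
    refine ⟨h7, h8, ?_, ?_⟩
    · intro a ha hz
      rw [← Hold_mapA (v := x) (f := σ), ← Hold_mapA (v := y) (f := σ)]
      apply h.2.1 _ (WF_mapA.2 ha)
      intro z hz'
      simp only [mapA, List.mem_map] at hz'
      obtain ⟨t, ht, rfl⟩ := hz'
      exact h3 t (hz t ht)
    · intro i hi j hj
      exact h.2.2 _ (h3 i hi) _ (h3 j hj)
  have h10 := ET_comp (ET_of_bf (ISo_bfs' hG hT) h9) π h2
  exact ET_congr h5 h6 h10

/-- the ordered diagram -/
def SPo {l : ℕ} (ar : Fin l → ℕ) {M : Type} (S : ∀ i, (Fin (ar i) → M) → Prop) (lt : M → M → Prop) (m : ℕ)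
    (x : ℕ → M) :
    (Fin m → Fin m → Prop) × ({a // a ∈ atomsL ar m} → Prop) × (Fin m → Fin m → Prop) :=
  (fun i j => x i = x j, fun a => Hold ar S x a.1, fun i j => lt (x i) (x j))

theorem SDo_of_SPo {m : ℕ} {x y : ℕ → M} (h : SPo ar S lt m x = SPo ar S lt m y) : SDo ar S lt m x y := by
  refine ⟨?_, ?_, ?_⟩
  · intro i hi j hj
    have h1 := congrFun (congrFun (congrArg Prod.fst h) ⟨i, hi⟩) ⟨j, hj⟩
    exact iff_of_eq h1
  · intro a ha hz
    have h1 := congrFun (congrArg Prod.fst (congrArg Prod.snd h)) ⟨a, (mem_atomsL ar).2 ⟨ha, hz⟩⟩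
    exact iff_of_eq h1
  · intro i hi j hj
    have h1 := congrFun (congrFun (congrArg Prod.snd (congrArg Prod.snd h)) ⟨i, hi⟩) ⟨j, hj⟩
    exact iff_of_eq h1

theorem finite_SPo (m : ℕ) :
    Finite ((Fin m → Fin m → Prop) × ({a // a ∈ atomsL ar m} → Prop) × (Fin m → Fin m → Prop)) := by
  have : Finite {a // a ∈ atomsL ar m} := (List.finite_toSet (atomsL ar m)).to_subtype
  infer_instance

/-- extension of a pair of tuples with the same type (general form: finitely many diagrams) -/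
theorem ET_forth_gen {D : ℕ → Type} (hD : ∀ m, Finite (D m)) (sp : ∀ m, (ℕ → M) → D m)
    (hsp : ∀ m x y, sp m x = sp m y → ET br T m x y) {m : ℕ} {x y : ℕ → M} (h : ET br T m x y)
    (x' : ℕ → M) (hx' : ∀ i < m, x' i = x i) :
    ∃ y' : ℕ → M, (∀ i < m, y' i = y i) ∧ ET br T (m + 1) x' y' := by
  classical
  by_contra hcon
  push Not at hcon
  let _ := str br T
  have := hD (m + 1)
  have h1 : ∀ p : D (m + 1),
      ∃ φ : (lang br).Formula (Fin (m + 1)), φ.Realize (fun i : Fin (m + 1) => x' i) ∧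
        ∀ y' : ℕ → M, (∀ i < m, y' i = y i) → sp (m + 1) y' = p →
          ¬ φ.Realize (fun i : Fin (m + 1) => y' i) := by
    intro p
    by_cases hp : ∃ y' : ℕ → M, (∀ i < m, y' i = y i) ∧ sp (m + 1) y' = p
    · obtain ⟨y', hy1, hy2⟩ := hp
      obtain ⟨φ, hφ1, hφ2⟩ := not_ET_iff (hcon y' hy1)
      refine ⟨φ, hφ1, ?_⟩
      intro y'' _ hy4 hc
      exact hφ2 ((hsp _ _ _ (hy4.trans hy2.symm) φ).1 hc)
    · exact ⟨⊤, Formula.realize_top.2 trivial, fun y' hy1 hy2 => absurd ⟨y', hy1, hy2⟩ hp⟩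
  choose Φ hΦ1 hΦ2 using h1
  let Ψ : (lang br).Formula (Fin (m + 1)) := Formula.iInf Φ
  let g : Fin (m + 1) → Fin m ⊕ Unit := fun i => Fin.lastCases (Sum.inr ()) (fun i => Sum.inl i) i
  let Ξ : (lang br).Formula (Fin m) := Formula.iExs Unit (Ψ.relabel g)
  have hg : ∀ (u : ℕ → M) (b : Unit → M), (Sum.elim (fun i : Fin m => u i) b) ∘ g =
      fun i : Fin (m + 1) => Function.update u m (b ()) i := by
    intro u b
    funext i
    simp only [Function.comp_apply, g]
    refine Fin.lastCases ?_ (fun i => ?_) i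
    · simp
    · simp only [Fin.lastCases_castSucc, Sum.elim_inl, Fin.val_castSucc]
      rw [Function.update_of_ne (by have := i.2; omega)]
  have hx : Ξ.Realize (fun i : Fin m => x i) := by
    rw [Formula.realize_iExs]
    refine ⟨fun _ => x' m, ?_⟩
    rw [Formula.realize_relabel, hg]
    have : (fun i : Fin (m + 1) => Function.update x m (x' m) i) = fun i : Fin (m + 1) => x' i := by
      funext i
      rcases Nat.lt_or_ge (i : ℕ) m with c | c
      · rw [Function.update_of_ne (by omega), hx' _ c]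
      · have : (i : ℕ) = m := by have := i.2; omega
        rw [this, Function.update_self]
    rw [this, Formula.realize_iInf]
    exact hΦ1
  have hy := (h Ξ).1 hx
  rw [Formula.realize_iExs] at hy
  obtain ⟨b, hb⟩ := hy
  rw [Formula.realize_relabel, hg, Formula.realize_iInf] at hb
  exact hΦ2 _ (Function.update y m (b ())) (fun i hi => Function.update_of_ne (by omega) _ _) rfl (hb _)

/-- first-order definability in the reduct: invariance under types (general form) -/
theorem fodef_iff_gen [Nonempty M] {D : ℕ → Type} (hD : ∀ m, Finite (D m)) (sp : ∀ m, (ℕ → M) → D m)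
    (hsp : ∀ m x y, sp m x = sp m y → ET br T m x y) {n : ℕ} (R : (Fin n → M) → Prop) :
    FODef br T R ↔ ∀ x y : ℕ → M, ET br T n x y → R (fun i => x i) → R (fun i => y i) := by
  classical
  let _ := str br T
  constructor
  · rintro ⟨φ, hφ⟩ x y hxy hx
    rw [hφ] at hx ⊢
    exact (hxy φ).1 hx
  · intro hinv
    have := hD n
    let G := {p : D n // ∃ x : ℕ → M, sp n x = p ∧ R (fun i => x i)}
    let B := {p : D n // ∃ x : ℕ → M, sp n x = p ∧ ¬ R (fun i => x i)}
    have : Finite G := Subtype.finite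
    have : Finite B := Subtype.finite
    have h1 : ∀ (p : G) (q : B), ∃ φ : (lang br).Formula (Fin n),
        (∀ x : ℕ → M, sp n x = p.1 → φ.Realize (fun i : Fin n => x i)) ∧
        (∀ x : ℕ → M, sp n x = q.1 → ¬ φ.Realize (fun i : Fin n => x i)) := by
      rintro ⟨p, x, hx1, hx2⟩ ⟨q, y, hy1, hy2⟩
      obtain ⟨φ, hφ1, hφ2⟩ := not_ET_iff (T := T) (br := br) (m := n) (x := x) (y := y)
        (fun hc => hy2 (hinv x y hc hx2))
      refine ⟨φ, ?_, ?_⟩
      · intro x' hx'
        exact (hsp _ _ _ (hx1.trans hx'.symm) φ).1 hφ1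
      · intro y' hy' hc
        exact hφ2 ((hsp _ _ _ (hy'.trans hy1.symm) φ).1 hc)
    choose Φ hΦ1 hΦ2 using h1
    refine ⟨Formula.iSup (fun p : G => Formula.iInf (fun q : B => Φ p q)), ?_⟩
    intro v
    rw [Formula.realize_iSup]
    simp only [Formula.realize_iInf]
    let m0 : M := Classical.arbitrary M
    let z : ℕ → M := fun i => if h : i < n then v ⟨i, h⟩ else m0
    have hz : (fun i : Fin n => z i) = v := by
      funext i
      simp [z]
    rw [← hz]
    constructor
    · intro hR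
      exact ⟨⟨sp n z, z, rfl, hR⟩, fun q => hΦ1 _ q z rfl⟩
    · rintro ⟨p, hp⟩
      by_contra hR
      exact hΦ2 p ⟨sp n z, z, rfl, hR⟩ z rfl (hp _)

theorem ET_forth_o [Nonempty M] (hG : GenOrd ar S lt) (hT : ∀ j, FODef (arO ar) (SO ar S lt) (T j)) {m : ℕ}
    {x y : ℕ → M} (h : ET br T m x y) (x' : ℕ → M) (hx' : ∀ i < m, x' i = x i) :
    ∃ y' : ℕ → M, (∀ i < m, y' i = y i) ∧ ET br T (m + 1) x' y' :=
  ET_forth_gen (fun m => finite_SPo (ar := ar) m) (fun m => SPo ar S lt m)
    (fun _ _ _ h => ET_of_SDo hG hT (SDo_of_SPo h)) h x' hx'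

theorem fodef_iff_o [Nonempty M] (hG : GenOrd ar S lt) (hT : ∀ j, FODef (arO ar) (SO ar S lt) (T j)) {n : ℕ}
    (R : (Fin n → M) → Prop) :
    FODef br T R ↔ ∀ x y : ℕ → M, ET br T n x y → R (fun i => x i) → R (fun i => y i) :=
  fodef_iff_gen (fun m => finite_SPo (ar := ar) m) (fun m => SPo ar S lt m)
    (fun _ _ _ h => ET_of_SDo hG hT (SDo_of_SPo h)) R

/-- the order is preserved -/
theorem ET_lt (hlt : FODef br T (fun v : Fin 2 → M => lt (v 0) (v 1))) {m : ℕ} {x y : ℕ → M} (h : ET br T m x y)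
    {i j : ℕ} (hi : i < m) (hj : j < m) : lt (x i) (x j) ↔ lt (y i) (y j) := by
  let _ := str br T
  obtain ⟨φ, hφ⟩ := hlt
  have h1 := ET_comp (m' := 2) h (fun t => if t = 0 then i else j) (by
    intro t _
    show (if t = 0 then i else j) < m
    split_ifs
    · exact hi
    · exact hj) φ
  have h2 := hφ (fun t : Fin 2 => x (if (t : ℕ) = 0 then i else j))
  have h3 := hφ (fun t : Fin 2 => y (if (t : ℕ) = 0 then i else j))
  simp only [Fin.val_zero, if_true, Fin.val_one, one_ne_zero, if_false] at h2 h3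
  rw [h2, h3]
  exact h1

end EF39
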