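import Pool.Agent.EF40.Base

/-!
# EF40: quantifier free definitions with the order
-/

set_option autoImplicit false

namespace EF39

variable {l : ℕ} {ar : Fin l → ℕ} {M : Type} {S : ∀ i, (Fin (ar i) → M) → Prop} {lt : M → M → Prop}
variable {k : ℕ} {br : Fin k → ℕ} {T : ∀ j, (Fin (br j) → M) → Prop}

/-- every property of tuples gives a quantifier free formula, for the ordered diagrams of the tuples with this
property -/
theorem qf_def_o (ar : Fin l → ℕ) (S : ∀ i, (Fin (ar i) → M) → Prop) (lt : M → M → Prop) (m : ℕ)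
    (Q : (ℕ → M) → Prop) :
    ∃ φ : QF, ∀ (h o : List ℕ) (X : Atom → Prop), EvQ ar m h o X φ ↔
      ∃ w : ℕ → M, Q w ∧ (∀ i < m, ∀ j < m, (w i = w j ↔ h.getD i 0 = h.getD j 0)) ∧
        (∀ i < m, ∀ j < m, (lt (w i) (w j) ↔ o.getD (h.getD i 0) 0 < o.getD (h.getD j 0) 0)) ∧
        ∀ a ∈ atomsL ar m, (Hold ar S w a ↔ X (mapA (fun x => h.getD x 0) a)) := by
  classical
  let B : List Atom := (listsOf 2 m).map (fun g => (0, g)) ++ ((listsOf 2 m).map (fun g => (1, g)) ++
    (atomsL ar m).map (fun a => (a.1 + 2, a.2)))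
  let H : (ℕ → M) → Atom → Prop := fun w b =>
    (b.1 = 0 ∧ w (b.2.getD 0 0) = w (b.2.getD 1 0)) ∨ (b.1 = 1 ∧ lt (w (b.2.getD 0 0)) (w (b.2.getD 1 0))) ∨
      (2 ≤ b.1 ∧ Hold ar S w (b.1 - 2, b.2))
  let cl : (ℕ → M) → List (Bool × Atom) := fun w => B.map (fun b => (decide (H w b), b))
  have hfin : {c | ∃ w, Q w ∧ cl w = c}.Finite := by
    apply ((List.finite_length_eq Bool B.length).image (fun s => s.zip B)).subset
    rintro c ⟨w, -, rfl⟩
    refine ⟨B.map (fun b => decide (H w b)), by simp, ?_⟩
    exact (map_pair_zip _ _).symm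
  refine ⟨hfin.toFinset.toList, ?_⟩
  intro h o X
  have h1 : EvQ ar m h o X hfin.toFinset.toList ↔ ∃ w, Q w ∧ ∀ b ∈ B, (EvA ar m h o X b ↔ H w b) := by
    unfold EvQ
    simp only [Finset.mem_toList, Set.Finite.mem_toFinset, Set.mem_ofPred_eq]
    constructor
    · rintro ⟨c, ⟨w, hw, rfl⟩, hc⟩
      refine ⟨w, hw, ?_⟩
      intro b hb
      have := hc (decide (H w b), b) (List.mem_map.2 ⟨b, hb, rfl⟩)
      simpa using this
    · rintro ⟨w, hw, hc⟩
      refine ⟨_, ⟨w, hw, rfl⟩, ?_⟩
      intro x hx
      simp only [cl, List.mem_map] at hx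
      obtain ⟨b, hb, rfl⟩ := hx
      simpa using hc b hb
  rw [h1]
  apply exists_congr
  intro w
  apply and_congr_right
  intro _
  constructor
  · intro hB
    refine ⟨?_, ?_, ?_⟩
    · intro i hi j hj
      have h2 := hB (0, [i, j]) (by
        simp only [B, List.mem_append, List.mem_map]
        refine Or.inl ⟨[i, j], ?_, rfl⟩
        rw [mem_listsOf]
        simp [hi, hj])
      simp only [EvA, H] at h2
      simp only [List.length_cons, List.length_nil, true_and] at h2
      simp [hi, hj] at h2
      simp only [List.getD_eq_getElem?_getD]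
      exact h2.symm
    · intro i hi j hj
      have h2 := hB (1, [i, j]) (by
        simp only [B, List.mem_append, List.mem_map]
        refine Or.inr (Or.inl ⟨[i, j], ?_, rfl⟩)
        rw [mem_listsOf]
        simp [hi, hj])
      simp only [EvA, H] at h2
      simp only [List.length_cons, List.length_nil, true_and] at h2
      simp [hi, hj] at h2
      simp only [List.getD_eq_getElem?_getD]
      exact h2.symm
    · intro a ha
      have ha' := (mem_atomsL ar).1 ha
      have h2 := hB (a.1 + 2, a.2) (by
        simp only [B, List.mem_append, List.mem_map]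
        exact Or.inr (Or.inr ⟨a, ha, rfl⟩))
      simp only [EvA, H] at h2
      have e1 : a.1 + 2 ≠ 0 := by omega
      have e2 : a.1 + 2 ≠ 1 := by omega
      have e3 : 2 ≤ a.1 + 2 := by omega
      simp only [e1, e2, e3, false_and, false_or, true_and, Nat.add_sub_cancel] at h2
      have e4 : WF ar (a.1, a.2) := ha'.1
      simp only [e4, true_and] at h2
      constructor
      · intro h3
        exact (h2.2 h3).2
      · intro h3
        exact h2.1 ⟨fun x hx => ha'.2 x hx, h3⟩
  · rintro ⟨hE, hO, hA⟩ b hb
    simp only [B, List.mem_append, List.mem_map] at hb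
    rcases hb with ⟨g, hg, rfl⟩ | ⟨g, hg, rfl⟩ | ⟨a, ha, rfl⟩
    · rw [mem_listsOf] at hg
      obtain ⟨hg1, hg2⟩ := hg
      match g, hg1, hg2 with
      | [i, j], _, hg2 =>
        have hi : i < m := hg2 i (by simp)
        have hj : j < m := hg2 j (by simp)
        have h2 := hE i hi j hj
        simp only [EvA, H, List.length_cons, List.length_nil, true_and]
        simp [hi, hj]
        simp only [List.getD_eq_getElem?_getD] at h2
        exact h2.symm
    · rw [mem_listsOf] at hg
      obtain ⟨hg1, hg2⟩ := hg
      match g, hg1, hg2 with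
      | [i, j], _, hg2 =>
        have hi : i < m := hg2 i (by simp)
        have hj : j < m := hg2 j (by simp)
        have h2 := hO i hi j hj
        simp only [EvA, H, List.length_cons, List.length_nil, true_and]
        simp [hi, hj]
        simp only [List.getD_eq_getElem?_getD] at h2
        exact h2.symm
    · have ha' := (mem_atomsL ar).1 ha
      simp only [EvA, H]
      have e1 : a.1 + 2 ≠ 0 := by omega
      have e2 : a.1 + 2 ≠ 1 := by omega
      have e3 : 2 ≤ a.1 + 2 := by omega
      simp only [e1, e2, e3, false_and, false_or, true_and, Nat.add_sub_cancel]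
      have e4 : WF ar (a.1, a.2) := ha'.1
      simp only [e4, true_and]
      constructor
      · rintro ⟨_, h3⟩
        exact (hA a ha).2 h3
      · intro h3
        exact ⟨fun x hx => ha'.2 x hx, (hA a ha).1 h3⟩

/-- finitely many data on the structures, used by the algorithm -/
structure PackO {l : ℕ} (ar : Fin l → ℕ) {M : Type} (S : ∀ i, (Fin (ar i) → M) → Prop) (lt : M → M → Prop)
    {k : ℕ} (br : Fin k → ℕ) (T : ∀ j, (Fin (br j) → M) → Prop) where
  /-- the number of moves in a certificate -/
  r : ℕ
  /-- definitions of the relations of the reduct -/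
  th : Fin k → QF
  /-- definitions of legality -/
  la : List QF
  har : ∀ i, ar i < la.length
  hr : la.length ≤ r + 1
  hbr : ∀ j, br j ≤ r
  th_spec : ∀ (j : Fin k) (N : ℕ) (v : ℕ → M) (X : Atom → Prop), Set.InjOn v (Finset.range N) →
    (∀ a, WF ar a → (∀ z ∈ a.2, z < N) → (Hold ar S v a ↔ X a)) → ∀ o : List ℕ,
    (∀ i < N, ∀ j < N, (o.getD i 0 < o.getD j 0 ↔ lt (v i) (v j))) → ∀ h ∈ listsOf (br j) N,
      (EvQ ar (br j) h o X (th j) ↔ T j (fun t => v (h.getD t 0)))
  la_spec : ∀ (X : Atom → Prop) (Tl : List ℕ), Tl.Nodup → Tl.length < la.length → ∀ o,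
      (EvQ ar Tl.length Tl o X (la.getD Tl.length []) ↔ Leg ar S X Tl.toFinset)

/-- the data exist -/
theorem exists_packO [Nonempty M] (hG : GenOrd ar S lt) (hT : ∀ j, FODef (arO ar) (SO ar S lt) (T j)) :
    Nonempty (PackO ar S lt br T) := by
  classical
  -- legality
  obtain ⟨A, hA⟩ : ∃ A, ∀ i, ar i < A := ⟨(Finset.univ.sup ar) + 1, fun i => by
    have := Finset.le_sup (f := ar) (Finset.mem_univ i)
    omega⟩
  obtain ⟨B, hB⟩ : ∃ B, ∀ j, br j ≤ B := ⟨Finset.univ.sup br, fun j =>
    Finset.le_sup (f := br) (Finset.mem_univ j)⟩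
  have hla := fun c => qf_def ar S c (fun _ => True)
  choose la hla using hla
  have hth := fun j => qf_def_o ar S lt (br j) (fun w => T j (fun t => w t))
  choose th hth using hth
  refine ⟨⟨A + B, th, (List.range A).map la, ?_, ?_, ?_, ?_, ?_⟩⟩
  · intro i
    simpa using hA i
  · simp
    omega
  · intro j
    have := hB j
    omega
  · intro j N v X hv hX o ho h hh
    rw [hth]
    rw [mem_listsOf] at hh
    obtain ⟨hh1, hh2⟩ := hh
    have hhN : ∀ i < br j, h.getD i 0 < N := fun i hi => hh2 _ (getD_mem (by omega))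
    constructor
    · rintro ⟨w, hw1, hw2, hw25, hw3⟩
      have hsd : SDo ar S lt (br j) w (fun i => v (h.getD i 0)) := by
        refine ⟨?_, ?_, ?_⟩
        · intro i hi i' hi'
          rw [hw2 i hi i' hi']
          constructor
          · intro h3
            simp only [h3]
          · intro h3
            exact hv (by simpa using hhN i hi) (by simpa using hhN i' hi') h3
        · intro a ha hz
          rw [hw3 a ((mem_atomsL ar).2 ⟨ha, hz⟩), ← Hold_mapA (v := v) (f := fun x => h.getD x 0)]
          refine (hX _ (WF_mapA.2 ha) ?_).symm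
          intro z hz'
          simp only [mapA, List.mem_map] at hz'
          obtain ⟨i, hi, rfl⟩ := hz'
          exact hhN i (hz i hi)
        · intro i hi i' hi'
          rw [hw25 i hi i' hi']
          exact ho _ (hhN i hi) _ (hhN i' hi')
      exact (ET_rel (ET_of_SDo hG hT hsd) j (fun t => (t : ℕ)) (fun t => t.2)).1 hw1
    · intro hTj
      refine ⟨fun i => v (h.getD i 0), hTj, ?_, ?_, ?_⟩
      · intro i hi i' hi'
        constructor
        · intro h3
          exact hv (by simpa using hhN i hi) (by simpa using hhN i' hi') h3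
        · intro h3
          simp only [h3]
      · intro i hi i' hi'
        exact (ho _ (hhN i hi) _ (hhN i' hi')).symm
      · intro a ha
        rw [mem_atomsL] at ha
        rw [← Hold_mapA (v := v) (f := fun x => h.getD x 0)]
        apply hX _ (WF_mapA.2 ha.1)
        intro z hz'
        simp only [mapA, List.mem_map] at hz'
        obtain ⟨i, hi, rfl⟩ := hz'
        exact hhN i (ha.2 i hi)
  · intro X Tl hTl hlen o
    have hlen' : Tl.length < A := by simpa using hlen
    have : ((List.range A).map la).getD Tl.length [] = la Tl.length := by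
      rw [List.getD_eq_getElem _ _ hlen]
      simp
    rw [this, hla]
    exact leg_list X Tl hTl

end EF39
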