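import Pool.Agent.EF39.CertTo
import Pool.Agent.EF40.QFDef

/-!
# EF40: certificates for plays with an order
-/

set_option autoImplicit false

namespace EF39

section
variable {l : ℕ} (ar : Fin l → ℕ)

/-- atoms for plays with an order: also the binary symbol number `l + 1` -/
def atomsO (N : ℕ) : List Atom := atomsS ar N ++ (listsOf 2 N).map (fun g => (l + 1, g))

/-- the order of the first `N` points of the play `P` is given by `o` -/
def OrdP (l N : ℕ) (P : Atom → Prop) (o : List ℕ) : Prop :=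
  ∀ x ∈ List.range N, ∀ y ∈ List.range N, (P (l + 1, [x, y]) ↔ o.getD x 0 < o.getD y 0)

/-- the play is valid: its order is a linear order, extending the order of the constants -/
def ValP (l n r : ℕ) (oc : List ℕ) (P : Atom → Prop) : Prop :=
  (∃ o ∈ listsOf (n + r) (n + r), (∀ i ∈ List.range (n + r), ∀ j ∈ List.range (n + r),
    o.getD i 0 = o.getD j 0 → i = j) ∧ OrdP l (n + r) P o) ∧ OrdP l n P oc

/-- responses depend only on the sub-play -/
def CompO (n r : ℕ) (oc : List ℕ) (R : List Atom → Atom → Prop) : Prop :=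
  ∀ P ∈ subs (atomsO ar (n + r)), ValP l n r oc (fun a => a ∈ P) →
    ∀ P' ∈ subs (atomsO ar (n + r)), ValP l n r oc (fun a => a ∈ P') → ∀ e ∈ subs (List.range r),
    ∀ e' ∈ subs (List.range r), e.length = e'.length →
    (∀ a ∈ atomsO ar (n + e.length), (mapA (iot n e) a ∈ P ↔ mapA (iot n e') a ∈ P')) →
    ∀ a ∈ atomsL ar (n + e.length), (R P (mapA (iot n e) a) ↔ R P' (mapA (iot n e') a))

/-- responses are legal -/
def LegO (n r : ℕ) (oc : List ℕ) (la : List QF) (R : List Atom → Atom → Prop) : Prop :=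
  ∀ P ∈ subs (atomsO ar (n + r)), ValP l n r oc (fun a => a ∈ P) → ∀ Tl ∈ subs (List.range (n + r)),
    Tl.length < la.length → EvQ ar Tl.length Tl [] (R P) (la.getD Tl.length [])

/-- legal instructions are followed -/
def FaiO (n r : ℕ) (oc : List ℕ) (la : List QF) (R : List Atom → Atom → Prop) (sg : Bool) : Prop :=
  ∀ P ∈ subs (atomsO ar (n + r)), ValP l n r oc (fun a => a ∈ P) → ∀ Tl ∈ subs (List.range (n + r)),
    Tl.length < la.length →
    ∀ x ∈ Tl, n ≤ x → (∀ y ∈ Tl, y ≤ x) → ((l, [x]) ∈ P ↔ sg = true) →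
    EvQ ar Tl.length Tl [] (mixL (R P) (fun a => a ∈ P) Tl) (la.getD Tl.length []) →
    ∀ a ∈ atomsL ar (n + r), SuppEq a Tl → (R P a ↔ a ∈ P)

/-- the relations of the reduct agree -/
def GamO (n r : ℕ) (oc : List ℕ) (th : List (ℕ × QF)) (RA RB : List Atom → Atom → Prop) : Prop :=
  ∀ P ∈ subs (atomsO ar (n + r)), ValP l n r oc (fun a => a ∈ P) → ∀ o ∈ listsOf (n + r) (n + r),
    OrdP l (n + r) (fun a => a ∈ P) o → ∀ p ∈ th, ∀ h ∈ listsOf p.1 (n + r),
    (EvQ ar p.1 h o (RA P) p.2 ↔ EvQ ar p.1 h o (RB P) p.2)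

/-- the starting position -/
def BasO (n r : ℕ) (oc : List ℕ) (R : List Atom → Atom → Prop) (s : Atom → Prop) : Prop :=
  ∀ P ∈ subs (atomsO ar (n + r)), ValP l n r oc (fun a => a ∈ P) → ∀ a ∈ atomsL ar n, (R P a ↔ s a)

open Classical in
/-- the sub-play along `e` -/
noncomputable def cdo (n r : ℕ) (P : Atom → Prop) (e : List ℕ) : List Atom :=
  (atomsO ar (n + r)).filter (fun a => decide (P (mapA (iot n e) a)))

theorem cdo_mem_subs {n r : ℕ} {P : Atom → Prop} {e : List ℕ} : cdo ar n r P e ∈ subs (atomsO ar (n + r)) := by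
  rw [mem_subs]
  exact List.filter_sublist

theorem mem_cdo {n r : ℕ} {P : Atom → Prop} {e : List ℕ} {a : Atom} :
    a ∈ cdo ar n r P e ↔ a ∈ atomsO ar (n + r) ∧ P (mapA (iot n e) a) := by
  simp [cdo]

theorem mem_atomsO {N : ℕ} {a : Atom} : a ∈ atomsO ar N ↔ (WF ar a ∧ ∀ x ∈ a.2, x < N) ∨
    (∃ x < N, a = (l, [x])) ∨ ∃ x < N, ∃ y < N, a = (l + 1, [x, y]) := by
  simp only [atomsO, List.mem_append, mem_atomsS, List.mem_map, mem_listsOf]
  rw [or_assoc]
  apply or_congr Iff.rfl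
  apply or_congr Iff.rfl
  constructor
  · rintro ⟨g, ⟨h1, h2⟩, rfl⟩
    match g, h1, h2 with
    | [x, y], _, h2 => exact ⟨x, h2 x (by simp), y, h2 y (by simp), rfl⟩
  · rintro ⟨x, hx, y, hy, rfl⟩
    exact ⟨[x, y], ⟨rfl, by simp [hx, hy]⟩, rfl⟩

end

section
variable {l : ℕ} {ar : Fin l → ℕ} {M : Type} {S : ∀ i, (Fin (ar i) → M) → Prop} {lt : M → M → Prop}

theorem atomsO_lt {N : ℕ} {a : Atom} (h : a ∈ atomsO ar N) : ∀ x ∈ a.2, x < N := by
  rw [mem_atomsO] at h
  rcases h with ⟨-, h⟩ | ⟨x, hx, rfl⟩ | ⟨x, hx, y, hy, rfl⟩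
  · exact h
  · simpa using hx
  · simp [hx, hy]

theorem mapA_mem_atomsO {N N' : ℕ} {f : ℕ → ℕ} {a : Atom} (ha : a ∈ atomsO ar N) (hf : ∀ x < N, f x < N') :
    mapA f a ∈ atomsO ar N' := by
  rw [mem_atomsO] at ha ⊢
  rcases ha with ha | ⟨x, hx, rfl⟩ | ⟨x, hx, y, hy, rfl⟩
  · left
    have := mapA_mem_atomsL ((mem_atomsL ar).2 ha) hf
    exact (mem_atomsL ar).1 this
  · right
    left
    exact ⟨f x, hf x hx, rfl⟩
  · right
    right
    exact ⟨f x, hf x hx, f y, hf y hy, rfl⟩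

theorem mem_atomsO_of_mapA {f : ℕ → ℕ} {N N' : ℕ} {a : Atom} (h : mapA f a ∈ atomsO ar N')
    (ha : ∀ x ∈ a.2, x < N) : a ∈ atomsO ar N := by
  rw [mem_atomsO] at h ⊢
  rcases h with ⟨h1, -⟩ | ⟨x, hx, h⟩ | ⟨x, hx, y, hy, h⟩
  · exact Or.inl ⟨WF_mapA.1 h1, ha⟩
  · right
    left
    have h1 : a.1 = l := by
      have h1' : (mapA f a).1 = l := by rw [h]
      exact h1'
    have h2 : a.2.map f = [x] := by
      have h2' : (mapA f a).2 = [x] := by rw [h]
      exact h2'
    rw [List.map_eq_singleton_iff] at h2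
    obtain ⟨y, hy, -⟩ := h2
    refine ⟨y, ha y (by simp [hy]), Prod.ext h1 hy⟩
  · right
    right
    have h1 : a.1 = l + 1 := by
      have h1' : (mapA f a).1 = l + 1 := by rw [h]
      exact h1'
    have h2 : a.2.map f = [x, y] := by
      have h2' : (mapA f a).2 = [x, y] := by rw [h]
      exact h2'
    obtain ⟨i, s⟩ := a
    match s, h2, ha with
    | [x', y'], h2, ha =>
      refine ⟨x', ha x' (by simp), y', ha y' (by simp), ?_⟩
      have : i = l + 1 := h1
      rw [this]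

/-- the response on an atom only depends on the instructions below it -/
theorem wdo {n r : ℕ} {oc : List ℕ} {R : List Atom → Atom → Prop} (hR : CompO ar n r oc R) {P P' : Atom → Prop}
    {N : ℕ} {e e' : List ℕ} (he : e ∈ subs (List.range N)) (he' : e' ∈ subs (List.range N)) (hl : e.length = r)
    (hl' : e'.length = r) (hv : ValP l n r oc (fun a => a ∈ cdo ar n r P e))
    (hv' : ValP l n r oc (fun a => a ∈ cdo ar n r P' e')) {a a' : Atom} (ha : a ∈ atomsL ar (n + r))
    (ha' : a' ∈ atomsL ar (n + r)) (haa : mapA (iot n e) a = mapA (iot n e') a')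
    (hP : ∀ b, (∀ z ∈ b.2, z < n ∨ z ∈ (mapA (iot n e) a).2) → (P b ↔ P' b)) :
    R (cdo ar n r P e) a ↔ R (cdo ar n r P' e') a' := by
  have ha1 := (mem_atomsL ar).1 ha
  have ha1' := (mem_atomsL ar).1 ha'
  obtain ⟨g, a0, hg1, hg2, hg3, hg4, hg5⟩ := exists_used he hl ha1.2
  obtain ⟨g', a0', hg1', hg2', hg3', hg4', hg5'⟩ := exists_used he' hl' ha1'.2
  have hf : g.map (fun y => e.getD y 0) = g'.map (fun y => e'.getD y 0) := by
    apply eq_of_pairwise_lt hg4 hg4'
    intro z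
    rw [hg5, hg5', haa]
  have hlen : g.length = g'.length := by
    have := congrArg List.length hf
    simpa using this
  have hmap : ∀ b : Atom, (∀ x ∈ b.2, x < n + g.length) →
      mapA (iot n e) (mapA (iot n g) b) = mapA (iot n (g.map (fun y => e.getD y 0))) b := by
    intro b hb
    rw [mapA_mapA]
    exact mapA_congr fun x hx => iot_comp (hb x hx)
  have hmap' : ∀ b : Atom, (∀ x ∈ b.2, x < n + g.length) →
      mapA (iot n e') (mapA (iot n g') b) = mapA (iot n (g.map (fun y => e.getD y 0))) b := by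
    intro b hb
    rw [mapA_mapA, hf]
    exact mapA_congr fun x hx => iot_comp (by rw [← hlen]; exact hb x hx)
  have ha0 : a0 = a0' := by
    have hinj := fun x (hx : x < n + (g.map (fun y => e.getD y 0)).length) y
      (hy : y < n + (g.map (fun y => e.getD y 0)).length) h => iot_inj (n := n) hg4 hx hy h
    apply mapA_inj hinj
    · simpa using hg2
    · simpa [hlen] using hg2'
    · rw [← hmap a0 hg2, ← hmap' a0' (by rw [hlen]; exact hg2'), hg3, hg3']
      exact haa
  have hgr := mem_subs_range.1 hg1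
  have hgr' := mem_subs_range.1 hg1'
  have hkey := hR (cdo ar n r P e) (cdo_mem_subs ar) hv (cdo ar n r P' e') (cdo_mem_subs ar) hv' g hg1 g' hg1'
    hlen (by
    intro b hb
    have hbl := atomsO_lt hb
    rw [mem_cdo, mem_cdo, hmap b hbl, hmap' b hbl]
    have m1 : mapA (iot n g) b ∈ atomsO ar (n + r) := mapA_mem_atomsO hb fun x hx => iot_bound hgr.2 hx
    have m2 : mapA (iot n g') b ∈ atomsO ar (n + r) := mapA_mem_atomsO hb fun x hx =>
      iot_bound hgr'.2 (by rw [← hlen]; exact hx)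
    simp only [m1, m2, true_and]
    apply hP
    intro z hz
    rw [mem_mapA] at hz
    obtain ⟨y, hy, rfl⟩ := hz
    rcases Nat.lt_or_ge y n with c | c
    · left
      rw [iot_lt c]
      exact c
    · right
      rw [iot_ge c, ← hg5]
      apply getD_mem
      have := hbl y hy
      simp only [List.length_map]
      omega) a0 (by
    rw [mem_atomsL]
    refine ⟨?_, hg2⟩
    rw [← WF_mapA (f := iot n g), hg3]
    exact ha1.1)
  rw [hg3, ha0, hg3'] at hkey
  exact hkey

/-- the order atoms of a play agree with the order of the points -/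
def OrdV {M : Type} (l : ℕ) (lt : M → M → Prop) (N : ℕ) (P : Atom → Prop) (v : ℕ → M) : Prop :=
  ∀ x < N, ∀ y < N, (P (l + 1, [x, y]) ↔ lt (v x) (v y))

/-- sub-plays of real plays are valid -/
theorem valP_cdo (hord : IsStrictTotalOrder M lt) {n r N : ℕ} {oc : List ℕ} {P : Atom → Prop} {v : ℕ → M}
    (hv : Set.InjOn v (Finset.range (n + N))) (hP : OrdV l lt (n + N) P v)
    (hoc : ∀ x < n, ∀ y < n, (oc.getD x 0 < oc.getD y 0 ↔ lt (v x) (v y))) {e : List ℕ}
    (he : e ∈ subs (List.range N)) (hl : e.length = r) :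
    ValP l n r oc (fun a => a ∈ cdo ar n r P e) ∧ ∃ o ∈ listsOf (n + r) (n + r),
      OrdP l (n + r) (fun a => a ∈ cdo ar n r P e) o ∧
      ∀ x < n + r, ∀ y < n + r, (o.getD x 0 < o.getD y 0 ↔ lt (v (iot n e x)) (v (iot n e y))) := by
  have he1 := mem_subs_range.1 he
  obtain ⟨o, ho1, ho2, ho3⟩ := exists_rank hord (injOn_iot hv he hl)
  have hb : ∀ x < n + r, iot n e x < n + N := fun x hx => iot_bound he1.2 (by rw [hl]; exact hx)
  have hm : ∀ x < n + r, ∀ y < n + r, ((l + 1, [x, y]) ∈ cdo ar n r P e ↔ lt (v (iot n e x)) (v (iot n e y))) := by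
    intro x hx y hy
    rw [mem_cdo]
    have h1 : mapA (iot n e) (l + 1, [x, y]) = (l + 1, [iot n e x, iot n e y]) := rfl
    have h2 : (l + 1, [x, y]) ∈ atomsO ar (n + r) := by
      rw [mem_atomsO]
      exact Or.inr (Or.inr ⟨x, hx, y, hy, rfl⟩)
    rw [h1, hP _ (hb x hx) _ (hb y hy)]
    simp [h2]
  have hop : OrdP l (n + r) (fun a => a ∈ cdo ar n r P e) o := by
    intro x hx y hy
    rw [List.mem_range] at hx hy
    show (l + 1, [x, y]) ∈ cdo ar n r P e ↔ _
    rw [hm x hx y hy]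
    exact (ho3 x hx y hy).symm
  refine ⟨⟨⟨o, ho1, ho2, hop⟩, ?_⟩, o, ho1, hop, ho3⟩
  intro x hx y hy
  rw [List.mem_range] at hx hy
  show (l + 1, [x, y]) ∈ cdo ar n r P e ↔ _
  rw [hm x (by omega) y (by omega), iot_lt hx, iot_lt hy]
  exact (hoc x hx y hy).symm

end

end EF39
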