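import Pool.Agent.EF40.Base
import Pool.Agent.EF39.PlayE

/-!
# EF40: playing against instructions, with the order
-/

set_option autoImplicit false

namespace EF39

variable {l : ℕ} {ar : Fin l → ℕ} {M : Type} {S : ∀ i, (Fin (ar i) → M) → Prop} {lt : M → M → Prop}
variable {k : ℕ} {br : Fin k → ℕ} {T : ∀ j, (Fin (br j) → M) → Prop}

theorem Pt_ET (hlt : FODef br T (fun v : Fin 2 → M => lt (v 0) (v 1))) {m : ℕ} {x y : ℕ → M} (h : ET br T m x y)
    {o : ℕ → ℕ} (ho : Pt lt m o x) : Pt lt m o y := by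
  intro i hi j hj
  rw [ho i hi j hj]
  exact ET_lt hlt h hi hj

theorem playEo [Nonempty M] (hG : GenOrd ar S lt) (hT : ∀ j, FODef (arO ar) (SO ar S lt) (T j))
    (hlt : FODef br T (fun v : Fin 2 → M => lt (v 0) (v 1))) {n : ℕ} {a0 b0 : ℕ → M}
    (ha : Set.InjOn a0 (Finset.range n)) (h : ET br T n a0 b0) (U : Atom → Prop) (N : ℕ) {o : ℕ → ℕ}
    (ho : Set.InjOn o (Finset.range (n + N))) (hoa : Pt lt n o a0) :
    ∃ v w : ℕ → M, (∀ i < n, v i = a0 i) ∧ (∀ i < n, w i = b0 i) ∧ Set.InjOn v (Finset.range (n + N)) ∧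
      ET br T (n + N) v w ∧ Pt lt (n + N) o v ∧
      ∀ T' ⊆ Finset.range (n + N), ∀ x ∈ T', n ≤ x → (∀ y ∈ T', y ≤ x) →
        (U (l, [x]) → Fol ar S U v T') ∧ (¬ U (l, [x]) → Fol ar S U w T') := by
  induction N with
  | zero =>
    refine ⟨a0, b0, fun _ _ => rfl, fun _ _ => rfl, ha, h, hoa, ?_⟩
    intro T' hT' x hx hnx _
    have := Finset.mem_range.1 (hT' hx)
    omega
  | succ N ih =>
    obtain ⟨v, w, h1, h2, h3, h4, h45, h5⟩ := ih (ho.mono (by
      intro z hz
      simp only [Finset.coe_range, Set.mem_Iio] at hz ⊢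
      omega))
    have hsub : ∀ T' ⊆ Finset.range (n + (N + 1)), ∀ x ∈ T', (∀ y ∈ T', y ≤ x) → x < n + N →
        T' ⊆ Finset.range (n + N) := by
      intro T' hT' x hx hmax hxN y hy
      have := hmax y hy
      rw [Finset.mem_range]
      omega
    by_cases hU : U (l, [n + N])
    · obtain ⟨v', hv1, hv2, hv25, hv3⟩ := decodeO hG h3 ho h45 U
      obtain ⟨w', hw1, hw2⟩ := ET_forth_o hG hT h4 v' hv1
      refine ⟨v', w', fun i hi => (hv1 i (by omega)).trans (h1 i hi), fun i hi => (hw1 i (by omega)).trans (h2 i hi),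
        hv2, hw2, hv25, ?_⟩
      intro T' hT' x hx hnx hmax
      rcases Nat.lt_or_ge x (n + N) with c | c
      · have h6 := hsub T' hT' x hx hmax c
        obtain ⟨h7, h8⟩ := h5 T' h6 x hx hnx hmax
        exact ⟨fun hc => Fol_congr (fun z hz => (hv1 z (Finset.mem_range.1 (h6 hz))).symm) (h7 hc),
          fun hc => Fol_congr (fun z hz => (hw1 z (Finset.mem_range.1 (h6 hz))).symm) (h8 hc)⟩
      · have h6 := Finset.mem_range.1 (hT' hx)
        have h7 : x = n + N := by omega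
        subst h7
        exact ⟨fun _ => hv3 T' hT' hx, fun hc => absurd hU hc⟩
    · obtain ⟨w', hv1, hv2, hv25, hv3⟩ := decodeO hG (ET_injOn h4 h3) ho (Pt_ET hlt h4 h45) U
      obtain ⟨v', hw1, hw2⟩ := ET_forth_o hG hT h4.symm w' hv1
      refine ⟨v', w', fun i hi => (hw1 i (by omega)).trans (h1 i hi), fun i hi => (hv1 i (by omega)).trans (h2 i hi),
        ET_injOn hw2 hv2, hw2.symm, Pt_ET hlt hw2 hv25, ?_⟩
      intro T' hT' x hx hnx hmax
      rcases Nat.lt_or_ge x (n + N) with c | c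
      · have h6 := hsub T' hT' x hx hmax c
        obtain ⟨h7, h8⟩ := h5 T' h6 x hx hnx hmax
        exact ⟨fun hc => Fol_congr (fun z hz => (hw1 z (Finset.mem_range.1 (h6 hz))).symm) (h7 hc),
          fun hc => Fol_congr (fun z hz => (hv1 z (Finset.mem_range.1 (h6 hz))).symm) (h8 hc)⟩
      · have h6 := Finset.mem_range.1 (hT' hx)
        have h7 : x = n + N := by omega
        subst h7
        exact ⟨fun hc => absurd hc hU, fun _ => hv3 T' hT' hx⟩

end EF39
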