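import Pool.Agent.EF40.Cnt

/-!
# EF40: the play Ramsey theorem with a second order
-/

set_option autoImplicit false

namespace EF39

theorem key_lt {K a b u v : ℕ} (hu : u < K) (hv : v < K) : a * K + u < b * K + v ↔ a < b ∨ (a = b ∧ u < v) := by
  rcases lt_trichotomy a b with h | h | h
  · have h1 : (a + 1) * K ≤ b * K := Nat.mul_le_mul_right K h
    have h2 : (a + 1) * K = a * K + K := by ring
    constructor
    · intro _
      exact Or.inl h
    · intro _
      omega
  · subst h
    constructor
    · intro h1
      exact Or.inr ⟨rfl, by omega⟩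
    · rintro (h1 | ⟨-, h1⟩)
      · omega
      · omega
  · have h1 : (b + 1) * K ≤ a * K := Nat.mul_le_mul_right K h
    have h2 : (b + 1) * K = b * K + K := by ring
    constructor
    · intro h3
      omega
    · rintro (h3 | ⟨h3, -⟩)
      · omega
      · omega

theorem key_eq {K a b u v : ℕ} (hu : u < K) (hv : v < K) (h : a * K + u = b * K + v) : a = b ∧ u = v := by
  have h1 := (key_lt (a := a) (b := b) hu hv).not.1 (by omega)
  have h2 := (key_lt (a := b) (b := a) hv hu).not.1 (by omega)
  have h3 : a = b := by
    by_contra hne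
    rcases lt_or_gt_of_ne hne with h4 | h4
    · exact h1 (Or.inl h4)
    · exact h2 (Or.inl h4)
  subst h3
  exact ⟨rfl, by omega⟩

theorem mul_add_div' {x y K : ℕ} (hy : y < K) : (x * K + y) / K = x := by
  have hK : 0 < K := by omega
  rw [add_comm, Nat.add_mul_div_right _ _ hK, Nat.div_eq_of_lt hy, zero_add]

theorem mul_add_mod' {x y K : ℕ} (hy : y < K) : (x * K + y) % K = y := by
  rw [add_comm, Nat.add_mul_mod_self_right, Nat.mod_eq_of_lt hy]

theorem play_ramsey_o (n r L A w : ℕ) (W : Atom → Prop) (oW : ℕ → ℕ)
    (hoW : Set.InjOn oW (Finset.range (n + w))) (κ : Type) [Finite κ] :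
    ∃ (N : ℕ) (U : Atom → Prop) (oU : ℕ → ℕ), Set.InjOn oU (Finset.range (n + N)) ∧
      (∀ x < n, ∀ y < n, (oU x < oU y ↔ oW x < oW y)) ∧
      ∀ c : List ℕ → κ, ∃ e : List ℕ, e.length = w ∧ e ∈ subs (List.range N) ∧
      (∀ a : Atom, a.1 < L → a.2.length ≤ A → (∀ x ∈ a.2, x < n + w) → (U (mapA (iot n e) a) ↔ W a)) ∧
      (∀ x < n + w, ∀ y < n + w, (oU (iot n e x) < oU (iot n e y) ↔ oW x < oW y)) ∧
      ∀ f ∈ subs (List.range w), ∀ f' ∈ subs (List.range w), f.length = r → f'.length = r →
        (∀ a : Atom, a.1 < L → a.2.length ≤ A → (∀ x ∈ a.2, x < n + r) →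
          (W (mapA (iot n f) a) ↔ W (mapA (iot n f') a))) →
        (∀ x < n + r, ∀ y < n + r, (oW (iot n f x) < oW (iot n f y) ↔ oW (iot n f' x) < oW (iot n f' y))) →
        c (f.map (fun y => e.getD y 0)) = c (f'.map (fun y => e.getD y 0)) := by
  classical
  let q : ℕ → ℕ := fun t => oW (n + t)
  have hq : Set.InjOn q (Finset.range w) := by
    intro i hi j hj hij
    have hi' : i < w := by simpa using hi
    have hj' : j < w := by simpa using hj
    have h1 : n + i ∈ (↑(Finset.range (n + w)) : Set ℕ) := by simpa using hi'
    have h2 : n + j ∈ (↑(Finset.range (n + w)) : Set ℕ) := by simpa using hj'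
    have h3 := hoW h1 h2 hij
    omega
  have hoWn : Set.InjOn oW (Finset.range n) := hoW.mono (by
    intro z hz
    simp only [Finset.coe_range, Set.mem_Iio] at hz ⊢
    omega)
  let τ : ℕ → ℕ := cnt q w
  have hτlt : ∀ t < w, τ t < w := fun t ht => cnt_lt ht
  have hτinj : Set.InjOn τ (Finset.range w) := cnt_inj hq
  have hτiff : ∀ t < w, ∀ t', (τ t < τ t' ↔ oW (n + t) < oW (n + t')) := fun t ht t' => cnt_lt_iff ht
  have hinv' : ∀ y, ∃ t, y < w → t < w ∧ τ t = y := by
    intro y
    by_cases hy : y < w
    · obtain ⟨i, hi, h⟩ := cnt_surj hq hy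
      exact ⟨i, fun _ => ⟨hi, h⟩⟩
    · exact ⟨0, fun h => absurd h hy⟩
  choose inv hinv using hinv'
  have hinvτ : ∀ t < w, inv (τ t) = t := by
    intro t ht
    have h1 := hinv (τ t) (hτlt t ht)
    exact hτinj (by simpa using h1.1) (by simpa using ht) h1.2
  let lab : ℕ → ℕ := fun t => cb oW n (n + t)
  let WY : Atom → Prop := fun a => ∃ y < w, a = (lab (inv y), [y])
  have hWY : ∀ i y, y < w → (WY (i, [y]) ↔ i = lab (inv y)) := by
    intro i y hy
    constructor
    · rintro ⟨y', _, h⟩
      have h1 : i = lab (inv y') := congrArg Prod.fst h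
      have h2 : y = y' := by
        have h2' : [y] = [y'] := congrArg Prod.snd h
        simpa using h2'
      rw [h1, h2]
    · intro h
      exact ⟨y, hy, by rw [h]⟩
  have : Finite {f // f ∈ subs (List.range w)} := (List.finite_toSet _).to_subtype
  have : Finite {σ // σ ∈ listsOf r r} := (List.finite_toSet _).to_subtype
  obtain ⟨NY, UY, hY⟩ := play_ramsey 0 r (n + 1) 1 w WY
    (({f // f ∈ subs (List.range w)} × {σ // σ ∈ listsOf r r}) → κ)
  have : Finite {f // f ∈ subs (List.range NY)} := (List.finite_toSet _).to_subtype
  obtain ⟨NX, UX, hX⟩ := play_ramsey n r L A w W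
    (({f // f ∈ subs (List.range NY)} × {σ // σ ∈ listsOf r r}) → κ)
  let pr : ℕ → ℕ := fun z => if z < n then z else n + (z - n) / NY
  let lb : ℕ → ℕ := fun y => if h : ∃ i, i < n + 1 ∧ UY (i, [y]) then h.choose else 0
  let B := NX * NY + 1
  let oU : ℕ → ℕ := fun z => if z < n then cnt oW n z * (2 * B) + B else
    lb ((z - n) % NY) * (2 * B) + (((z - n) % NY) * NX + (z - n) / NY)
  have hoU1 : ∀ z < n, oU z = cnt oW n z * (2 * B) + B := fun z hz => by simp [oU, hz]
  have hoU2 : ∀ x < NX, ∀ y < NY, oU (n + (x * NY + y)) = lb y * (2 * B) + (y * NX + x) := by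
    intro x hx y hy
    have h1 : ¬ n + (x * NY + y) < n := by omega
    have h2 : n + (x * NY + y) - n = x * NY + y := by omega
    simp only [oU, h1, if_false, h2, mul_add_div' hy, mul_add_mod' hy]
  have hu : ∀ x < NX, ∀ y < NY, y * NX + x < B := by
    intro x hx y hy
    have h1 : (y + 1) * NX ≤ NY * NX := Nat.mul_le_mul_right NX hy
    have h2 : (y + 1) * NX = y * NX + NX := by ring
    have h3 : NY * NX = NX * NY := by ring
    show y * NX + x < NX * NY + 1
    omega
  have hB : 0 < B := Nat.succ_pos _
  have hBB : B < 2 * B := by omega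
  -- coordinates of a move
  have hcoord : ∀ z, n ≤ z → z < n + NX * NY → ∃ x < NX, ∃ y < NY, z = n + (x * NY + y) := by
    intro z h1 h2
    have hNY : 0 < NY := by
      rcases Nat.eq_zero_or_pos NY with h | h
      · subst h
        simp at h2
        omega
      · exact h
    refine ⟨(z - n) / NY, ?_, (z - n) % NY, Nat.mod_lt _ hNY, ?_⟩
    · rw [Nat.div_lt_iff_lt_mul hNY]
      omega
    · have := Nat.div_add_mod (z - n) NY
      rw [mul_comm] at this
      omega
  refine ⟨NX * NY, fun a => UX (mapA pr a), oU, ?_, ?_, ?_⟩
  · intro z hz z' hz' hzz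
    have hz1 : z < n + NX * NY := by simpa using hz
    have hz1' : z' < n + NX * NY := by simpa using hz'
    rcases Nat.lt_or_ge z n with c | c
    · rcases Nat.lt_or_ge z' n with c' | c'
      · rw [hoU1 z c, hoU1 z' c'] at hzz
        exact cnt_inj hoWn (by simpa using c) (by simpa using c') (key_eq hBB hBB hzz).1
      · obtain ⟨x, hx, y, hy, rfl⟩ := hcoord z' c' hz1'
        rw [hoU1 z c, hoU2 x hx y hy] at hzz
        have h1 := hu x hx y hy
        have h2 := (key_eq hBB (by omega) hzz).2
        omega
    · obtain ⟨x, hx, y, hy, rfl⟩ := hcoord z c hz1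
      rcases Nat.lt_or_ge z' n with c' | c'
      · rw [hoU1 z' c', hoU2 x hx y hy] at hzz
        have h1 := hu x hx y hy
        have h2 := (key_eq (by omega) hBB hzz).2
        omega
      · obtain ⟨x', hx', y', hy', rfl⟩ := hcoord z' c' hz1'
        rw [hoU2 x hx y hy, hoU2 x' hx' y' hy'] at hzz
        have h1 := hu x hx y hy
        have h1' := hu x' hx' y' hy'
        have h2 := (key_eq (by omega) (by omega) hzz).2
        obtain ⟨h3, h4⟩ := key_eq hx hx' h2
        rw [h3, h4]
  · intro x hx y hy
    rw [hoU1 x hx, hoU1 y hy, key_lt hBB hBB]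
    constructor
    · rintro (h | ⟨_, h⟩)
      · exact (cnt_lt_iff hx).1 h
      · exact absurd h (lt_irrefl _)
    · intro h
      exact Or.inl ((cnt_lt_iff hx).2 h)
  · intro c
    let C : List ℕ → List ℕ → List ℕ → κ := fun g1 g2 σ =>
      c ((List.range r).map (fun i => g1.getD i 0 * NY + g2.getD (σ.getD i 0) 0))
    obtain ⟨e1, he1l, he1, he1W, he1c⟩ := hX (fun g1 => fun p => C g1 p.1.1 p.2.1)
    obtain ⟨e2, he2l, he2, he2W, he2c⟩ := hY (fun g2 => fun p => C (p.1.1.map (fun y => e1.getD y 0)) g2 p.2.1)
    have he1' := mem_subs_range.1 he1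
    have he2' := mem_subs_range.1 he2
    have he1lt : ∀ t < w, e1.getD t 0 < NX := fun t ht => he1'.2 _ (getD_mem (by omega))
    have he2lt : ∀ t < w, e2.getD t 0 < NY := fun t ht => he2'.2 _ (getD_mem (by omega))
    let e : List ℕ := (List.range w).map (fun t => e1.getD t 0 * NY + e2.getD (τ t) 0)
    have hel : e.length = w := by simp [e]
    have heget : ∀ t < w, e.getD t 0 = e1.getD t 0 * NY + e2.getD (τ t) 0 := by
      intro t ht
      rw [List.getD_eq_getElem _ _ (by rw [hel]; exact ht)]
      simp [e]
    have hemem : e ∈ subs (List.range (NX * NY)) := by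
      rw [mem_subs_range]
      constructor
      · rw [List.pairwise_map]
        apply List.Pairwise.imp_of_mem _ List.pairwise_lt_range
        intro a b ha hb hab
        rw [List.mem_range] at ha hb
        rw [key_lt (he2lt _ (hτlt a ha)) (he2lt _ (hτlt b hb))]
        exact Or.inl (getD_lt_getD he1'.1 hab (by omega))
      · intro z hz
        simp only [e, List.mem_map, List.mem_range] at hz
        obtain ⟨t, ht, rfl⟩ := hz
        have h1 := he1lt t ht
        have h2 := he2lt _ (hτlt t ht)
        have h3 : (e1.getD t 0 + 1) * NY ≤ NX * NY := Nat.mul_le_mul_right NY h1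
        have h4 : (e1.getD t 0 + 1) * NY = e1.getD t 0 * NY + NY := by ring
        omega
    -- positions
    have hiote : ∀ t < w, iot n e (n + t) = n + (e1.getD t 0 * NY + e2.getD (τ t) 0) := by
      intro t ht
      rw [iot_ge (by omega), show n + t - n = t by omega, heget t ht]
    have hlb : ∀ t < w, lb (e2.getD (τ t) 0) = lab t := by
      intro t ht
      have h1 : ∀ i, i < n + 1 → (UY (i, [e2.getD (τ t) 0]) ↔ i = lab t) := by
        intro i hi
        have h2 := he2W (i, [τ t]) hi (by simp) (by
          intro x hx
          simp only [List.mem_singleton] at hx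
          subst hx
          have := hτlt t ht
          omega)
        rw [hWY i (τ t) (hτlt t ht), hinvτ t ht] at h2
        have h3 : mapA (iot 0 e2) (i, [τ t]) = (i, [e2.getD (τ t) 0]) := by
          simp only [mapA, List.map_cons, List.map_nil]
          rw [iot_ge (Nat.zero_le _), Nat.zero_add, Nat.sub_zero]
        rw [h3] at h2
        exact h2
      have hlabn : lab t < n + 1 := Nat.lt_succ_of_le cb_le
      have hex : ∃ i, i < n + 1 ∧ UY (i, [e2.getD (τ t) 0]) := ⟨lab t, hlabn, (h1 _ hlabn).2 rfl⟩
      simp only [lb, dif_pos hex]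
      exact (h1 _ hex.choose_spec.1).1 hex.choose_spec.2
    have hoUe : ∀ t < w, oU (iot n e (n + t)) = lab t * (2 * B) + (e2.getD (τ t) 0 * NX + e1.getD t 0) := by
      intro t ht
      rw [hiote t ht, hoU2 _ (he1lt t ht) _ (he2lt _ (hτlt t ht)), hlb t ht]
    have hmono : ∀ x < n + w, ∀ y < n + w, oW x < oW y → oU (iot n e x) < oU (iot n e y) := by
      intro x hx y hy hxy
      rcases Nat.lt_or_ge x n with c1 | c1
      · rcases Nat.lt_or_ge y n with c2 | c2
        · rw [iot_lt c1, iot_lt c2, hoU1 x c1, hoU1 y c2, key_lt hBB hBB]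
          exact Or.inl ((cnt_lt_iff c1).2 hxy)
        · obtain ⟨t, rfl⟩ := Nat.exists_eq_add_of_le c2
          have ht : t < w := by omega
          have h1 := hu _ (he1lt t ht) _ (he2lt _ (hτlt t ht))
          rw [iot_lt c1, hoU1 x c1, hoUe t ht, key_lt hBB (by omega)]
          exact Or.inl ((cnt_lt_cb c1).2 hxy)
      · obtain ⟨s, rfl⟩ := Nat.exists_eq_add_of_le c1
        have hs : s < w := by omega
        have h0 := hu _ (he1lt s hs) _ (he2lt _ (hτlt s hs))
        rcases Nat.lt_or_ge y n with c2 | c2
        · rw [iot_lt c2, hoU1 y c2, hoUe s hs, key_lt (by omega) hBB]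
          have h1 : ¬ cnt oW n y < cb oW n (n + s) := fun h => by
            have := (cnt_lt_cb c2).1 h
            omega
          rcases lt_or_eq_of_le (not_lt.1 h1) with h2 | h2
          · exact Or.inl h2
          · exact Or.inr ⟨h2, h0⟩
        · obtain ⟨t, rfl⟩ := Nat.exists_eq_add_of_le c2
          have ht : t < w := by omega
          have h1 := hu _ (he1lt t ht) _ (he2lt _ (hτlt t ht))
          rw [hoUe s hs, hoUe t ht, key_lt (by omega) (by omega)]
          have h2 : lab s ≤ lab t := cb_mono hxy.le
          have h3 : τ s < τ t := (hτiff s hs t).2 hxy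
          have h4 : e2.getD (τ s) 0 < e2.getD (τ t) 0 := getD_lt_getD he2'.1 h3 (by
            have := hτlt t ht
            omega)
          rcases lt_or_eq_of_le h2 with h5 | h5
          · exact Or.inl h5
          · right
            refine ⟨h5, ?_⟩
            rw [key_lt (he1lt s hs) (he1lt t ht)]
            exact Or.inl h4
    refine ⟨e, hel, hemem, ?_, ?_, ?_⟩
    · intro a ha1 ha2 ha3
      rw [← he1W a ha1 ha2 ha3]
      show UX (mapA pr (mapA (iot n e) a)) ↔ _
      rw [mapA_mapA]
      have h1 : mapA (pr ∘ iot n e) a = mapA (iot n e1) a := by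
        apply mapA_congr
        intro x hx
        have hx' := ha3 x hx
        rcases Nat.lt_or_ge x n with c1 | c1
        · simp only [Function.comp_apply]
          rw [iot_lt c1, iot_lt c1]
          simp [pr, c1]
        · obtain ⟨t, rfl⟩ := Nat.exists_eq_add_of_le c1
          have ht : t < w := by omega
          simp only [Function.comp_apply]
          rw [hiote t ht, iot_ge (by omega), show n + t - n = t by omega]
          have h2 : ¬ n + (e1.getD t 0 * NY + e2.getD (τ t) 0) < n := by omega
          have h3 : n + (e1.getD t 0 * NY + e2.getD (τ t) 0) - n = e1.getD t 0 * NY + e2.getD (τ t) 0 := by omega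
          simp only [pr, h2, if_false, h3, mul_add_div' (he2lt _ (hτlt t ht))]
      rw [h1]
    · intro x hx y hy
      refine ⟨fun h => ?_, hmono x hx y hy⟩
      rcases lt_trichotomy (oW x) (oW y) with h1 | h1 | h1
      · exact h1
      · have := hoW (by simpa using hx) (by simpa using hy) h1
        subst this
        exact absurd h (lt_irrefl _)
      · have := hmono y hy x hx h1
        omega
    · intro f hf f' hf' hfr hfr' hW ho
      -- the decomposition of a sub-play
      have hdec : ∀ f ∈ subs (List.range w), f.length = r → ∃ g ∈ subs (List.range w), g.length = r ∧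
          (∀ i < r, g.getD (cnt (fun i => τ (f.getD i 0)) r i) 0 = τ (f.getD i 0)) ∧
          c (f.map (fun y => e.getD y 0)) = C (f.map (fun y => e1.getD y 0)) (g.map (fun y => e2.getD y 0))
            ((List.range r).map (cnt (fun i => τ (f.getD i 0)) r)) := by
        intro f hf hfr
        have hf1 := mem_subs_range.1 hf
        have hflt : ∀ i < r, f.getD i 0 < w := fun i hi => hf1.2 _ (getD_mem (by omega))
        have hqf : Set.InjOn (fun i => τ (f.getD i 0)) (Finset.range r) := by
          intro i hi j hj hij
          have hi' : i < r := by simpa using hi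
          have hj' : j < r := by simpa using hj
          have h1 := hτinj (by simpa using hflt i hi') (by simpa using hflt j hj') hij
          rcases lt_trichotomy i j with h2 | h2 | h2
          · exact absurd h1 (getD_lt_getD hf1.1 h2 (by omega)).ne
          · exact h2
          · exact absurd h1 (getD_lt_getD hf1.1 h2 (by omega)).ne'
        obtain ⟨g, hg1, hg2, hg3⟩ := exists_sorted hqf (N := w) (fun i hi => hτlt _ (hflt i hi))
        refine ⟨g, hg1, hg2, hg3, ?_⟩
        show c _ = c _
        congr 1
        apply List.ext_getElem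
        · simp [hfr]
        · intro i h1 h2
          have hi : i < r := by simpa [hfr] using h1
          have hif : i < f.length := by omega
          have hci := cnt_lt (q := fun i => τ (f.getD i 0)) hi
          simp only [List.getElem_map, List.getElem_range]
          have h3 : f[i] = f.getD i 0 := by rw [List.getD_eq_getElem _ _ hif]
          rw [h3, heget _ (hflt i hi)]
          congr 1
          · congr 1
            rw [List.getD_eq_getElem (f.map (fun y => e1.getD y 0)) 0 (by simpa using hif), List.getElem_map, h3]
          · have h4 : ((List.range r).map (cnt (fun i => τ (f.getD i 0)) r)).getD i 0 =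
                cnt (fun i => τ (f.getD i 0)) r i := by
              rw [List.getD_eq_getElem _ _ (by simpa using hi)]
              simp
            have h5 : cnt (fun i => τ (f.getD i 0)) r i < g.length := by omega
            rw [h4, List.getD_eq_getElem (g.map (fun y => e2.getD y 0)) 0 (by simpa using h5), List.getElem_map,
              ← List.getD_eq_getElem g 0 h5, hg3 i hi]
      obtain ⟨g, hg1, hg2, hg3, hg4⟩ := hdec f hf hfr
      obtain ⟨g', hg1', hg2', hg3', hg4'⟩ := hdec f' hf' hfr'
      have hf1 := mem_subs_range.1 hf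
      have hf1' := mem_subs_range.1 hf'
      have hflt : ∀ i < r, f.getD i 0 < w := fun i hi => hf1.2 _ (getD_mem (by omega))
      have hflt' : ∀ i < r, f'.getD i 0 < w := fun i hi => hf1'.2 _ (getD_mem (by omega))
      have hiotf : ∀ (f : List ℕ) (i : ℕ), iot n f (n + i) = n + f.getD i 0 := by
        intro f i
        rw [iot_ge (by omega), show n + i - n = i by omega]
      have hcnt : ∀ i < r, cnt (fun i => τ (f.getD i 0)) r i = cnt (fun i => τ (f'.getD i 0)) r i := by
        intro i hi
        apply cnt_congr _ hi
        intro i hi j hj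
        rw [hτiff _ (hflt i hi), hτiff _ (hflt' i hi)]
        have := ho (n + i) (by omega) (n + j) (by omega)
        rw [hiotf, hiotf, hiotf, hiotf] at this
        exact this
      have hσ : (List.range r).map (cnt (fun i => τ (f.getD i 0)) r) =
          (List.range r).map (cnt (fun i => τ (f'.getD i 0)) r) := by
        apply List.map_congr_left
        intro i hi
        exact hcnt i (List.mem_range.1 hi)
      have hσmem : (List.range r).map (cnt (fun i => τ (f.getD i 0)) r) ∈ listsOf r r := by
        rw [mem_listsOf]
        refine ⟨by simp, ?_⟩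
        intro x hx
        rw [List.mem_map] at hx
        obtain ⟨i, hi, rfl⟩ := hx
        exact cnt_lt (List.mem_range.1 hi)
      have hgmem : g.map (fun y => e2.getD y 0) ∈ subs (List.range NY) := by
        have hgr := mem_subs_range.1 hg1
        rw [mem_subs_range]
        constructor
        · exact map_getD_pairwise he2'.1 hgr.1 (by rw [he2l]; exact hgr.2)
        · intro x hx
          rw [List.mem_map] at hx
          obtain ⟨y, hy, rfl⟩ := hx
          exact he2lt y (hgr.2 y hy)
      have hX1 := congrFun (he1c f hf f' hf' hfr hfr' hW)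
        (⟨g.map (fun y => e2.getD y 0), hgmem⟩, ⟨(List.range r).map (cnt (fun i => τ (f.getD i 0)) r), hσmem⟩)
      have hY1 := congrFun (he2c g hg1 g' hg1' hg2 hg2' (by
        rintro ⟨i, s⟩ ha1 ha2 ha3
        match s, ha2 with
        | [], _ =>
          constructor
          · rintro ⟨y, _, h⟩
            have h1 : ([] : List ℕ) = [y] := congrArg Prod.snd h
            simp at h1
          · rintro ⟨y, _, h⟩
            have h1 : ([] : List ℕ) = [y] := congrArg Prod.snd h
            simp at h1
        | [y], _ =>
          have hy : y < r := by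
            have := ha3 y (by simp)
            omega
          have hgy := mem_subs_range.1 hg1
          have hgy' := mem_subs_range.1 hg1'
          have e1' : mapA (iot 0 g) (i, [y]) = (i, [g.getD y 0]) := by
            simp only [mapA, List.map_cons, List.map_nil]
            rw [iot_ge (Nat.zero_le _), Nat.zero_add, Nat.sub_zero]
          have e2' : mapA (iot 0 g') (i, [y]) = (i, [g'.getD y 0]) := by
            simp only [mapA, List.map_cons, List.map_nil]
            rw [iot_ge (Nat.zero_le _), Nat.zero_add, Nat.sub_zero]
          rw [e1', e2', hWY _ _ (hgy.2 _ (getD_mem (by omega))), hWY _ _ (hgy'.2 _ (getD_mem (by omega)))]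
          have hqf : Set.InjOn (fun i => τ (f.getD i 0)) (Finset.range r) := by
            intro i hi j hj hij
            have hi' : i < r := by simpa using hi
            have hj' : j < r := by simpa using hj
            have h1 := hτinj (by simpa using hflt i hi') (by simpa using hflt j hj') hij
            rcases lt_trichotomy i j with h2 | h2 | h2
            · exact absurd h1 (getD_lt_getD hf1.1 h2 (by omega)).ne
            · exact h2
            · exact absurd h1 (getD_lt_getD hf1.1 h2 (by omega)).ne'
          obtain ⟨j, hj, hjy⟩ := cnt_surj hqf hy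
          have h6 : g.getD y 0 = τ (f.getD j 0) := by
            rw [← hjy]
            exact hg3 j hj
          have h7 : g'.getD y 0 = τ (f'.getD j 0) := by
            rw [← hjy, hcnt j hj]
            exact hg3' j hj
          rw [h6, h7, hinvτ _ (hflt j hj), hinvτ _ (hflt' j hj)]
          have h8 : lab (f.getD j 0) = lab (f'.getD j 0) := by
            show cb oW n (n + f.getD j 0) = cb oW n (n + f'.getD j 0)
            unfold cb
            congr 1
            apply Finset.filter_congr
            intro i hi
            have hi' := Finset.mem_range.1 hi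
            have := ho i (by omega) (n + j) (by omega)
            rw [hiotf, hiotf, iot_lt hi', iot_lt hi'] at this
            exact this
          rw [h8]
        | _ :: _ :: _, ha2 => simp at ha2)) (⟨f', hf'⟩, ⟨(List.range r).map (cnt (fun i => τ (f.getD i 0)) r), hσmem⟩)
      rw [hg4, hg4', ← hσ]
      exact hX1.trans hY1

end EF39
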