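import Pool.Agent.EF39.CertOf
import Pool.Agent.EF40.PlayO

/-!
# EF40: the order of the concatenation of plays
-/

set_option autoImplicit false

namespace EF39

/-- the order of the concatenation: `K` blocks of `r` moves, the block `i` being ordered (over the `n` constants) by
`o i`, and then `r` moves above everything -/
def oWall (n r K : ℕ) (qc : ℕ → ℕ) (o : ℕ → ℕ → ℕ) (z : ℕ) : ℕ :=
  if z < n then cnt qc n z * (2 * (K * r + r + 1)) + (K * r + r + 1) else
    if z - n < K * r then cb (o ((z - n) / r)) n (n + (z - n) % r) * (2 * (K * r + r + 1)) +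
      ((z - n) / r * r + cnt (fun y => o ((z - n) / r) (n + y)) r ((z - n) % r))
    else n * (2 * (K * r + r + 1)) + (z - n)

theorem oWall_const {n r K : ℕ} {qc : ℕ → ℕ} {o : ℕ → ℕ → ℕ} {z : ℕ} (hz : z < n) :
    oWall n r K qc o z = cnt qc n z * (2 * (K * r + r + 1)) + (K * r + r + 1) := by
  simp [oWall, hz]

theorem blk_bound {r K i y : ℕ} (hi : i < K) (hy : y < r) : i * r + y < K * r := by
  have h1 : (i + 1) * r ≤ K * r := Nat.mul_le_mul_right r hi
  have h2 : (i + 1) * r = i * r + r := by ring
  omega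

theorem oWall_blk {n r K : ℕ} {qc : ℕ → ℕ} {o : ℕ → ℕ → ℕ} {i y : ℕ} (hi : i < K) (hy : y < r) :
    oWall n r K qc o (n + (i * r + y)) = cb (o i) n (n + y) * (2 * (K * r + r + 1)) +
      (i * r + cnt (fun y => o i (n + y)) r y) := by
  have h1 : ¬ n + (i * r + y) < n := by omega
  have h2 : n + (i * r + y) - n = i * r + y := by omega
  have h3 := blk_bound hi hy
  simp only [oWall, h1, if_false, h2, h3, if_true, mul_add_div' hy, mul_add_mod' hy]

theorem oWall_dum {n r K : ℕ} {qc : ℕ → ℕ} {o : ℕ → ℕ → ℕ} {t : ℕ} (ht : K * r ≤ t) :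
    oWall n r K qc o (n + t) = n * (2 * (K * r + r + 1)) + t := by
  have h1 : ¬ n + t < n := by omega
  have h2 : n + t - n = t := by omega
  have h3 : ¬ t < K * r := by omega
  simp only [oWall, h1, if_false, h2, h3]

/-- block coordinates -/
theorem blk_coord {r K t : ℕ} (ht : t < K * r) : ∃ i < K, ∃ y < r, t = i * r + y := by
  have hr : 0 < r := by
    rcases Nat.eq_zero_or_pos r with h | h
    · subst h
      simp at ht
    · exact h
  refine ⟨t / r, ?_, t % r, Nat.mod_lt _ hr, ?_⟩
  · rw [Nat.div_lt_iff_lt_mul hr]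
    exact ht
  · have := Nat.div_add_mod t r
    rw [mul_comm] at this
    omega

theorem oWall_inj {n r K : ℕ} {qc : ℕ → ℕ} {o : ℕ → ℕ → ℕ} (hqc : Set.InjOn qc (Finset.range n))
    (ho : ∀ i < K, Set.InjOn (o i) (Finset.range (n + r))) :
    Set.InjOn (oWall n r K qc o) (Finset.range (n + (K * r + r))) := by
  have hoi : ∀ i < K, Set.InjOn (fun y => o i (n + y)) (Finset.range r) := by
    intro i hi y hy y' hy' hyy
    have h1 : n + y ∈ (↑(Finset.range (n + r)) : Set ℕ) := by simpa using hy
    have h2 : n + y' ∈ (↑(Finset.range (n + r)) : Set ℕ) := by simpa using hy'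
    have h3 := ho i hi h1 h2 hyy
    omega
  -- every point has a key
  have hkey : ∀ z < n + (K * r + r), ∃ a u, oWall n r K qc o z = a * (2 * (K * r + r + 1)) + u ∧
      ((z < n ∧ a = cnt qc n z ∧ u = K * r + r + 1) ∨
      (∃ i < K, ∃ y < r, z = n + (i * r + y) ∧ u = i * r + cnt (fun y => o i (n + y)) r y) ∨
      (n + K * r ≤ z ∧ u = z - n ∧ u < K * r + r + 1)) := by
    intro z hz
    rcases Nat.lt_or_ge z n with c | c
    · exact ⟨_, _, oWall_const c, Or.inl ⟨c, rfl, rfl⟩⟩
    · obtain ⟨t, rfl⟩ := Nat.exists_eq_add_of_le c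
      rcases Nat.lt_or_ge t (K * r) with c2 | c2
      · obtain ⟨i, hi, y, hy, rfl⟩ := blk_coord c2
        exact ⟨_, _, oWall_blk hi hy, Or.inr (Or.inl ⟨i, hi, y, hy, rfl, rfl⟩)⟩
      · exact ⟨_, _, oWall_dum c2, Or.inr (Or.inr ⟨by omega, by omega, by omega⟩)⟩
  intro z hz z' hz' hzz
  obtain ⟨a, u, h1, h2⟩ := hkey z (by simpa using hz)
  obtain ⟨a', u', h1', h2'⟩ := hkey z' (by simpa using hz')
  rw [h1, h1'] at hzz
  have hub : u < 2 * (K * r + r + 1) := by
    rcases h2 with ⟨-, -, h⟩ | ⟨i, hi, y, hy, -, h⟩ | ⟨-, -, h⟩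
    · omega
    · have := blk_bound hi (cnt_lt (q := fun y => o i (n + y)) hy)
      omega
    · omega
  have hub' : u' < 2 * (K * r + r + 1) := by
    rcases h2' with ⟨-, -, h⟩ | ⟨i, hi, y, hy, -, h⟩ | ⟨-, -, h⟩
    · omega
    · have := blk_bound hi (cnt_lt (q := fun y => o i (n + y)) hy)
      omega
    · omega
  obtain ⟨haa, huu⟩ := key_eq hub hub' hzz
  rcases h2 with ⟨c, ha, hu⟩ | ⟨i, hi, y, hy, rfl, hu⟩ | ⟨c, hu, hu3⟩
  · rcases h2' with ⟨c', ha', hu'⟩ | ⟨i', hi', y', hy', rfl, hu'⟩ | ⟨c', hu', hu3'⟩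
    · exact cnt_inj hqc (by simpa using c) (by simpa using c') (by rw [← ha, ← ha']; exact haa)
    · have := blk_bound hi' (cnt_lt (q := fun y => o i' (n + y)) hy')
      omega
    · omega
  · have hb := blk_bound hi (cnt_lt (q := fun y => o i (n + y)) hy)
    rcases h2' with ⟨c', ha', hu'⟩ | ⟨i', hi', y', hy', rfl, hu'⟩ | ⟨c', hu', hu3'⟩
    · omega
    · have h3 := bk_disj (cnt_lt (q := fun y => o i (n + y)) hy) (cnt_lt (q := fun y => o i' (n + y)) hy')
        (by rw [← hu, ← hu']; exact huu)
      subst h3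
      have h4 : cnt (fun y => o i (n + y)) r y = cnt (fun y => o i (n + y)) r y' := by omega
      rw [cnt_inj (hoi i hi) (by simpa using hy) (by simpa using hy') h4]
    · omega
  · rcases h2' with ⟨c', ha', hu'⟩ | ⟨i', hi', y', hy', rfl, hu'⟩ | ⟨c', hu', hu3'⟩
    · omega
    · have hb := blk_bound hi' (cnt_lt (q := fun y => o i' (n + y)) hy')
      omega
    · omega

/-- the order of a block -/
theorem oWall_iff {n r K : ℕ} {qc : ℕ → ℕ} {o : ℕ → ℕ → ℕ} {i : ℕ} (hi : i < K)
    (ho : Set.InjOn (o i) (Finset.range (n + r))) (hoc : ∀ x < n, ∀ y < n, (qc x < qc y ↔ o i x < o i y)) {x y : ℕ}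
    (hx : x < n + r) (hy : y < n + r) :
    oWall n r K qc o (iot n (bk r i) x) < oWall n r K qc o (iot n (bk r i) y) ↔ o i x < o i y := by
  have hBB : K * r + r + 1 < 2 * (K * r + r + 1) := by omega
  have mono : ∀ x < n + r, ∀ y < n + r, o i x < o i y →
      oWall n r K qc o (iot n (bk r i) x) < oWall n r K qc o (iot n (bk r i) y) := by
    intro x hx y hy hxy
    rcases Nat.lt_or_ge x n with c1 | c1
    · rcases Nat.lt_or_ge y n with c2 | c2
      · rw [iot_lt c1, iot_lt c2, oWall_const c1, oWall_const c2, key_lt hBB hBB]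
        exact Or.inl ((cnt_lt_iff c1).2 ((hoc x c1 y c2).2 hxy))
      · obtain ⟨t, rfl⟩ := Nat.exists_eq_add_of_le c2
        have ht : t < r := by omega
        have hb := blk_bound hi (cnt_lt (q := fun y => o i (n + y)) ht)
        rw [iot_lt c1, iot_bk (by omega) hy, show n + t - n = t by omega, oWall_const c1, oWall_blk hi ht,
          key_lt hBB (by omega)]
        left
        rw [cnt_congr (q := qc) (q' := o i) hoc c1]
        exact (cnt_lt_cb c1).2 hxy
    · obtain ⟨s, rfl⟩ := Nat.exists_eq_add_of_le c1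
      have hs : s < r := by omega
      have hbs := blk_bound hi (cnt_lt (q := fun y => o i (n + y)) hs)
      rcases Nat.lt_or_ge y n with c2 | c2
      · rw [iot_lt c2, iot_bk (by omega) hx, show n + s - n = s by omega, oWall_const c2, oWall_blk hi hs,
          key_lt (by omega) hBB, cnt_congr (q := qc) (q' := o i) hoc c2]
        have h1 : ¬ cnt (o i) n y < cb (o i) n (n + s) := fun h => by
          have := (cnt_lt_cb c2).1 h
          omega
        rcases lt_or_eq_of_le (not_lt.1 h1) with h2 | h2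
        · exact Or.inl h2
        · exact Or.inr ⟨h2, by omega⟩
      · obtain ⟨t, rfl⟩ := Nat.exists_eq_add_of_le c2
        have ht : t < r := by omega
        have hbt := blk_bound hi (cnt_lt (q := fun y => o i (n + y)) ht)
        rw [iot_bk (by omega) hx, iot_bk (by omega) hy, show n + s - n = s by omega, show n + t - n = t by omega,
          oWall_blk hi hs, oWall_blk hi ht, key_lt (by omega) (by omega)]
        have h2 : cb (o i) n (n + s) ≤ cb (o i) n (n + t) := cb_mono hxy.le
        have h3 : cnt (fun y => o i (n + y)) r s < cnt (fun y => o i (n + y)) r t := cnt_mono hs hxy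
        rcases lt_or_eq_of_le h2 with h5 | h5
        · exact Or.inl h5
        · exact Or.inr ⟨h5, by omega⟩
  refine ⟨fun h => ?_, mono x hx y hy⟩
  rcases lt_trichotomy (o i x) (o i y) with h1 | h1 | h1
  · exact h1
  · have := ho (by simpa using hx) (by simpa using hy) h1
    subst this
    exact absurd h (lt_irrefl _)
  · have := mono y hy x hx h1
    omega

/-- the last moves are above everything -/
theorem oWall_top {n r K : ℕ} {qc : ℕ → ℕ} {o : ℕ → ℕ → ℕ} {z t : ℕ} (hz : z < n + t) (ht : K * r ≤ t)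
    (ht' : t < K * r + r) : oWall n r K qc o z < oWall n r K qc o (n + t) := by
  have hBB : K * r + r + 1 < 2 * (K * r + r + 1) := by omega
  rw [oWall_dum ht]
  rcases Nat.lt_or_ge z n with c | c
  · rw [oWall_const c, key_lt hBB (by omega)]
    exact Or.inl (cnt_lt c)
  · obtain ⟨s, rfl⟩ := Nat.exists_eq_add_of_le c
    rcases Nat.lt_or_ge s (K * r) with c2 | c2
    · obtain ⟨i, hi, y, hy, rfl⟩ := blk_coord c2
      have hb := blk_bound hi (cnt_lt (q := fun y => o i (n + y)) hy)
      rw [oWall_blk hi hy, key_lt (by omega) (by omega)]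
      rcases lt_or_eq_of_le (cb_le (q := o i) (n := n) (x := n + y)) with h5 | h5
      · exact Or.inl h5
      · exact Or.inr ⟨h5, by omega⟩
    · rw [oWall_dum c2]
      omega

theorem pad_getD_eq {r K : ℕ} {f : List ℕ} {y : ℕ} (hf : f.length ≤ r) (hy : f.length ≤ y) (hy' : y < r) :
    (pad r K f).getD y 0 = K * r + (y - f.length) := by
  have h1 : y < (pad r K f).length := by
    rw [pad_length hf]
    exact hy'
  rw [List.getD_eq_getElem _ _ h1]
  simp only [pad]
  rw [List.getElem_append_right hy]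
  simp

/-- the order of a padded sub-play -/
theorem oWall_pad {n r K : ℕ} {qc : ℕ → ℕ} {o : ℕ → ℕ → ℕ} {i : ℕ} (hi : i < K)
    (ho : Set.InjOn (o i) (Finset.range (n + r))) (hoc : ∀ x < n, ∀ y < n, (qc x < qc y ↔ o i x < o i y))
    {g : List ℕ} (hg : g ∈ subs (List.range r)) {x y : ℕ} (hx : x < n + r) (hy : y < n + r) :
    oWall n r K qc o (iot n (pad r K (g.map (fun y => (bk r i).getD y 0))) x) <
      oWall n r K qc o (iot n (pad r K (g.map (fun y => (bk r i).getD y 0))) y) ↔
      (x < n + g.length ∧ y < n + g.length ∧ o i (iot n g x) < o i (iot n g y)) ∨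
      (n + g.length ≤ y ∧ x < y) := by
  have hg' := mem_subs_range.1 hg
  have hglen : g.length ≤ r := by
    have := (mem_subs.1 hg).length_le
    simpa using this
  have hsmall : ∀ x < n + g.length, iot n (pad r K (g.map (fun y => (bk r i).getD y 0))) x =
      iot n (bk r i) (iot n g x) := by
    intro x hx
    rw [iot_pad (by simpa using hx), iot_comp hx]
  have hbig : ∀ x, n + g.length ≤ x → x < n + r →
      iot n (pad r K (g.map (fun y => (bk r i).getD y 0))) x = n + (K * r + (x - n - g.length)) := by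
    intro x h1 h2
    rw [iot_ge (by omega), pad_getD_eq (by simpa using hglen) (by simp; omega) (by omega)]
    simp
  have hbnd : ∀ x < n + g.length, iot n g x < n + r := fun x hx => iot_bound hg'.2 hx
  have hbnd2 : ∀ x < n + g.length, iot n (bk r i) (iot n g x) < n + K * r := by
    intro x hx
    exact iot_bound (bk_lt hi) (by rw [bk_length]; exact hbnd x hx)
  rcases Nat.lt_or_ge x (n + g.length) with c1 | c1
  · rcases Nat.lt_or_ge y (n + g.length) with c2 | c2
    · rw [hsmall x c1, hsmall y c2, oWall_iff hi ho hoc (hbnd x c1) (hbnd y c2)]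
      constructor
      · intro h
        exact Or.inl ⟨c1, c2, h⟩
      · rintro (⟨_, _, h⟩ | ⟨h, _⟩)
        · exact h
        · omega
    · rw [hsmall x c1, hbig y c2 hy]
      have h1 := hbnd2 x c1
      constructor
      · intro _
        exact Or.inr ⟨c2, by omega⟩
      · intro _
        exact oWall_top (by omega) (by omega) (by omega)
  · rcases Nat.lt_or_ge y (n + g.length) with c2 | c2
    · rw [hsmall y c2, hbig x c1 hx]
      have h1 := hbnd2 y c2
      have h2 := oWall_top (n := n) (r := r) (K := K) (qc := qc) (o := o) (z := iot n (bk r i) (iot n g y))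
        (t := K * r + (x - n - g.length)) (by omega) (by omega) (by omega)
      constructor
      · intro h
        omega
      · rintro (⟨h, _⟩ | ⟨h, _⟩)
        · omega
        · omega
    · rw [hbig x c1 hx, hbig y c2 hy, oWall_dum (by omega), oWall_dum (by omega)]
      constructor
      · intro h
        exact Or.inr ⟨c2, by omega⟩
      · rintro (⟨h, _⟩ | ⟨_, h⟩)
        · omega
        · omega

end EF39
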