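import Pool.Agent.EF40.CertTo
import Pool.Agent.EF40.PlayE
import Pool.Agent.EF40.Wor

/-!
# EF40: tuples with the same type and the same order have a certificate
-/

set_option autoImplicit false

namespace EF39

section
variable {l : ℕ} {ar : Fin l → ℕ} {M : Type} {S : ∀ i, (Fin (ar i) → M) → Prop} {lt : M → M → Prop}
variable {k : ℕ} {br : Fin k → ℕ} {T : ∀ j, (Fin (br j) → M) → Prop}

/-- tuples with the same type have a certificate -/
theorem certO_of [Nonempty M] (hG : GenOrd ar S lt) (hT : ∀ j, FODef (arO ar) (SO ar S lt) (T j))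
    (hlt : FODef br T (fun v : Fin 2 → M => lt (v 0) (v 1))) (D : PackO ar S lt br T) {n : ℕ} {a0 b0 : ℕ → M}
    {oc : List ℕ} (hocinj : ∀ i < n, ∀ j < n, oc.getD i 0 = oc.getD j 0 → i = j)
    (hoc : ∀ x < n, ∀ y < n, (oc.getD x 0 < oc.getD y 0 ↔ lt (a0 x) (a0 y)))
    (ha0 : Set.InjOn a0 (Finset.range n)) (h : ET br T n a0 b0) :
    ∃ RA RB : List Atom → Atom → Prop,
      CertO ar n D.r oc D.la D.thl RA RB (Hold ar S a0) (Hold ar S b0) := by
  classical
  let r := D.r
  let PL : List (List Atom) := (subs (atomsO ar (n + r))).filter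
    (fun P => decide (ValP l n r oc (fun a => a ∈ P)))
  let K := PL.length
  let W := Wall n r PL
  have hPL : ∀ P, P ∈ PL ↔ P ∈ subs (atomsO ar (n + r)) ∧ ValP l n r oc (fun a => a ∈ P) := by
    intro P
    simp only [PL, List.mem_filter, decide_eq_true_eq]
  let qc : ℕ → ℕ := fun x => oc.getD x 0
  have hqc : Set.InjOn qc (Finset.range n) := fun i hi j hj hij =>
    hocinj i (by simpa using hi) j (by simpa using hj) hij
  -- the orders of the plays
  have hoex : ∀ i, ∃ o : ℕ → ℕ, i < K → Set.InjOn o (Finset.range (n + r)) ∧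
      (∀ x < n + r, ∀ y < n + r, ((l + 1, [x, y]) ∈ PL.getD i [] ↔ o x < o y)) ∧
      ∀ x < n, ∀ y < n, (qc x < qc y ↔ o x < o y) := by
    intro i
    by_cases hi : i < K
    · have hP : PL.getD i [] ∈ PL := by
        rw [List.getD_eq_getElem _ _ hi]
        exact List.getElem_mem hi
      obtain ⟨⟨o, ho1, ho2, ho3⟩, ho4⟩ := ((hPL _).1 hP).2
      refine ⟨fun x => o.getD x 0, fun _ => ⟨?_, ?_, ?_⟩⟩
      · intro x hx y hy hxy
        exact ho2 x (by simpa using hx) y (by simpa using hy) hxy
      · intro x hx y hy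
        exact ho3 x (by simpa using hx) y (by simpa using hy)
      · intro x hx y hy
        rw [← ho3 x (by simp; omega) y (by simp; omega)]
        exact (ho4 x (by simpa using hx) y (by simpa using hy)).symm
    · exact ⟨fun _ => 0, fun h => absurd h hi⟩
  choose o ho using hoex
  let oW := oWall n r K qc o
  have : Finite {a // a ∈ atomsL ar (n + r)} := (List.finite_toSet (atomsL ar (n + r))).to_subtype
  obtain ⟨N, U, oU, hoU, hoUc, hU⟩ := play_ramsey_o n r (l + 1) (D.la.length + 1) (K * r + r) W oW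
    (oWall_inj hqc (fun i hi => (ho i hi).1))
    (({a // a ∈ atomsL ar (n + r)} → Prop) × ({a // a ∈ atomsL ar (n + r)} → Prop))
  have hpt : Pt lt n oU a0 := by
    intro x hx y hy
    have hBB : K * r + r + 1 < 2 * (K * r + r + 1) := by omega
    rw [hoUc x hx y hy]
    show oWall n r K qc o x < oWall n r K qc o y ↔ _
    rw [oWall_const hx, oWall_const hy, key_lt hBB hBB, ← hoc x hx y hy]
    constructor
    · rintro (h1 | ⟨_, h1⟩)
      · exact (cnt_lt_iff hx).1 h1
      · exact absurd h1 (lt_irrefl _)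
    · intro h1
      exact Or.inl ((cnt_lt_iff hx).2 h1)
  obtain ⟨v, w, hv0, hw0, hvi, hvw, hvo, hfol⟩ := playEo hG hT hlt ha0 h U N hoU hpt
  have hwo := Pt_ET hlt hvw hvo
  have hwi := ET_injOn hvw hvi
  obtain ⟨e, hel, he, heW, heO, hec⟩ := hU (fun f => (fun a => Hold ar S v (mapA (iot n f) a.1),
    fun a => Hold ar S w (mapA (iot n f) a.1)))
  have he' := mem_subs_range.1 he
  -- the block of a play
  let E : List Atom → List ℕ := fun P => (bk r (PL.idxOf P)).map (fun y => e.getD y 0)
  have hidx : ∀ P ∈ PL, PL.idxOf P < K := fun P hP => List.idxOf_lt_length_iff.2 hP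
  have hidx' : ∀ P ∈ PL, PL.getD (PL.idxOf P) [] = P := by
    intro P hP
    rw [List.getD_eq_getElem _ _ (hidx P hP)]
    exact List.getElem_idxOf (hidx P hP)
  have hE : ∀ P ∈ PL, E P ∈ subs (List.range N) ∧ (E P).length = r := by
    intro P hP
    refine ⟨?_, by simp [E, bk_length]⟩
    rw [mem_subs_range]
    have h1 : ∀ x ∈ bk r (PL.idxOf P), x < e.length := by
      intro x hx
      have := bk_lt (hidx P hP) x hx
      rw [hel]
      omega
    refine ⟨map_getD_pairwise he'.1 (bk_pairwise _ _) h1, ?_⟩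
    intro x hx
    simp only [E, List.mem_map] at hx
    obtain ⟨y, hy, rfl⟩ := hx
    exact he'.2 _ (getD_mem (h1 y hy))
  have hiotE : ∀ P x, x < n + r → iot n (E P) x = iot n e (iot n (bk r (PL.idxOf P)) x) := by
    intro P x hx
    rw [iot_comp (by rw [bk_length]; exact hx)]
  have hEinj : ∀ P ∈ PL, Set.InjOn (iot n (E P)) (Finset.range (n + r)) := by
    intro P hP x hx y hy hxy
    have h1 := mem_subs_range.1 (hE P hP).1
    exact iot_inj h1.1 (by rw [(hE P hP).2]; simpa using hx) (by rw [(hE P hP).2]; simpa using hy) hxy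
  -- the order along the block
  have hOE : ∀ P ∈ PL, ∀ x < n + r, ∀ y < n + r,
      (oU (iot n (E P) x) < oU (iot n (E P) y) ↔ (l + 1, [x, y]) ∈ P) := by
    intro P hP x hx y hy
    have hb : ∀ x < n + r, iot n (bk r (PL.idxOf P)) x < n + (K * r + r) := by
      intro x hx
      have := iot_bound (n := n) (bk_lt (hidx P hP)) (x := x) (by rw [bk_length]; exact hx)
      omega
    have h1 := ho _ (hidx P hP)
    rw [hiotE P x hx, hiotE P y hy, heO _ (hb x hx) _ (hb y hy)]
    show oWall n r K qc o _ < oWall n r K qc o _ ↔ _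
    rw [oWall_iff (hidx P hP) h1.1 h1.2.2 hx hy, ← h1.2.1 x hx y hy, hidx' P hP]
  -- the instructions along the block
  have hUE : ∀ P ∈ PL, ∀ a ∈ atomsS ar (n + r), (∃ x ∈ a.2, n ≤ x) →
      (U (mapA (iot n (E P)) a) ↔ a ∈ P) := by
    intro P hP a ha hx
    have ha' := atomsS_lt ha
    have h1 : mapA (iot n (E P)) a = mapA (iot n e) (mapA (iot n (bk r (PL.idxOf P))) a) := by
      rw [mapA_mapA]
      exact mapA_congr fun x hx => hiotE P x (ha' x hx)
    have h2 : ∀ z ∈ (mapA (iot n (bk r (PL.idxOf P))) a).2, z < n + (K * r + r) := by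
      intro z hz
      rw [mem_mapA] at hz
      obtain ⟨y, hy, rfl⟩ := hz
      have := iot_bound (n := n) (bk_lt (hidx P hP)) (x := y) (by rw [bk_length]; exact ha' y hy)
      omega
    have h3 : (mapA (iot n (bk r (PL.idxOf P))) a).1 < l + 1 := by
      show a.1 < l + 1
      rw [mem_atomsS] at ha
      rcases ha with ⟨h3, -⟩ | ⟨x, -, rfl⟩
      · have := h3.1
        omega
      · exact Nat.lt_succ_self l
    have h4 : (mapA (iot n (bk r (PL.idxOf P))) a).2.length ≤ D.la.length + 1 := by
      have h5 : (mapA (iot n (bk r (PL.idxOf P))) a).2.length = a.2.length := by simp [mapA]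
      rw [h5]
      rw [mem_atomsS] at ha
      rcases ha with ⟨⟨h3, h6⟩, -⟩ | ⟨x, -, rfl⟩
      · rw [h6, arN_of_lt ar h3]
        have := D.har ⟨a.1, h3⟩
        omega
      · simp
    rw [h1, heW _ h3 h4 h2]
    show Wall n r PL _ ↔ _
    rw [Wall_bk (hidx P hP) ha', hidx' P hP]
    simp only [hx, and_true]
  let R : (ℕ → M) → List Atom → Atom → Prop := fun u P a => Hold ar S u (mapA (iot n (E P)) a)
  have hRu : ∀ u P, (R u P) = fun a => Hold ar S (fun x => u (iot n (E P) x)) a := by
    intro u P
    funext a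
    exact propext (Hold_mapA (v := u) (f := iot n (E P)))
  -- canonical colours
  have hcomp : ∀ u : ℕ → M, (∀ f ∈ subs (List.range (K * r + r)), ∀ f' ∈ subs (List.range (K * r + r)),
      f.length = r → f'.length = r → (∀ a : Atom, a.1 < l + 1 → a.2.length ≤ D.la.length + 1 →
        (∀ x ∈ a.2, x < n + r) → (W (mapA (iot n f) a) ↔ W (mapA (iot n f') a))) →
      (∀ x < n + r, ∀ y < n + r, (oW (iot n f x) < oW (iot n f y) ↔ oW (iot n f' x) < oW (iot n f' y))) →
      ∀ a ∈ atomsL ar (n + r), (Hold ar S u (mapA (iot n (f.map (fun y => e.getD y 0))) a) ↔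
        Hold ar S u (mapA (iot n (f'.map (fun y => e.getD y 0))) a))) → CompO ar n r oc (R u) := by
    intro u hu P hP1 hPv P' hP'1 hP'v g hg g' hg' hgg hag a ha
    have hP := (hPL P).2 ⟨hP1, hPv⟩
    have hP' := (hPL P').2 ⟨hP'1, hP'v⟩
    have hg1 := mem_subs_range.1 hg
    have hg1' := mem_subs_range.1 hg'
    have hglen : g.length ≤ r := by
      have := (mem_subs.1 hg).length_le
      simpa using this
    have hF : ∀ P ∈ PL, ∀ g ∈ subs (List.range r),
        pad r K (g.map (fun y => (bk r (PL.idxOf P)).getD y 0)) ∈ subs (List.range (K * r + r)) := by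
      intro P hP g hg
      have hg1 := mem_subs_range.1 hg
      apply pad_mem
      · exact map_getD_pairwise (bk_pairwise _ _) hg1.1 (by rw [bk_length]; exact hg1.2)
      · intro x hx
        simp only [List.mem_map] at hx
        obtain ⟨y, hy, rfl⟩ := hx
        exact bk_lt (hidx P hP) _ (getD_mem (by rw [bk_length]; exact hg1.2 y hy))
    have h1 := hu _ (hF P hP g hg) _ (hF P' hP' g' hg') (pad_length (by simpa using hglen))
      (pad_length (by simpa [← hgg] using hglen)) (by
        intro b _ _ hb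
        show Wall n r PL _ ↔ Wall n r PL _
        rw [Wall_pad (hidx P hP) hg hb, Wall_pad (hidx P' hP') hg' hb, hidx' P hP, hidx' P' hP', ← hgg]
        apply and_congr_right
        intro hbg
        apply and_congr_left
        intro _
        by_cases hbS : b ∈ atomsO ar (n + g.length)
        · exact hag b hbS
        · constructor
          · intro hc
            exact absurd (mem_atomsO_of_mapA ((mem_subs.1 hP1).subset hc) hbg) hbS
          · intro hc
            exact absurd (mem_atomsO_of_mapA ((mem_subs.1 hP'1).subset hc) hbg) hbS) (by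
        intro x hx y hy
        have h4 := ho _ (hidx P hP)
        have h4' := ho _ (hidx P' hP')
        show oWall n r K qc o _ < oWall n r K qc o _ ↔ oWall n r K qc o _ < oWall n r K qc o _
        rw [oWall_pad (hidx P hP) h4.1 h4.2.2 hg hx hy, oWall_pad (hidx P' hP') h4'.1 h4'.2.2 hg' hx hy, ← hgg]
        apply or_congr _ Iff.rfl
        apply and_congr_right
        intro hxg
        apply and_congr_right
        intro hyg
        have hb1 : ∀ x < n + g.length, iot n g x < n + r := fun x hx => iot_bound hg1.2 hx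
        have hb1' : ∀ x < n + g.length, iot n g' x < n + r := fun x hx => iot_bound hg1'.2 (by rw [← hgg]; exact hx)
        rw [← h4.2.1 _ (hb1 x hxg) _ (hb1 y hyg), ← h4'.2.1 _ (hb1' x hxg) _ (hb1' y hyg), hidx' P hP, hidx' P' hP']
        exact hag (l + 1, [x, y]) (by
          rw [mem_atomsO]
          exact Or.inr (Or.inr ⟨x, hxg, y, hyg, rfl⟩)))
    have ha1 := (mem_atomsL ar).1 ha
    have h2 := h1 a (by
      rw [mem_atomsL]
      exact ⟨ha1.1, fun x hx => (ha1.2 x hx).trans_le (by omega)⟩)
    -- back to `g`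
    have h3 : ∀ P ∈ PL, ∀ g ∈ subs (List.range r), (∀ x ∈ a.2, x < n + g.length) →
        mapA (iot n ((pad r K (g.map (fun y => (bk r (PL.idxOf P)).getD y 0))).map (fun y => e.getD y 0))) a =
          mapA (iot n (E P)) (mapA (iot n g) a) := by
      intro P hP g hg hag
      have hg1 := mem_subs_range.1 hg
      have hglen : g.length ≤ r := by
        have := (mem_subs.1 hg).length_le
        simpa using this
      rw [mapA_mapA]
      apply mapA_congr
      intro x hx
      have hxg := hag x hx
      have hlenp : (pad r K (g.map (fun y => (bk r (PL.idxOf P)).getD y 0))).length = r :=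
        pad_length (by simpa using hglen)
      rw [← iot_comp (by rw [hlenp]; omega), iot_pad (by simpa using hxg), Function.comp_apply,
        hiotE P _ (iot_bound hg1.2 hxg), iot_comp hxg]
    rw [h3 P hP g hg ha1.2, h3 P' hP' g' hg' (by rw [← hgg]; exact ha1.2)] at h2
    exact h2
  have hcv : CompO ar n r oc (R v) := by
    apply hcomp v
    intro f hf f' hf' hfr hfr' hW hO a ha
    have h1 := hec f hf f' hf' hfr hfr' hW hO
    exact iff_of_eq (congrFun (congrArg Prod.fst h1) ⟨a, ha⟩)
  have hcw : CompO ar n r oc (R w) := by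
    apply hcomp w
    intro f hf f' hf' hfr hfr' hW hO a ha
    have h1 := hec f hf f' hf' hfr hfr' hW hO
    exact iff_of_eq (congrFun (congrArg Prod.snd h1) ⟨a, ha⟩)
  have hinj : ∀ u : ℕ → M, Set.InjOn u (Finset.range (n + N)) → ∀ P ∈ PL,
      Set.InjOn (fun x => u (iot n (E P) x)) (Finset.range (n + r)) := by
    intro u hu P hP
    exact injOn_iot hu (hE P hP).1 (hE P hP).2
  have hleg : ∀ u : ℕ → M, Set.InjOn u (Finset.range (n + N)) → LegO ar n r oc D.la (R u) := by
    intro u hu P hP1 hPv Tl hTl hlen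
    have hP := (hPL P).2 ⟨hP1, hPv⟩
    have h1 := mem_subs_range.1 hTl
    rw [D.la_spec _ Tl (h1.1.imp (fun h => h.ne)) hlen, hRu]
    apply Leg_Hold
    apply (hinj u hu P hP).mono
    intro z hz
    have hz' : z ∈ Tl := by simpa using hz
    simpa using h1.2 z hz'
  have hbas : ∀ u u0 : ℕ → M, (∀ i < n, u i = u0 i) → BasO ar n r oc (R u) (Hold ar S u0) := by
    intro u u0 hu P _ _ a ha
    have ha1 := (mem_atomsL ar).1 ha
    show Hold ar S u (mapA (iot n (E P)) a) ↔ _
    rw [mapA_id' (fun x hx => iot_lt (ha1.2 x hx))]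
    exact Hold_congr fun x hx => hu x (ha1.2 x hx)
  -- instructions are followed
  have hfai : ∀ (u : ℕ → M) (sg : Bool), (∀ T' ⊆ Finset.range (n + N), ∀ x ∈ T', n ≤ x → (∀ y ∈ T', y ≤ x) →
      (U (l, [x]) ↔ sg = true) → Fol ar S U u T') → FaiO ar n r oc D.la (R u) sg := by
    intro u sg hu P hP1 hPv Tl hTl hlen x hx hnx hmax hsg hEv a ha hsup
    have hP := (hPL P).2 ⟨hP1, hPv⟩
    have h1 := mem_subs_range.1 hTl
    have h2 := mem_subs_range.1 (hE P hP).1
    have hxr : x < n + r := h1.2 x hx
    have hTr : Tl.toFinset ⊆ Finset.range (n + r) := by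
      intro z hz
      rw [List.mem_toFinset] at hz
      exact Finset.mem_range.2 (h1.2 z hz)
    have hTinj : Set.InjOn (iot n (E P)) Tl.toFinset := (hEinj P hP).mono (by exact_mod_cast hTr)
    have hsupp : ∀ b : Atom, supp b ⊆ Tl.toFinset →
        (supp (mapA (iot n (E P)) b) = Tl.toFinset.image (iot n (E P)) ↔ supp b = Tl.toFinset) := by
      intro b hb
      rw [supp_mapA]
      constructor
      · intro h3
        apply Finset.Subset.antisymm hb
        intro z hz
        have h4 : iot n (E P) z ∈ (supp b).image (iot n (E P)) := by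
          rw [h3]
          exact Finset.mem_image_of_mem _ hz
        rw [Finset.mem_image] at h4
        obtain ⟨y, hy, hyz⟩ := h4
        rw [← hTinj (by exact_mod_cast hb hy) (by exact_mod_cast hz) hyz]
        exact hy
      · intro h3
        rw [h3]
    have hbS : ∀ b : Atom, WF ar b → supp b ⊆ Tl.toFinset → b ∈ atomsS ar (n + r) := by
      intro b hb hbs
      rw [mem_atomsS]
      left
      refine ⟨hb, fun z hz => ?_⟩
      exact Finset.mem_range.1 (hTr (hbs (mem_supp.2 hz)))
    have hfu := hu (Tl.toFinset.image (iot n (E P))) (by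
      intro z hz
      rw [Finset.mem_image] at hz
      obtain ⟨y, hy, rfl⟩ := hz
      rw [Finset.mem_range]
      apply iot_bound h2.2
      rw [(hE P hP).2]
      exact Finset.mem_range.1 (hTr hy)) (iot n (E P) x) (Finset.mem_image_of_mem _ (by simpa using hx))
      (le_iot.2 hnx) (by
      intro z hz
      rw [Finset.mem_image] at hz
      obtain ⟨y, hy, rfl⟩ := hz
      rw [List.mem_toFinset] at hy
      rcases (hmax y hy).lt_or_eq with h3 | h3
      · exact (iot_strict h2.1 h3 (by rw [(hE P hP).2]; exact hxr)).le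
      · rw [h3]) (by
      rw [← hsg, ← hUE P hP (l, [x]) (by
        rw [mem_atomsS]
        exact Or.inr ⟨x, hxr, rfl⟩) ⟨x, by simp, hnx⟩]
      rfl) (by
      rw [Leg_image hTinj]
      rw [D.la_spec _ Tl (h1.1.imp (fun h => h.ne)) hlen] at hEv
      refine (Leg_congr ?_).1 hEv
      intro b hb hbs
      rw [mixL_iff]
      unfold mixF
      simp only [hsupp b hbs, ne_eq]
      by_cases h3 : supp b = Tl.toFinset
      · simp only [h3, true_and, not_true_eq_false, false_and, or_false]
        refine (hUE P hP b (hbS b hb hbs) ⟨x, ?_, hnx⟩).symm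
        rw [← mem_supp, h3]
        simpa using hx
      · simp only [h3, false_and, not_false_eq_true, true_and, false_or]
        exact Iff.rfl)
    rw [suppEq_iff] at hsup
    have ha1 := (mem_atomsL ar).1 ha
    have h3 := hfu (mapA (iot n (E P)) a) (WF_mapA.2 ha1.1) ((hsupp a hsup.subset).2 hsup)
    show Hold ar S u (mapA (iot n (E P)) a) ↔ a ∈ P
    rw [h3]
    apply hUE P hP a (hbS a ha1.1 hsup.subset)
    refine ⟨x, ?_, hnx⟩
    rw [← mem_supp, hsup]
    simpa using hx
  refine ⟨R v, R w, hcv, hcw, hleg v hvi, hleg w hwi, ?_, ?_, ?_, hbas v a0 hv0, hbas w b0 hw0⟩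
  · apply hfai
    intro T' hT' x hx hnx hmax hsg
    exact (hfol T' hT' x hx hnx hmax).1 (hsg.2 rfl)
  · apply hfai
    intro T' hT' x hx hnx hmax hsg
    exact (hfol T' hT' x hx hnx hmax).2 (fun hc => by
      have := hsg.1 hc
      simp at this)
  · intro P hP1 hPv o' ho' hoP p hp h hh
    have hP := (hPL P).2 ⟨hP1, hPv⟩
    simp only [PackO.thl, List.mem_ofFn] at hp
    obtain ⟨j, rfl⟩ := hp
    have h2 := mem_subs_range.1 (hE P hP).1
    have hb : ∀ x < n + r, iot n (E P) x < n + N := fun x hx => iot_bound h2.2 (by rw [(hE P hP).2]; exact hx)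
    have hj : ∀ u : ℕ → M, Set.InjOn u (Finset.range (n + N)) → Pt lt (n + N) oU u →
        (EvQ ar (br j) h o' (R u P) (D.th j) ↔ T j (fun t => u (iot n (E P) (h.getD t 0)))) := by
      intro u hu huo
      exact D.th_spec j (n + r) (fun x => u (iot n (E P) x)) (R u P) (hinj u hu P hP) (by
        intro a ha hz
        rw [hRu]) o' (by
        intro x hx y hy
        rw [← huo _ (hb x hx) _ (hb y hy), hOE P hP x hx y hy]
        exact (hoP x (by simpa using hx) y (by simpa using hy)).symm) h hh
    show EvQ ar (br j) h o' (R v P) (D.th j) ↔ EvQ ar (br j) h o' (R w P) (D.th j)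
    rw [hj v hvi hvo, hj w hwi hwo]
    apply ET_rel hvw j (fun t => iot n (E P) (h.getD t 0))
    intro t
    apply hb
    rw [mem_listsOf] at hh
    apply hh.2
    apply getD_mem
    rw [hh.1]
    exact t.2

end

end EF39
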