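import Pool.Agent.EF39.PlayR

/-!
# EF40: ranks and the play Ramsey theorem with a second order
-/

set_option autoImplicit false

namespace EF39

/-- the rank of `q i` among `q 0, …, q (m - 1)` -/
def cnt (q : ℕ → ℕ) (m i : ℕ) : ℕ := ((Finset.range m).filter (fun j => q j < q i)).card

theorem cnt_lt {q : ℕ → ℕ} {m i : ℕ} (hi : i < m) : cnt q m i < m := by
  have h1 : cnt q m i < (Finset.range m).card := by
    apply Finset.card_lt_card
    rw [Finset.ssubset_iff_of_subset (Finset.filter_subset _ _)]
    exact ⟨i, by simp [hi], by simp⟩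
  simpa using h1

theorem cnt_mono {q : ℕ → ℕ} {m i j : ℕ} (hi : i < m) (hij : q i < q j) : cnt q m i < cnt q m j := by
  apply Finset.card_lt_card
  rw [Finset.ssubset_iff_of_subset]
  · exact ⟨i, by simp [hi, hij], by simp⟩
  · intro z hz
    simp only [Finset.mem_filter] at hz ⊢
    exact ⟨hz.1, hz.2.trans hij⟩

theorem cnt_lt_iff {q : ℕ → ℕ} {m i j : ℕ} (hi : i < m) : cnt q m i < cnt q m j ↔ q i < q j := by
  refine ⟨fun h => ?_, cnt_mono hi⟩
  by_contra hc
  have h1 : cnt q m j ≤ cnt q m i := by
    apply Finset.card_le_card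
    intro z hz
    simp only [Finset.mem_filter] at hz ⊢
    exact ⟨hz.1, hz.2.trans_le (not_lt.1 hc)⟩
  omega

theorem cnt_inj {q : ℕ → ℕ} {m : ℕ} (hq : Set.InjOn q (Finset.range m)) :
    Set.InjOn (cnt q m) (Finset.range m) := by
  intro i hi j hj hij
  have hi' : i < m := by simpa using hi
  have hj' : j < m := by simpa using hj
  rcases lt_trichotomy (q i) (q j) with h | h | h
  · exact absurd hij (cnt_mono hi' h).ne
  · exact hq hi hj h
  · exact absurd hij (cnt_mono hj' h).ne'

theorem cnt_congr {q q' : ℕ → ℕ} {m : ℕ} (h : ∀ i < m, ∀ j < m, (q i < q j ↔ q' i < q' j)) {i : ℕ} (hi : i < m) :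
    cnt q m i = cnt q' m i := by
  unfold cnt
  congr 1
  apply Finset.filter_congr
  intro j hj
  exact h j (Finset.mem_range.1 hj) i hi

/-- the rank is onto -/
theorem cnt_surj {q : ℕ → ℕ} {m : ℕ} (hq : Set.InjOn q (Finset.range m)) {y : ℕ} (hy : y < m) :
    ∃ i < m, cnt q m i = y := by
  have h1 : (Finset.range m).image (cnt q m) = Finset.range m := by
    apply Finset.eq_of_subset_of_card_le
    · intro z hz
      rw [Finset.mem_image] at hz
      obtain ⟨i, hi, rfl⟩ := hz
      exact Finset.mem_range.2 (cnt_lt (Finset.mem_range.1 hi))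
    · rw [Finset.card_image_of_injOn (cnt_inj hq)]
  have h2 : y ∈ (Finset.range m).image (cnt q m) := by
    rw [h1]
    exact Finset.mem_range.2 hy
  rw [Finset.mem_image] at h2
  obtain ⟨i, hi, h3⟩ := h2
  exact ⟨i, Finset.mem_range.1 hi, h3⟩

/-- sorting -/
theorem exists_sorted {q : ℕ → ℕ} {m N : ℕ} (hq : Set.InjOn q (Finset.range m)) (hN : ∀ i < m, q i < N) :
    ∃ g ∈ subs (List.range N), g.length = m ∧ ∀ i < m, g.getD (cnt q m i) 0 = q i := by
  have h1 : ∀ y, ∃ i, y < m → i < m ∧ cnt q m i = y := by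
    intro y
    by_cases hy : y < m
    · obtain ⟨i, hi, h⟩ := cnt_surj hq hy
      exact ⟨i, fun _ => ⟨hi, h⟩⟩
    · exact ⟨0, fun h => absurd h hy⟩
  choose inv hinv using h1
  refine ⟨(List.range m).map (fun y => q (inv y)), ?_, by simp, ?_⟩
  · rw [mem_subs_range]
    constructor
    · rw [List.pairwise_map]
      apply List.Pairwise.imp_of_mem _ List.pairwise_lt_range
      intro a b ha hb hab
      rw [List.mem_range] at ha hb
      rw [← cnt_lt_iff (m := m) (hinv a ha).1, (hinv a ha).2, (hinv b hb).2]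
      exact hab
    · intro x hx
      rw [List.mem_map] at hx
      obtain ⟨y, hy, rfl⟩ := hx
      rw [List.mem_range] at hy
      exact hN _ (hinv y hy).1
  · intro i hi
    have h2 := cnt_lt (q := q) hi
    rw [List.getD_eq_getElem _ _ (by simpa using h2), List.getElem_map, List.getElem_range]
    have h3 := hinv _ h2
    rw [cnt_inj hq (by simpa using h3.1) (by simpa using hi) h3.2]

/-- number of constants below -/
def cb (q : ℕ → ℕ) (n : ℕ) (x : ℕ) : ℕ := ((Finset.range n).filter (fun j => q j < q x)).card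

theorem cb_le {q : ℕ → ℕ} {n x : ℕ} : cb q n x ≤ n := by
  have := Finset.card_filter_le (Finset.range n) (fun j => q j < q x)
  simpa [cb] using this

theorem cb_mono {q : ℕ → ℕ} {n x y : ℕ} (h : q x ≤ q y) : cb q n x ≤ cb q n y := by
  apply Finset.card_le_card
  intro z hz
  simp only [Finset.mem_filter] at hz ⊢
  exact ⟨hz.1, hz.2.trans_le h⟩

/-- a constant is below `x` iff its rank is below the number of constants below `x` -/
theorem cnt_lt_cb {q : ℕ → ℕ} {n i x : ℕ} (hi : i < n) : cnt q n i < cb q n x ↔ q i < q x := by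
  constructor
  · intro h
    by_contra hc
    have h1 : cb q n x ≤ cnt q n i := by
      apply Finset.card_le_card
      intro z hz
      simp only [Finset.mem_filter] at hz ⊢
      exact ⟨hz.1, hz.2.trans_le (not_lt.1 hc)⟩
    omega
  · intro h
    apply Finset.card_lt_card
    rw [Finset.ssubset_iff_of_subset]
    · exact ⟨i, by simp [hi, h], by simp⟩
    · intro z hz
      simp only [Finset.mem_filter] at hz ⊢
      exact ⟨hz.1, hz.2.trans h⟩

end EF39
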