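import Pool.Agent.EF40.Cert
import Pool.Agent.EF40.Cnt

/-!
# EF40: a certificate gives a back and forth system
-/

set_option autoImplicit false

namespace EF39

variable {l : ℕ} {ar : Fin l → ℕ} {M : Type} {S : ∀ i, (Fin (ar i) → M) → Prop} {lt : M → M → Prop}
variable {k : ℕ} {br : Fin k → ℕ} {T : ∀ j, (Fin (br j) → M) → Prop}

/-- the tuple `v` realizes the responses to the play `P` with `N` moves -/
def RepO {l : ℕ} (ar : Fin l → ℕ) {M : Type} (S : ∀ i, (Fin (ar i) → M) → Prop) (n r N : ℕ) (P : Atom → Prop)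
    (R : List Atom → Atom → Prop) (v : ℕ → M) : Prop :=
  ∀ e ∈ subs (List.range N), e.length = r → ∀ a ∈ atomsL ar (n + r),
    (Hold ar S v (mapA (iot n e) a) ↔ R (cdo ar n r P e) a)

theorem leg_of_LegO (D : PackO ar S lt br T) {n : ℕ} {oc : List ℕ} {R : List Atom → Atom → Prop}
    (h : LegO ar n D.r oc D.la R) {P : List Atom} (hP : P ∈ subs (atomsO ar (n + D.r)))
    (hV : ValP l n D.r oc (fun a => a ∈ P)) {A : Finset ℕ} (hA : A ⊆ Finset.range (n + D.r))
    (hc : A.card < D.la.length) : Leg ar S (R P) A := by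
  obtain ⟨Tl, h1, h2, h3, h4⟩ := exists_list hA
  have h5 := h P hP hV Tl h1 (by omega)
  rw [D.la_spec _ Tl h3 (by omega), h2] at h5
  exact h5

/-- one step of the game: the side `RF` is followed, the side `RO` answers -/
theorem stepO [Nonempty M] (hG : GenOrd ar S lt) (D : PackO ar S lt br T) {n : ℕ} {oc : List ℕ}
    {RF RO : List Atom → Atom → Prop} {sg : Bool}
    (cF : CompO ar n D.r oc RF) (cO : CompO ar n D.r oc RO) (lO : LegO ar n D.r oc D.la RO)
    (fF : FaiO ar n D.r oc D.la RF sg) {N : ℕ} (hrN : D.r ≤ N) {v w : ℕ → M} {P : Atom → Prop}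
    (hv : Set.InjOn v (Finset.range (n + N)))
    (hoc : ∀ x < n, ∀ y < n, (oc.getD x 0 < oc.getD y 0 ↔ lt (v x) (v y)))
    (hOv : OrdV l lt (n + N) P v) (hOw : OrdV l lt (n + N) P w)
    (hvP : RepO ar S n D.r N P RF v) (hwP : RepO ar S n D.r N P RO w)
    {v' : ℕ → M} (hvv : ∀ i < n + N, v' i = v i) (hv' : Set.InjOn v' (Finset.range (n + (N + 1)))) :
    ∃ (P' : Atom → Prop) (w' : ℕ → M), (∀ i < n + N, w' i = w i) ∧
      Set.InjOn w' (Finset.range (n + (N + 1))) ∧ RepO ar S n D.r (N + 1) P' RF v' ∧
      RepO ar S n D.r (N + 1) P' RO w' ∧ OrdV l lt (n + (N + 1)) P' v' ∧ OrdV l lt (n + (N + 1)) P' w' := by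
  classical
  have hN := nice_of hG
  let P' : Atom → Prop := fun b =>
    ((n + N) ∈ b.2 ∧ ((b.1 = l ∧ sg = true) ∨ Hold ar S v' b ∨
      (b.1 = l + 1 ∧ lt (v' (b.2.getD 0 0)) (v' (b.2.getD 1 0))))) ∨ ((n + N) ∉ b.2 ∧ P b)
  have hP'0 : ∀ b : Atom, (n + N) ∉ b.2 → (P' b ↔ P b) := by
    intro b hb
    simp only [P', hb, not_false_eq_true, false_and, false_or, true_and]
  have hP'1 : ∀ b : Atom, WF ar b → (n + N) ∈ b.2 → (P' b ↔ Hold ar S v' b) := by
    intro b hb hb2
    have h1 : b.1 ≠ l := hb.1.ne
    have h2 : b.1 ≠ l + 1 := by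
      have := hb.1
      omega
    simp only [P', hb2, h1, h2, true_and, false_and, false_or, not_true_eq_false, or_false]
  have hP'2 : P' (l, [n + N]) ↔ sg = true := by
    have h1 : ¬ Hold ar S v' (l, [n + N]) := fun ⟨h, _⟩ => lt_irrefl _ h
    simp only [P', h1]
    simp
  have hOv' : OrdV l lt (n + (N + 1)) P' v' := by
    intro x hx y hy
    by_cases hc : (n + N) ∈ [x, y]
    · have h1 : ¬ Hold ar S v' (l + 1, [x, y]) := fun ⟨h, _⟩ => by
        simp only at h
        omega
      have h2 : l + 1 ≠ l := by omega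
      simp only [P', hc, h1, h2, true_and, false_and, false_or, not_true_eq_false, or_false,
        List.getD_cons_zero, List.getD_cons_succ]
    · rw [hP'0 _ hc]
      simp only [List.mem_cons, List.not_mem_nil, or_false, not_or] at hc
      rw [hOv x (by omega) y (by omega), hvv x (by omega), hvv y (by omega)]
  have hoc' : ∀ x < n, ∀ y < n, (oc.getD x 0 < oc.getD y 0 ↔ lt (v' x) (v' y)) := by
    intro x hx y hy
    rw [hoc x hx y hy, hvv x (by omega), hvv y (by omega)]
  have hval : ∀ e ∈ subs (List.range (N + 1)), e.length = D.r →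
      ValP l n D.r oc (fun a => a ∈ cdo ar n D.r P' e) := fun e he hl =>
    (valP_cdo hG.order hv' hOv' hoc' he hl).1
  have hval0 : ∀ e ∈ subs (List.range N), e.length = D.r →
      ValP l n D.r oc (fun a => a ∈ cdo ar n D.r P e) := fun e he hl =>
    (valP_cdo hG.order hv hOv hoc he hl).1
  have hsize : ∀ a : Atom, WF ar a → (supp a).card < D.la.length := fun a ha => card_supp_le ha D.har
  have hr := D.hr
  -- cover an atom which does not contain the last move
  have hcover : ∀ A : Atom, WF ar A → (∀ z ∈ A.2, z < n + N) → ∃ e' ∈ subs (List.range N), e'.length = D.r ∧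
      ∃ a' ∈ atomsL ar (n + D.r), mapA (iot n e') a' = A := by
    intro A hA hz
    obtain ⟨e', h1, h2, h3⟩ := exists_cover (n := n) hrN (supp A) (fun z hz' => hz z (mem_supp.1 hz'))
      (by have := hsize A hA; omega)
    obtain ⟨a', h4, h5⟩ := pull_atom (n := n) (r := D.r) (e := e') (A := A) (fun z hz => h3 z (mem_supp.2 hz))
    refine ⟨e', h1, h2, a', ?_, h4⟩
    rw [mem_atomsL]
    refine ⟨?_, h5⟩
    rw [← WF_mapA (f := iot n e'), h4]
    exact hA
  -- atoms without the last move
  have hold : ∀ (R : List Atom → Atom → Prop), CompO ar n D.r oc R → ∀ (u : ℕ → M), RepO ar S n D.r N P R u →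
      ∀ e ∈ subs (List.range (N + 1)), e.length = D.r → ∀ a ∈ atomsL ar (n + D.r),
      (n + N) ∉ (mapA (iot n e) a).2 → (Hold ar S u (mapA (iot n e) a) ↔ R (cdo ar n D.r P' e) a) := by
    intro R hR u hu e he hl a ha hn
    have ha1 := (mem_atomsL ar).1 ha
    have he1 := mem_subs_range.1 he
    obtain ⟨e', h1, h2, a', h3, h4⟩ := hcover (mapA (iot n e) a) (WF_mapA.2 ha1.1) (by
      intro z hz
      have hz' := hz
      rw [mem_mapA] at hz
      obtain ⟨y, hy, rfl⟩ := hz
      have h5 := iot_bound (n := n) he1.2 (x := y) (by rw [hl]; exact ha1.2 y hy)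
      have h6 : iot n e y ≠ n + N := fun hc => hn (hc ▸ hz')
      omega)
    have h5 := wdo hR (P := P') (P' := P) he (mem_subs_mono h1 (Nat.le_succ N)) hl h2 (hval e he hl)
      (hval0 e' h1 h2) ha h3 h4.symm (by
      intro b hb
      apply hP'0
      intro hc
      rcases hb _ hc with h6 | h6
      · omega
      · exact hn h6)
    rw [h5, ← hu e' h1 h2 a' h3, h4]
  have hrepF : RepO ar S n D.r (N + 1) P' RF v' := by
    intro e he hl
    have he1 := mem_subs_range.1 he
    have hinj := injOn_iot hv' he hl
    have key : ∀ s, ∀ a ∈ atomsL ar (n + D.r), (supp a).card = s →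
        (Hold ar S v' (mapA (iot n e) a) ↔ RF (cdo ar n D.r P' e) a) := by
      intro s
      induction s using Nat.strong_induction_on with
      | _ s ih =>
        intro a ha hs
        have ha1 := (mem_atomsL ar).1 ha
        by_cases hn : (n + N) ∈ (mapA (iot n e) a).2
        · have hn' := hn
          rw [mem_mapA] at hn'
          obtain ⟨x, hx, hxN⟩ := hn'
          have hnx : n ≤ x := le_iot.1 (by rw [hxN]; omega)
          have hmax : ∀ y ∈ a.2, y ≤ x := by
            intro y hy
            by_contra hc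
            have h1 := iot_strict (n := n) he1.1 (not_le.1 hc) (by rw [hl]; exact ha1.2 y hy)
            have h2 := iot_bound (n := n) he1.2 (x := y) (by rw [hl]; exact ha1.2 y hy)
            omega
          obtain ⟨Tl, hT1, hT2, hT3, hT4⟩ := exists_list (A := supp a) (N := n + D.r)
            (supp_subset_range.2 ha1.2)
          have hTm : ∀ y, y ∈ Tl ↔ y ∈ a.2 := by
            intro y
            rw [← List.mem_toFinset, hT2, mem_supp]
          have hTlen : Tl.length < D.la.length := by
            rw [hT4]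
            exact hsize a ha1.1
          have h3 := fF (cdo ar n D.r P' e) (cdo_mem_subs ar) (hval e he hl) Tl hT1 hTlen x ((hTm x).2 hx) hnx
            (fun y hy => hmax y ((hTm y).1 hy)) (by
              rw [mem_cdo]
              have h4 : mapA (iot n e) (l, [x]) = (l, [n + N]) := by
                simp [mapA, hxN]
              rw [h4, hP'2]
              have h5 : (l, [x]) ∈ atomsO ar (n + D.r) := by
                rw [mem_atomsO]
                exact Or.inr (Or.inl ⟨x, ha1.2 x hx, rfl⟩)
              simp [h5]) (by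
              rw [D.la_spec _ Tl hT3 hTlen, Leg_congr (Y := Hold ar S (fun x => v' (iot n e x)))]
              · apply Leg_Hold
                rw [hT2]
                exact hinj.mono (by exact_mod_cast supp_subset_range.2 ha1.2)
              · intro b hb hbs
                rw [mixL_iff, hT2]
                rw [hT2] at hbs
                have hbl : ∀ z ∈ b.2, z < n + D.r := fun z hz => ha1.2 z (mem_supp.1 (hbs (mem_supp.2 hz)))
                unfold mixF
                rcases hbs.eq_or_ssubset with h6 | h6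
                · simp only [h6, true_and, ne_eq, not_true_eq_false, false_and, or_false]
                  rw [mem_cdo]
                  have h7 : b ∈ atomsO ar (n + D.r) := by
                    rw [mem_atomsO]
                    exact Or.inl ⟨hb, hbl⟩
                  have h8 : (n + N) ∈ (mapA (iot n e) b).2 := by
                    rw [mem_mapA]
                    refine ⟨x, ?_, hxN⟩
                    rw [← mem_supp, h6, mem_supp]
                    exact hx
                  rw [hP'1 _ (WF_mapA.2 hb) h8, ← Hold_mapA (v := v') (f := iot n e)]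
                  simp [h7]
                · simp only [h6.ne, false_and, ne_eq, not_false_eq_true, true_and, false_or]
                  rw [← ih (supp b).card (by rw [← hs]; exact Finset.card_lt_card h6) b
                    ((mem_atomsL ar).2 ⟨hb, hbl⟩) rfl, ← Hold_mapA (v := v') (f := iot n e)]) a ha (by
              rw [suppEq_iff, hT2])
          rw [h3, mem_cdo, hP'1 _ (WF_mapA.2 ha1.1) hn]
          have h7 : a ∈ atomsO ar (n + D.r) := by
            rw [mem_atomsO]
            exact Or.inl ha1
          simp [h7]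
        · rw [← hold RF cF v hvP e he hl a ha hn]
          apply Hold_congr
          intro z hz
          apply hvv
          have hz' := hz
          rw [mem_mapA] at hz
          obtain ⟨y, hy, rfl⟩ := hz
          have h5 := iot_bound (n := n) he1.2 (x := y) (by rw [hl]; exact ha1.2 y hy)
          have h6 : iot n e y ≠ n + N := fun hc => hn (hc ▸ hz')
          omega
    exact fun a ha => key _ a ha rfl
  -- the answer
  let X : Atom → Prop := fun b => ∃ e ∈ subs (List.range (N + 1)), e.length = D.r ∧
    ∃ a ∈ atomsL ar (n + D.r), mapA (iot n e) a = b ∧ RO (cdo ar n D.r P' e) a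
  have hX : ∀ e ∈ subs (List.range (N + 1)), e.length = D.r → ∀ a ∈ atomsL ar (n + D.r),
      (X (mapA (iot n e) a) ↔ RO (cdo ar n D.r P' e) a) := by
    intro e he hl a ha
    constructor
    · rintro ⟨e', he', hl', a', ha', haa, hR⟩
      exact (wdo cO he he' hl hl' (hval e he hl) (hval e' he' hl') ha ha' haa.symm (fun _ _ => Iff.rfl)).2 hR
    · intro h
      exact ⟨e, he, hl, a, ha, rfl, h⟩
  obtain ⟨o', ho'1, ho'2⟩ := exists_pt hG hv'
  obtain ⟨w', hw1, hw2, hw3, hw4⟩ := exto hG (m := n + N) (m' := n + (N + 1)) (v := w) (X := X) (o := o')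
    (by omega) (by
      apply leg_all hN D.har
      intro T' hT' hTc
      obtain ⟨e, he, hl, hcov⟩ := exists_cover (n := n) (N := N + 1) (r := D.r) (by omega) T'
        (fun z hz => Finset.mem_range.1 (hT' hz)) (by omega)
      have he1 := mem_subs_range.1 he
      have hinj : Set.InjOn (iot n e) (Finset.range (n + D.r)) := by
        intro x hx y hy hxy
        exact iot_inj he1.1 (by rw [hl]; simpa using hx) (by rw [hl]; simpa using hy) hxy
      let T'' := (Finset.range (n + D.r)).filter (fun y => iot n e y ∈ T')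
      have hT'' : T''.image (iot n e) = T' := by
        ext z
        simp only [T'', Finset.mem_image, Finset.mem_filter, Finset.mem_range]
        constructor
        · rintro ⟨y, ⟨_, hy⟩, rfl⟩
          exact hy
        · intro hz
          obtain ⟨y, hy, rfl⟩ := hcov z hz
          exact ⟨y, ⟨hy, hz⟩, rfl⟩
      have hsub : T'' ⊆ Finset.range (n + D.r) := Finset.filter_subset _ _
      have hinj' : Set.InjOn (iot n e) T'' := hinj.mono (by exact_mod_cast hsub)
      rw [← hT'', Leg_image hinj', Leg_congr (Y := RO (cdo ar n D.r P' e))]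
      · apply leg_of_LegO D lO (cdo_mem_subs ar) (hval e he hl) hsub
        rw [← Finset.card_image_of_injOn hinj', hT'']
        exact hTc
      · intro a ha hs
        exact hX e he hl a ((mem_atomsL ar).2 ⟨ha, supp_subset_range.1 (hs.trans hsub)⟩)) (by
      intro a ha hs
      have hs' := supp_subset_range.1 hs
      obtain ⟨e', h1, h2, a', h3, h4⟩ := hcover a ha hs'
      have h5 := mem_subs_mono h1 (Nat.le_succ N)
      rw [← h4, hX e' h5 h2 a' h3]
      apply hold RO cO w hwP e' h5 h2 a' h3
      rw [h4]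
      intro hc
      exact lt_irrefl _ (hs' _ hc)) ho'1 (by
      intro i hi j hj
      rw [ho'2 i (by omega) j (by omega), hvv i hi, hvv j hj, ← hOv i hi j hj, hOw i hi j hj])
  refine ⟨P', w', hw1, hw2, hrepF, ?_, hOv', ?_⟩
  · intro e he hl a ha
    have ha1 := (mem_atomsL ar).1 ha
    have he1 := mem_subs_range.1 he
    rw [hw3 _ (WF_mapA.2 ha1.1) ?_, hX e he hl a ha]
    rw [supp_subset_range]
    intro z hz
    rw [mem_mapA] at hz
    obtain ⟨y, hy, rfl⟩ := hz
    exact iot_bound he1.2 (by rw [hl]; exact ha1.2 y hy)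
  · intro x hx y hy
    rw [hOv' x hx y hy, ← ho'2 x hx y hy, hw4 x hx y hy]

/-- all conditions on a certificate -/
structure CertO {l : ℕ} (ar : Fin l → ℕ) (n r : ℕ) (oc : List ℕ) (la : List QF) (th : List (ℕ × QF))
    (RA RB : List Atom → Atom → Prop) (s t : Atom → Prop) : Prop where
  cA : CompO ar n r oc RA
  cB : CompO ar n r oc RB
  lA : LegO ar n r oc la RA
  lB : LegO ar n r oc la RB
  fA : FaiO ar n r oc la RA true
  fB : FaiO ar n r oc la RB false
  gm : GamO ar n r oc th RA RB
  bA : BasO ar n r oc RA s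
  bB : BasO ar n r oc RB t

/-- the list of the relations of the reduct -/
def PackO.thl (D : PackO ar S lt br T) : List (ℕ × QF) := List.ofFn (fun j => (br j, D.th j))

theorem certO_bfs [Nonempty M] (hG : GenOrd ar S lt) (D : PackO ar S lt br T) {n : ℕ} {oc : List ℕ}
    {RA RB : List Atom → Atom → Prop} {s t : Atom → Prop} (h : CertO ar n D.r oc D.la D.thl RA RB s t) :
    BFS br T (fun N' v w => ∃ N, N' = n + N ∧ D.r ≤ N ∧ ∃ P : Atom → Prop, Set.InjOn v (Finset.range N') ∧
      Set.InjOn w (Finset.range N') ∧ RepO ar S n D.r N P RA v ∧ RepO ar S n D.r N P RB w ∧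
      OrdV l lt (n + N) P v ∧ OrdV l lt (n + N) P w ∧
      ∀ x < n, ∀ y < n, (oc.getD x 0 < oc.getD y 0 ↔ lt (v x) (v y))) where
  injv := by
    rintro N' v w ⟨N, h1, h2, P, h3, h4, h5, h6, h7⟩
    exact h3
  injw := by
    rintro N' v w ⟨N, h1, h2, P, h3, h4, h5, h6, h7⟩
    exact h4
  rel := by
    classical
    rintro N' v w ⟨N, rfl, h2, P, h3, h4, h5, h6, hv, hw, hoc⟩ j x hx
    obtain ⟨e, he, hl, hcov⟩ := exists_cover (n := n) (N := N) (r := D.r) h2 (Finset.univ.image x) (by
      intro z hz
      simp only [Finset.mem_image, Finset.mem_univ, true_and] at hz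
      obtain ⟨t, rfl⟩ := hz
      exact hx t) (by
      have h7 : (Finset.univ.image x).card ≤ br j := by
        have := Finset.card_image_le (s := (Finset.univ : Finset (Fin (br j)))) (f := x)
        simpa using this
      exact h7.trans (D.hbr j))
    have hcov' : ∀ t, ∃ y < n + D.r, iot n e y = x t := fun t => hcov _ (by simp)
    choose y hy1 hy2 using hcov'
    have hh : List.ofFn y ∈ listsOf (br j) (n + D.r) := by
      rw [mem_listsOf]
      refine ⟨by simp, ?_⟩
      intro z hz
      rw [List.mem_ofFn] at hz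
      obtain ⟨t, rfl⟩ := hz
      exact hy1 t
    obtain ⟨hval, o, ho1, ho2, ho3⟩ := valP_cdo hG.order h3 hv hoc he hl
    have he1 := mem_subs_range.1 he
    have key : ∀ (u : ℕ → M) (R : List Atom → Atom → Prop), Set.InjOn u (Finset.range (n + N)) →
        RepO ar S n D.r N P R u → OrdV l lt (n + N) P u →
        (EvQ ar (br j) (List.ofFn y) o (R (cdo ar n D.r P e)) (D.th j) ↔ T j (fun t => u (x t))) := by
      intro u R hu hR hO
      rw [D.th_spec j (n + D.r) (fun z => u (iot n e z)) (R (cdo ar n D.r P e)) (injOn_iot hu he hl) (by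
        intro a ha hz
        rw [← Hold_mapA (v := u) (f := iot n e)]
        exact hR e he hl a ((mem_atomsL ar).2 ⟨ha, hz⟩)) o (by
        intro x' hx' y' hy'
        have b1 : iot n e x' < n + N := iot_bound he1.2 (by rw [hl]; exact hx')
        have b2 : iot n e y' < n + N := iot_bound he1.2 (by rw [hl]; exact hy')
        rw [ho3 x' hx' y' hy', ← hv _ b1 _ b2, hO _ b1 _ b2]) (List.ofFn y) hh]
      have h8 : (fun t : Fin (br j) => u (iot n e ((List.ofFn y).getD t 0))) = fun t => u (x t) := by
        funext t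
        rw [List.getD_eq_getElem _ _ (by simp), List.getElem_ofFn, hy2]
      rw [h8]
    rw [← key v RA h3 h5 hv, ← key w RB h4 h6 hw]
    exact h.gm _ (cdo_mem_subs ar) hval o ho1 ho2 (br j, D.th j) (by
      simp only [PackO.thl, List.mem_ofFn]
      exact ⟨j, rfl⟩) (List.ofFn y) hh
  forth := by
    rintro N' v w ⟨N, rfl, h2, P, h3, h4, h5, h6, hv, hw, hoc⟩ a ha
    have h7 : ∀ i < n + N, Function.update v (n + N) a i = v i := fun i hi => Function.update_of_ne (by omega) _ _
    have hinj : Set.InjOn (Function.update v (n + N) a) (Finset.range (n + N + 1)) := injOn_succ h3 h7 (by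
      intro i hi
      rw [Function.update_self]
      exact ha i hi)
    obtain ⟨P', w', h8, h9, h10, h11, h12, h13⟩ :=
      stepO hG D h.cA h.cB h.lB h.fA h2 h3 hoc hv hw h5 h6 h7 hinj
    refine ⟨_, w', h7, h8, Function.update_self _ _ _, N + 1, by omega, by omega, P', hinj, h9, h10, h11, h12, h13,
      ?_⟩
    intro x hx y hy
    rw [h7 x (by omega), h7 y (by omega)]
    exact hoc x hx y hy
  back := by
    rintro N' v w ⟨N, rfl, h2, P, h3, h4, h5, h6, hv, hw, hoc⟩ a ha
    have h7 : ∀ i < n + N, Function.update w (n + N) a i = w i := fun i hi => Function.update_of_ne (by omega) _ _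
    have hinj : Set.InjOn (Function.update w (n + N) a) (Finset.range (n + N + 1)) := injOn_succ h4 h7 (by
      intro i hi
      rw [Function.update_self]
      exact ha i hi)
    have hoc' : ∀ x < n, ∀ y < n, (oc.getD x 0 < oc.getD y 0 ↔ lt (w x) (w y)) := by
      intro x hx y hy
      rw [hoc x hx y hy, ← hv x (by omega) y (by omega), hw x (by omega) y (by omega)]
    obtain ⟨P', v', h8, h9, h10, h11, h12, h13⟩ :=
      stepO hG D h.cB h.cA h.lA h.fB h2 h4 hoc' hw hv h6 h5 h7 hinj
    refine ⟨v', _, h8, h7, Function.update_self _ _ _, N + 1, by omega, by omega, P', h9, hinj, h11, h10, h13, h12,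
      ?_⟩
    intro x hx y hy
    rw [h8 x (by omega), h8 y (by omega)]
    exact hoc x hx y hy

theorem certO_to [Nonempty M] (hG : GenOrd ar S lt) (D : PackO ar S lt br T) {n : ℕ} {oc : List ℕ}
    {RA RB : List Atom → Atom → Prop} {s t : Atom → Prop} (h : CertO ar n D.r oc D.la D.thl RA RB s t)
    (hocinj : ∀ i ∈ List.range n, ∀ j ∈ List.range n, oc.getD i 0 = oc.getD j 0 → i = j) {v0 w0 : ℕ → M}
    (hs : ∀ a ∈ atomsL ar n, (Hold ar S v0 a ↔ s a)) (ht : ∀ a ∈ atomsL ar n, (Hold ar S w0 a ↔ t a))
    (hov : ∀ x < n, ∀ y < n, (oc.getD x 0 < oc.getD y 0 ↔ lt (v0 x) (v0 y)))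
    (how : ∀ x < n, ∀ y < n, (oc.getD x 0 < oc.getD y 0 ↔ lt (w0 x) (w0 y))) :
    ET br T n v0 w0 := by
  have hN := nice_of hG
  -- the first `r` moves
  let q : ℕ → ℕ := fun x => oc.getD x 0
  have hq : Set.InjOn q (Finset.range n) := fun i hi j hj hij =>
    hocinj i (by simpa using hi) j (by simpa using hj) hij
  let o0 : ℕ → ℕ := fun x => if x < n then cnt q n x else x
  have ho0 : ∀ x < n, ∀ y < n, (o0 x < o0 y ↔ oc.getD x 0 < oc.getD y 0) := by
    intro x hx y hy
    simp only [o0, hx, hy, if_true]
    exact cnt_lt_iff hx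
  have ho0inj : Set.InjOn o0 (Finset.range (n + D.r)) := by
    intro x hx y hy hxy
    simp only [o0] at hxy
    split_ifs at hxy with c1 c2 c2
    · exact cnt_inj hq (by simpa using c1) (by simpa using c2) hxy
    · have := cnt_lt (q := q) c1
      omega
    · have := cnt_lt (q := q) c2
      omega
    · exact hxy
  let P : Atom → Prop := fun b => ∃ x y, b = (l + 1, [x, y]) ∧ o0 x < o0 y
  have hPo : ∀ x y, (P (l + 1, [x, y]) ↔ o0 x < o0 y) := by
    intro x y
    constructor
    · rintro ⟨x', y', h1, h2⟩
      have h3 : [x, y] = [x', y'] := congrArg Prod.snd h1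
      simp only [List.cons.injEq, and_true] at h3
      rw [h3.1, h3.2]
      exact h2
    · intro h1
      exact ⟨x, y, rfl, h1⟩
  have hval : ValP l n D.r oc (fun a => a ∈ cdo ar n D.r P (List.range D.r)) := by
    have hm : ∀ x < n + D.r, ∀ y < n + D.r, ((l + 1, [x, y]) ∈ cdo ar n D.r P (List.range D.r) ↔ o0 x < o0 y) := by
      intro x hx y hy
      rw [mem_cdo]
      have h1 : mapA (iot n (List.range D.r)) (l + 1, [x, y]) = (l + 1, [x, y]) :=
        mapA_id' (by
          intro z hz
          apply iot_range (r := D.r)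
          simp only [List.mem_cons, List.not_mem_nil, or_false] at hz
          rcases hz with rfl | rfl
          · exact hx
          · exact hy)
      have h2 : (l + 1, [x, y]) ∈ atomsO ar (n + D.r) := by
        rw [mem_atomsO]
        exact Or.inr (Or.inr ⟨x, hx, y, hy, rfl⟩)
      rw [h1, hPo]
      simp [h2]
    have hget : ∀ i < n + D.r, ((List.range (n + D.r)).map o0).getD i 0 = o0 i := by
      intro i hi
      rw [List.getD_eq_getElem _ _ (by simpa using hi)]
      simp
    refine ⟨⟨(List.range (n + D.r)).map o0, ?_, ?_, ?_⟩, ?_⟩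
    · rw [mem_listsOf]
      refine ⟨by simp, ?_⟩
      intro z hz
      rw [List.mem_map] at hz
      obtain ⟨x, hx, rfl⟩ := hz
      rw [List.mem_range] at hx
      simp only [o0]
      split_ifs with c
      · have := cnt_lt (q := q) c
        omega
      · exact hx
    · intro i hi j hj hij
      rw [List.mem_range] at hi hj
      rw [hget i hi, hget j hj] at hij
      exact ho0inj (by simpa using hi) (by simpa using hj) hij
    · intro x hx y hy
      rw [List.mem_range] at hx hy
      show (l + 1, [x, y]) ∈ cdo ar n D.r P (List.range D.r) ↔ _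
      rw [hm x hx y hy, hget x hx, hget y hy]
    · intro x hx y hy
      rw [List.mem_range] at hx hy
      show (l + 1, [x, y]) ∈ cdo ar n D.r P (List.range D.r) ↔ _
      rw [hm x (by omega) y (by omega), ho0 x hx y hy]
  have hfirst : ∀ (R : List Atom → Atom → Prop) (s : Atom → Prop) (u : ℕ → M), LegO ar n D.r oc D.la R →
      BasO ar n D.r oc R s → (∀ x < n, ∀ y < n, (oc.getD x 0 < oc.getD y 0 ↔ lt (u x) (u y))) →
      (∀ a ∈ atomsL ar n, (Hold ar S u a ↔ s a)) →
      ∃ u' : ℕ → M, (∀ i < n, u' i = u i) ∧ Set.InjOn u' (Finset.range (n + D.r)) ∧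
        RepO ar S n D.r D.r P R u' ∧ OrdV l lt (n + D.r) P u' := by
    intro R s u hL hB hou hus
    have hP := cdo_mem_subs ar (n := n) (r := D.r) (P := P) (e := List.range D.r)
    obtain ⟨u', h1, h2, h3, h4⟩ := exto hG (m := n) (m' := n + D.r) (v := u)
      (X := R (cdo ar n D.r P (List.range D.r))) (o := o0) (by omega) (by
      apply leg_all hN D.har
      intro T' hT' hTc
      exact leg_of_LegO D hL hP hval hT' hTc) (by
      intro a ha hz
      have ha' := (mem_atomsL ar).2 ⟨ha, supp_subset_range.1 hz⟩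
      rw [hB _ hP hval a ha']
      exact hus a ha') ho0inj (by
      intro x hx y hy
      rw [ho0 x hx y hy]
      exact hou x hx y hy)
    refine ⟨u', h1, h2, ?_, ?_⟩
    · intro e he hl a ha
      have ha1 := (mem_atomsL ar).1 ha
      have he' : e = List.range D.r := by
        rw [mem_subs] at he
        exact he.eq_of_length (by simp [hl])
      subst he'
      rw [mapA_id' (fun x hx => iot_range (ha1.2 x hx))]
      exact h3 a ha1.1 (supp_subset_range.2 ha1.2)
    · intro x hx y hy
      rw [hPo]
      exact h4 x hx y hy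
  obtain ⟨v, hv1, hv2, hv3, hv4⟩ := hfirst RA s v0 h.lA h.bA hov hs
  obtain ⟨w, hw1, hw2, hw3, hw4⟩ := hfirst RB t w0 h.lB h.bB how ht
  have h1 : ET br T (n + D.r) v w := by
    apply ET_of_bf (certO_bfs hG D h)
    refine ⟨D.r, rfl, le_refl _, P, hv2, hw2, hv3, hw3, hv4, hw4, ?_⟩
    intro x hx y hy
    rw [hv1 x hx, hv1 y hy]
    exact hov x hx y hy
  exact ET_congr hv1 hw1 (ET_comp h1 (fun i => i) (fun i hi => by omega))

end EF39
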