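import Pool.Agent.EF39.Comp
import Pool.Agent.EF40.Cert

/-!
# EF40: primitive recursive checks
-/

set_option autoImplicit false

namespace EF39

section
variable {α : Type} [Primcodable α] {l : ℕ} (ar : Fin l → ℕ)

theorem pr_atomsO {f : α → ℕ} (hf : Primrec f) : Primrec (fun a => atomsO ar (f a)) := by
  unfold atomsO
  apply pr_append (pr_atomsS ar hf)
  apply pr_map (pr_listsOf (Primrec.const _) hf)
  exact pr_pair (Primrec.const _) Primrec.snd

theorem pp_OrdP (l : ℕ) {N : α → ℕ} {P : α → List Atom} {o : α → List ℕ} (hN : Primrec N) (hP : Primrec P)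
    (ho : Primrec o) : PrimrecPred (fun x => OrdP l (N x) (fun a => a ∈ P x) (o x)) := by
  unfold OrdP
  apply pp_forall (pr_range hN)
  apply pp_forall (pr_range (hN.comp Primrec.fst))
  have p0 : Primrec (fun x : (α × ℕ) × ℕ => x.1.1) := pr_fst Primrec.fst
  have px : Primrec (fun x : (α × ℕ) × ℕ => x.1.2) := pr_snd Primrec.fst
  have py : Primrec (fun x : (α × ℕ) × ℕ => x.2) := Primrec.snd
  apply pp_iff
  · exact pp_mem (pr_pair (Primrec.const _) (pr_cons px (pr_cons py (Primrec.const _)))) (hP.comp p0)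
  · exact pp_lt (pr_getD (ho.comp p0) px) (pr_getD (ho.comp p0) py)

theorem pp_inj {N : α → ℕ} {o : α → List ℕ} (hN : Primrec N) (ho : Primrec o) :
    PrimrecPred (fun x => ∀ i ∈ List.range (N x), ∀ j ∈ List.range (N x),
      (o x).getD i 0 = (o x).getD j 0 → i = j) := by
  apply pp_forall (pr_range hN)
  apply pp_forall (pr_range (hN.comp Primrec.fst))
  have p0 : Primrec (fun x : (α × ℕ) × ℕ => x.1.1) := pr_fst Primrec.fst
  have px : Primrec (fun x : (α × ℕ) × ℕ => x.1.2) := pr_snd Primrec.fst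
  have py : Primrec (fun x : (α × ℕ) × ℕ => x.2) := Primrec.snd
  apply pp_imp
  · exact pp_eq (pr_getD (ho.comp p0) px) (pr_getD (ho.comp p0) py)
  · exact pp_eq px py

theorem pp_ValP (l r : ℕ) {n : α → ℕ} {oc : α → List ℕ} {P : α → List Atom} (hn : Primrec n) (hoc : Primrec oc)
    (hP : Primrec P) : PrimrecPred (fun x => ValP l (n x) r (oc x) (fun a => a ∈ P x)) := by
  unfold ValP
  have hN := pr_add hn (Primrec.const r)
  apply pp_and
  · apply pp_exists (pr_listsOf hN hN)
    apply pp_and
    · exact pp_inj (hN.comp Primrec.fst) Primrec.snd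
    · exact pp_OrdP l (hN.comp Primrec.fst) (hP.comp Primrec.fst) Primrec.snd
  · exact pp_OrdP l hn hP hoc

end

section
variable {l : ℕ} (ar : Fin l → ℕ) (r : ℕ) (la : List QF) (th : List (ℕ × QF))
variable {α : Type} [Primcodable α] {n : α → ℕ} {oc : α → List ℕ} {R RA RB : α → List (List Atom × Atom)}
variable {s : α → List Atom}

theorem pp_CompO (hn : Primrec n) (ho : Primrec oc) (hR : Primrec R) :
    PrimrecPred (fun x => CompO ar (n x) r (oc x) (RcP (R x))) := by
  unfold CompO RcP
  apply pp_forall (pr_subs (pr_atomsO ar (pr_add hn (Primrec.const r))))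
  apply pp_imp (pp_ValP l r (hn.comp Primrec.fst) (ho.comp Primrec.fst) Primrec.snd)
  apply pp_forall (pr_subs (pr_atomsO ar (pr_add (hn.comp Primrec.fst) (Primrec.const r))))
  apply pp_imp (pp_ValP l r ((hn.comp Primrec.fst).comp Primrec.fst) ((ho.comp Primrec.fst).comp Primrec.fst)
    Primrec.snd)
  apply pp_forall (Primrec.const _)
  apply pp_forall (Primrec.const _)
  have p0 : Primrec (fun x : (((α × List Atom) × List Atom) × List ℕ) × List ℕ => x.1.1.1.1) :=
    pr_fst (pr_fst (pr_fst Primrec.fst))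
  have pP : Primrec (fun x : (((α × List Atom) × List Atom) × List ℕ) × List ℕ => x.1.1.1.2) :=
    pr_snd (pr_fst (pr_fst Primrec.fst))
  have pP' : Primrec (fun x : (((α × List Atom) × List Atom) × List ℕ) × List ℕ => x.1.1.2) :=
    pr_snd (pr_fst Primrec.fst)
  have pe : Primrec (fun x : (((α × List Atom) × List Atom) × List ℕ) × List ℕ => x.1.2) := pr_snd Primrec.fst
  have pe' : Primrec (fun x : (((α × List Atom) × List Atom) × List ℕ) × List ℕ => x.2) := Primrec.snd
  apply pp_imp (pp_eq (pr_len pe) (pr_len pe'))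
  apply pp_imp
  · apply pp_forall (pr_atomsO ar (pr_add (hn.comp p0) (pr_len pe)))
    apply pp_iff
    · exact pp_mem (pr_mapA_iot ((hn.comp p0).comp Primrec.fst) (pe.comp Primrec.fst) Primrec.snd)
        (pP.comp Primrec.fst)
    · exact pp_mem (pr_mapA_iot ((hn.comp p0).comp Primrec.fst) (pe'.comp Primrec.fst) Primrec.snd)
        (pP'.comp Primrec.fst)
  · apply pp_forall (pr_atomsL ar (pr_add (hn.comp p0) (pr_len pe)))
    apply pp_iff
    · exact pp_mem (pr_pair (pP.comp Primrec.fst)
        (pr_mapA_iot ((hn.comp p0).comp Primrec.fst) (pe.comp Primrec.fst) Primrec.snd))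
        ((hR.comp p0).comp Primrec.fst)
    · exact pp_mem (pr_pair (pP'.comp Primrec.fst)
        (pr_mapA_iot ((hn.comp p0).comp Primrec.fst) (pe'.comp Primrec.fst) Primrec.snd))
        ((hR.comp p0).comp Primrec.fst)

theorem pp_LegO (hn : Primrec n) (ho : Primrec oc) (hR : Primrec R) :
    PrimrecPred (fun x => LegO ar (n x) r (oc x) la (RcP (R x))) := by
  unfold LegO RcP
  apply pp_forall (pr_subs (pr_atomsO ar (pr_add hn (Primrec.const r))))
  apply pp_imp (pp_ValP l r (hn.comp Primrec.fst) (ho.comp Primrec.fst) Primrec.snd)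
  apply pp_forall (pr_subs (pr_range (pr_add (hn.comp Primrec.fst) (Primrec.const r))))
  have p0 : Primrec (fun x : (α × List Atom) × List ℕ => x.1.1) := pr_fst Primrec.fst
  have pP : Primrec (fun x : (α × List Atom) × List ℕ => x.1.2) := pr_snd Primrec.fst
  have pT : Primrec (fun x : (α × List Atom) × List ℕ => x.2) := Primrec.snd
  apply pp_imp (pp_lt (pr_len pT) (Primrec.const _))
  apply pp_EvQ ar (pr_len pT) pT (Primrec.const _)
  · exact pp_mem (pr_pair (pP.comp Primrec.fst) Primrec.snd) ((hR.comp p0).comp Primrec.fst)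
  · exact pr_getD (Primrec.const _) (pr_len pT)

theorem pp_FaiO (sg : Bool) (hn : Primrec n) (ho : Primrec oc) (hR : Primrec R) :
    PrimrecPred (fun x => FaiO ar (n x) r (oc x) la (RcP (R x)) sg) := by
  unfold FaiO RcP
  apply pp_forall (pr_subs (pr_atomsO ar (pr_add hn (Primrec.const r))))
  apply pp_imp (pp_ValP l r (hn.comp Primrec.fst) (ho.comp Primrec.fst) Primrec.snd)
  apply pp_forall (pr_subs (pr_range (pr_add (hn.comp Primrec.fst) (Primrec.const r))))
  apply pp_imp (pp_lt (pr_len Primrec.snd) (Primrec.const _))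
  apply pp_forall Primrec.snd
  have p0 : Primrec (fun x : ((α × List Atom) × List ℕ) × ℕ => x.1.1.1) := pr_fst (pr_fst Primrec.fst)
  have pP : Primrec (fun x : ((α × List Atom) × List ℕ) × ℕ => x.1.1.2) := pr_snd (pr_fst Primrec.fst)
  have pT : Primrec (fun x : ((α × List Atom) × List ℕ) × ℕ => x.1.2) := pr_snd Primrec.fst
  have px : Primrec (fun x : ((α × List Atom) × List ℕ) × ℕ => x.2) := Primrec.snd
  apply pp_imp (pp_le (hn.comp p0) px)
  apply pp_imp
  · apply pp_forall pT
    exact pp_le Primrec.snd (px.comp Primrec.fst)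
  apply pp_imp
  · apply pp_iff
    · exact pp_mem (pr_pair (Primrec.const _) (pr_cons px (Primrec.const _))) pP
    · exact pp_eq (Primrec.const _) (Primrec.const _)
  apply pp_imp
  · apply pp_EvQ ar (pr_len pT) pT (Primrec.const _)
    · apply pp_mixL
      · exact pp_mem (pr_pair ((pP.comp Primrec.fst).comp Primrec.fst) Primrec.snd)
          (((hR.comp p0).comp Primrec.fst).comp Primrec.fst)
      · exact pp_mem Primrec.snd ((pP.comp Primrec.fst).comp Primrec.fst)
      · exact pT.comp Primrec.fst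
      · exact Primrec.snd
    · exact pr_getD (Primrec.const _) (pr_len pT)
  · apply pp_forall (pr_atomsL ar (pr_add (hn.comp p0) (Primrec.const r)))
    apply pp_imp (pp_SuppEq Primrec.snd (pT.comp Primrec.fst))
    apply pp_iff
    · exact pp_mem (pr_pair (pP.comp Primrec.fst) Primrec.snd) ((hR.comp p0).comp Primrec.fst)
    · exact pp_mem Primrec.snd (pP.comp Primrec.fst)

theorem pp_GamO (hn : Primrec n) (ho : Primrec oc) (hA : Primrec RA) (hB : Primrec RB) :
    PrimrecPred (fun x => GamO ar (n x) r (oc x) th (RcP (RA x)) (RcP (RB x))) := by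
  unfold GamO RcP
  have hN := pr_add hn (Primrec.const r)
  apply pp_forall (pr_subs (pr_atomsO ar hN))
  apply pp_imp (pp_ValP l r (hn.comp Primrec.fst) (ho.comp Primrec.fst) Primrec.snd)
  apply pp_forall (pr_listsOf (hN.comp Primrec.fst) (hN.comp Primrec.fst))
  apply pp_imp (pp_OrdP l ((hN.comp Primrec.fst).comp Primrec.fst) (pr_snd Primrec.fst) Primrec.snd)
  apply pp_forall (Primrec.const _)
  apply pp_forall (pr_listsOf (pr_fst Primrec.snd) (((hN.comp Primrec.fst).comp Primrec.fst).comp Primrec.fst))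
  have p0 : Primrec (fun x : (((α × List Atom) × List ℕ) × (ℕ × QF)) × List ℕ => x.1.1.1.1) :=
    pr_fst (pr_fst (pr_fst Primrec.fst))
  have pP : Primrec (fun x : (((α × List Atom) × List ℕ) × (ℕ × QF)) × List ℕ => x.1.1.1.2) :=
    pr_snd (pr_fst (pr_fst Primrec.fst))
  have po : Primrec (fun x : (((α × List Atom) × List ℕ) × (ℕ × QF)) × List ℕ => x.1.1.2) :=
    pr_snd (pr_fst Primrec.fst)
  have pp : Primrec (fun x : (((α × List Atom) × List ℕ) × (ℕ × QF)) × List ℕ => x.1.2) := pr_snd Primrec.fst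
  have ph : Primrec (fun x : (((α × List Atom) × List ℕ) × (ℕ × QF)) × List ℕ => x.2) := Primrec.snd
  apply pp_iff
  · apply pp_EvQ ar (pr_fst pp) ph po
    · exact pp_mem (pr_pair (pP.comp Primrec.fst) Primrec.snd) ((hA.comp p0).comp Primrec.fst)
    · exact pr_snd pp
  · apply pp_EvQ ar (pr_fst pp) ph po
    · exact pp_mem (pr_pair (pP.comp Primrec.fst) Primrec.snd) ((hB.comp p0).comp Primrec.fst)
    · exact pr_snd pp

theorem pp_BasO (hn : Primrec n) (ho : Primrec oc) (hR : Primrec R) (hs : Primrec s) :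
    PrimrecPred (fun x => BasO ar (n x) r (oc x) (RcP (R x)) (fun a => a ∈ s x)) := by
  unfold BasO RcP
  apply pp_forall (pr_subs (pr_atomsO ar (pr_add hn (Primrec.const r))))
  apply pp_imp (pp_ValP l r (hn.comp Primrec.fst) (ho.comp Primrec.fst) Primrec.snd)
  apply pp_forall (pr_atomsL ar (hn.comp Primrec.fst))
  have p0 : Primrec (fun x : (α × List Atom) × Atom => x.1.1) := pr_fst Primrec.fst
  have pP : Primrec (fun x : (α × List Atom) × Atom => x.1.2) := pr_snd Primrec.fst
  apply pp_iff
  · exact pp_mem (pr_pair pP Primrec.snd) (hR.comp p0)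
  · exact pp_mem Primrec.snd (hs.comp p0)

end

end EF39
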