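import Pool.Agent.EF39.Defs

/-!
# EF40 (MP_399079_lc): the language of the ordered structure
-/

set_option autoImplicit false

namespace EF39

/-- arities of the language of `(M; lt, S)`: the symbol `0` is the order, the symbol `i + 1` is `S i` -/
def arO {l : ℕ} (ar : Fin l → ℕ) : Fin (l + 1) → ℕ := fun i => Fin.cases 2 ar i

/-- the relations of `(M; lt, S)` -/
def SO {l : ℕ} (ar : Fin l → ℕ) {M : Type} (S : ∀ i, (Fin (ar i) → M) → Prop) (lt : M → M → Prop) :
    ∀ i, (Fin (arO ar i) → M) → Prop :=
  fun i => Fin.cases (motive := fun i => (Fin (arO ar i) → M) → Prop) (fun v : Fin 2 → M => lt (v 0) (v 1)) S i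

end EF39
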