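import Pool.Agent.EF39.Fin
import Pool.Agent.EF40.Comp
import Pool.Agent.EF40.CertOf

/-!
# EF40: the decision procedure
-/

set_option autoImplicit false

namespace EF39

section
variable {l : ℕ} {ar : Fin l → ℕ} {M : Type} {S : ∀ i, (Fin (ar i) → M) → Prop} {lt : M → M → Prop}
variable {k : ℕ} {br : Fin k → ℕ} {T : ∀ j, (Fin (br j) → M) → Prop}

theorem CertO_congr {n r : ℕ} {oc : List ℕ} {la : List QF} {th : List (ℕ × QF)}
    {RA RB RA' RB' : List Atom → Atom → Prop} {s t s' t' : Atom → Prop}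
    (hA : ∀ P ∈ subs (atomsO ar (n + r)), ∀ a ∈ atomsL ar (n + r), (RA P a ↔ RA' P a))
    (hB : ∀ P ∈ subs (atomsO ar (n + r)), ∀ a ∈ atomsL ar (n + r), (RB P a ↔ RB' P a))
    (hs : ∀ a ∈ atomsL ar n, (s a ↔ s' a)) (ht : ∀ a ∈ atomsL ar n, (t a ↔ t' a))
    (h : CertO ar n r oc la th RA RB s t) : CertO ar n r oc la th RA' RB' s' t' := by
  have hsub : ∀ e ∈ subs (List.range r), ∀ a ∈ atomsL ar (n + e.length), mapA (iot n e) a ∈ atomsL ar (n + r) := by
    intro e he a ha
    rw [mem_subs_range] at he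
    exact mapA_mem_atomsL ha fun x hx => iot_bound he.2 hx
  have hTl : ∀ Tl ∈ subs (List.range (n + r)), ∀ x < Tl.length, Tl.getD x 0 < n + r := by
    intro Tl hTl x hx
    rw [mem_subs_range] at hTl
    exact hTl.2 _ (getD_mem hx)
  have hc : ∀ {R R' : List Atom → Atom → Prop}, (∀ P ∈ subs (atomsO ar (n + r)), ∀ a ∈ atomsL ar (n + r),
      (R P a ↔ R' P a)) → CompO ar n r oc R → CompO ar n r oc R' := by
    intro R R' hR h P hP hV P' hP' hV' e he e' he' hee hPP a ha
    rw [← hR P hP _ (hsub e he a ha), ← hR P' hP' _ (hsub e' he' a (by rw [← hee]; exact ha))]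
    exact h P hP hV P' hP' hV' e he e' he' hee hPP a ha
  have hl : ∀ {R R' : List Atom → Atom → Prop}, (∀ P ∈ subs (atomsO ar (n + r)), ∀ a ∈ atomsL ar (n + r),
      (R P a ↔ R' P a)) → LegO ar n r oc la R → LegO ar n r oc la R' := by
    intro R R' hR h P hP hV Tl hTl' hlen
    rw [← EvQ_congr (hTl Tl hTl') (hR P hP)]
    exact h P hP hV Tl hTl' hlen
  have hf : ∀ {R R' : List Atom → Atom → Prop} {sg : Bool}, (∀ P ∈ subs (atomsO ar (n + r)),
      ∀ a ∈ atomsL ar (n + r), (R P a ↔ R' P a)) → FaiO ar n r oc la R sg → FaiO ar n r oc la R' sg := by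
    intro R R' sg hR h P hP hV Tl hTl' hlen x hx hnx hmax hsg hEv a ha hsup
    rw [← hR P hP a ha]
    apply h P hP hV Tl hTl' hlen x hx hnx hmax hsg _ a ha hsup
    rw [EvQ_congr (hTl Tl hTl') (Y := mixL (R' P) (fun a => a ∈ P) Tl)]
    · exact hEv
    · intro b hb
      unfold mixL
      rw [hR P hP b hb]
  constructor
  · exact hc hA h.cA
  · exact hc hB h.cB
  · exact hl hA h.lA
  · exact hl hB h.lB
  · exact hf hA h.fA
  · exact hf hB h.fB
  · intro P hP hV o ho hoP p hp g hg
    rw [mem_listsOf] at hg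
    have hg' : ∀ x < p.1, g.getD x 0 < n + r := fun x hx => hg.2 _ (getD_mem (by rw [hg.1]; exact hx))
    rw [← EvQ_congr hg' (hA P hP), ← EvQ_congr hg' (hB P hP)]
    exact h.gm P hP hV o ho hoP p hp g (mem_listsOf.2 hg)
  · intro P hP hV a ha
    have ha' := (mem_atomsL ar).1 ha
    rw [← hA P hP a ((mem_atomsL ar).2 ⟨ha'.1, fun x hx => (ha'.2 x hx).trans_le (by omega)⟩), ← hs a ha]
    exact h.bA P hP hV a ha
  · intro P hP hV a ha
    have ha' := (mem_atomsL ar).1 ha
    rw [← hB P hP a ((mem_atomsL ar).2 ⟨ha'.1, fun x hx => (ha'.2 x hx).trans_le (by omega)⟩), ← ht a ha]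
    exact h.bB P hP hV a ha

/-- there is a valid play -/
theorem exists_valP (ar : Fin l → ℕ) {n r : ℕ} {oc : List ℕ}
    (hocinj : ∀ i ∈ List.range n, ∀ j ∈ List.range n, oc.getD i 0 = oc.getD j 0 → i = j) :
    ∃ P ∈ subs (atomsO ar (n + r)), ValP l n r oc (fun a => a ∈ P) := by
  classical
  let q : ℕ → ℕ := fun x => oc.getD x 0
  have hq : Set.InjOn q (Finset.range n) := fun i hi j hj hij =>
    hocinj i (by simpa using hi) j (by simpa using hj) hij
  let o0 : ℕ → ℕ := fun x => if x < n then cnt q n x else x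
  have ho0 : ∀ x < n, ∀ y < n, (o0 x < o0 y ↔ oc.getD x 0 < oc.getD y 0) := by
    intro x hx y hy
    simp only [o0, hx, hy, if_true]
    exact cnt_lt_iff hx
  have ho0inj : Set.InjOn o0 (Finset.range (n + r)) := by
    intro x hx y hy hxy
    simp only [o0] at hxy
    split_ifs at hxy with c1 c2 c2
    · exact cnt_inj hq (by simpa using c1) (by simpa using c2) hxy
    · have := cnt_lt (q := q) c1
      omega
    · have := cnt_lt (q := q) c2
      omega
    · exact hxy
  refine ⟨(atomsO ar (n + r)).filter (fun a => decide (∃ x y, a = (l + 1, [x, y]) ∧ o0 x < o0 y)),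
    mem_subs.2 List.filter_sublist, ?_⟩
  have hm : ∀ x < n + r, ∀ y < n + r,
      ((l + 1, [x, y]) ∈ (atomsO ar (n + r)).filter (fun a => decide (∃ x y, a = (l + 1, [x, y]) ∧ o0 x < o0 y)) ↔
        o0 x < o0 y) := by
    intro x hx y hy
    rw [List.mem_filter]
    have h2 : (l + 1, [x, y]) ∈ atomsO ar (n + r) := by
      rw [mem_atomsO]
      exact Or.inr (Or.inr ⟨x, hx, y, hy, rfl⟩)
    simp only [h2, true_and, decide_eq_true_eq]
    constructor
    · rintro ⟨x', y', h3, h4⟩
      have h5 : [x, y] = [x', y'] := congrArg Prod.snd h3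
      simp only [List.cons.injEq, and_true] at h5
      rw [h5.1, h5.2]
      exact h4
    · intro h3
      exact ⟨x, y, rfl, h3⟩
  have hget : ∀ i < n + r, ((List.range (n + r)).map o0).getD i 0 = o0 i := by
    intro i hi
    rw [List.getD_eq_getElem _ _ (by simpa using hi)]
    simp
  refine ⟨⟨(List.range (n + r)).map o0, ?_, ?_, ?_⟩, ?_⟩
  · rw [mem_listsOf]
    refine ⟨by simp, ?_⟩
    intro z hz
    rw [List.mem_map] at hz
    obtain ⟨x, hx, rfl⟩ := hz
    rw [List.mem_range] at hx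
    simp only [o0]
    split_ifs with c
    · have := cnt_lt (q := q) c
      omega
    · exact hx
  · intro i hi j hj hij
    rw [List.mem_range] at hi hj
    rw [hget i hi, hget j hj] at hij
    exact ho0inj (by simpa using hi) (by simpa using hj) hij
  · intro x hx y hy
    rw [List.mem_range] at hx hy
    rw [hget x hx, hget y hy]
    exact hm x hx y hy
  · intro x hx y hy
    rw [List.mem_range] at hx hy
    rw [← ho0 x hx y hy]
    exact hm x (by omega) y (by omega)

end

/-! ## the decision procedure -/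

section
variable {l : ℕ} (ar : Fin l → ℕ) (r : ℕ) (la : List QF) (th : List (ℕ × QF))

/-- the list of all pairs (play, atom) -/
def mastO (n : ℕ) : List (List Atom × Atom) :=
  (subs (atomsO ar (n + r))).flatMap (fun P => (atomsL ar (n + r)).map (fun a => (P, a)))

/-- the coded certificates -/
def CertCO (n : ℕ) (oc : List ℕ) (s t : List Atom) (RA RB : List (List Atom × Atom)) : Prop :=
  CompO ar n r oc (RcP RA) ∧ CompO ar n r oc (RcP RB) ∧ LegO ar n r oc la (RcP RA) ∧
    LegO ar n r oc la (RcP RB) ∧ FaiO ar n r oc la (RcP RA) true ∧ FaiO ar n r oc la (RcP RB) false ∧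
    GamO ar n r oc th (RcP RA) (RcP RB) ∧ BasO ar n r oc (RcP RA) (fun a => a ∈ s) ∧
    BasO ar n r oc (RcP RB) (fun a => a ∈ t)

theorem CertCO_iff {n : ℕ} {oc : List ℕ} {s t : List Atom} {RA RB : List (List Atom × Atom)} :
    CertCO ar r la th n oc s t RA RB ↔
      CertO ar n r oc la th (RcP RA) (RcP RB) (fun a => a ∈ s) (fun a => a ∈ t) := by
  constructor
  · rintro ⟨h1, h2, h3, h4, h5, h6, h7, h8, h9⟩
    exact ⟨h1, h2, h3, h4, h5, h6, h7, h8, h9⟩
  · rintro ⟨h1, h2, h3, h4, h5, h6, h7, h8, h9⟩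
    exact ⟨h1, h2, h3, h4, h5, h6, h7, h8, h9⟩

/-- there is a certificate -/
def HasCO (n : ℕ) (oc : List ℕ) (s t : List Atom) : Prop :=
  ∃ RA ∈ subs (mastO ar r n), ∃ RB ∈ subs (mastO ar r n), CertCO ar r la th n oc s t RA RB

/-- the relation defined by the formula distinguishes two tuples of the same type -/
def UndefO (x : ℕ × QF) : Prop :=
  ∃ n' ∈ List.range (x.1 + 1), ∃ π ∈ listsOf x.1 n', ∃ o ∈ listsOf n' n',
    (∀ i ∈ List.range n', ∀ j ∈ List.range n', o.getD i 0 = o.getD j 0 → i = j) ∧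
    ∃ s ∈ subs (atomsL ar n'), ∃ t ∈ subs (atomsL ar n'),
      EvQ ar x.1 π o (fun a => a ∈ s) x.2 ∧ ¬ EvQ ar x.1 π o (fun a => a ∈ t) x.2 ∧ HasCO ar r la th n' o s t

theorem pp_HasCO {α : Type} [Primcodable α] {n : α → ℕ} {oc : α → List ℕ} {s t : α → List Atom} (hn : Primrec n)
    (ho : Primrec oc) (hs : Primrec s) (ht : Primrec t) :
    PrimrecPred (fun x => HasCO ar r la th (n x) (oc x) (s x) (t x)) := by
  have hm : ∀ {β : Type} [Primcodable β] {g : β → ℕ}, Primrec g → Primrec (fun x => mastO ar r (g x)) := by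
    intro β _ g hg
    unfold mastO
    apply pr_flatMap (pr_subs (pr_atomsO ar (pr_add hg (Primrec.const r))))
    apply pr_map (pr_atomsL ar (pr_add (hg.comp Primrec.fst) (Primrec.const r)))
    exact pr_pair (pr_snd Primrec.fst) Primrec.snd
  unfold HasCO
  apply pp_exists (pr_subs (hm hn))
  apply pp_exists (pr_subs (hm (hn.comp Primrec.fst)))
  have p0 : Primrec (fun x : (α × List (List Atom × Atom)) × List (List Atom × Atom) => x.1.1) :=
    pr_fst Primrec.fst
  have pA : Primrec (fun x : (α × List (List Atom × Atom)) × List (List Atom × Atom) => x.1.2) :=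
    pr_snd Primrec.fst
  have pB : Primrec (fun x : (α × List (List Atom × Atom)) × List (List Atom × Atom) => x.2) := Primrec.snd
  unfold CertCO
  apply pp_and (pp_CompO ar r (hn.comp p0) (ho.comp p0) pA)
  apply pp_and (pp_CompO ar r (hn.comp p0) (ho.comp p0) pB)
  apply pp_and (pp_LegO ar r la (hn.comp p0) (ho.comp p0) pA)
  apply pp_and (pp_LegO ar r la (hn.comp p0) (ho.comp p0) pB)
  apply pp_and (pp_FaiO ar r la true (hn.comp p0) (ho.comp p0) pA)
  apply pp_and (pp_FaiO ar r la false (hn.comp p0) (ho.comp p0) pB)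
  apply pp_and (pp_GamO ar r th (hn.comp p0) (ho.comp p0) pA pB)
  apply pp_and (pp_BasO ar r (hn.comp p0) (ho.comp p0) pA (hs.comp p0))
  exact pp_BasO ar r (hn.comp p0) (ho.comp p0) pB (ht.comp p0)

theorem pp_UndefO : PrimrecPred (UndefO ar r la th) := by
  unfold UndefO
  apply pp_exists (pr_range (pr_add Primrec.fst (Primrec.const 1)))
  apply pp_exists (pr_listsOf (pr_fst Primrec.fst) Primrec.snd)
  apply pp_exists (pr_listsOf (pr_snd Primrec.fst) (pr_snd Primrec.fst))
  apply pp_and (pp_inj (pr_snd (pr_fst Primrec.fst)) Primrec.snd)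
  apply pp_exists (pr_subs (pr_atomsL ar (pr_snd (pr_fst Primrec.fst))))
  apply pp_exists (pr_subs (pr_atomsL ar (pr_snd (pr_fst (pr_fst Primrec.fst)))))
  have px : Primrec (fun x : (((((ℕ × QF) × ℕ) × List ℕ) × List ℕ) × List Atom) × List Atom =>
    x.1.1.1.1.1) := pr_fst (pr_fst (pr_fst (pr_fst Primrec.fst)))
  have pn : Primrec (fun x : (((((ℕ × QF) × ℕ) × List ℕ) × List ℕ) × List Atom) × List Atom =>
    x.1.1.1.1.2) := pr_snd (pr_fst (pr_fst (pr_fst Primrec.fst)))
  have pπ : Primrec (fun x : (((((ℕ × QF) × ℕ) × List ℕ) × List ℕ) × List Atom) × List Atom =>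
    x.1.1.1.2) := pr_snd (pr_fst (pr_fst Primrec.fst))
  have po : Primrec (fun x : (((((ℕ × QF) × ℕ) × List ℕ) × List ℕ) × List Atom) × List Atom =>
    x.1.1.2) := pr_snd (pr_fst Primrec.fst)
  have ps : Primrec (fun x : (((((ℕ × QF) × ℕ) × List ℕ) × List ℕ) × List Atom) × List Atom =>
    x.1.2) := pr_snd Primrec.fst
  have pt : Primrec (fun x : (((((ℕ × QF) × ℕ) × List ℕ) × List ℕ) × List Atom) × List Atom =>
    x.2) := Primrec.snd
  apply pp_and
  · apply pp_EvQ ar (pr_fst px) pπ po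
    · exact pp_mem Primrec.snd (ps.comp Primrec.fst)
    · exact pr_snd px
  apply pp_and
  · apply pp_not
    apply pp_EvQ ar (pr_fst px) pπ po
    · exact pp_mem Primrec.snd (pt.comp Primrec.fst)
    · exact pr_snd px
  · exact pp_HasCO ar r la th pn po ps pt

end

section
variable {l : ℕ} {ar : Fin l → ℕ} {M : Type} {S : ∀ i, (Fin (ar i) → M) → Prop}
variable {k : ℕ} {br : Fin k → ℕ} {T : ∀ j, (Fin (br j) → M) → Prop}

theorem undefO_iff [Nonempty M] {lt : M → M → Prop} (h : GenOrd ar S lt)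
    (hT : ∀ j, FODef (arO ar) (SO ar S lt) (T j))
    (hlt : FODef br T (fun v : Fin 2 → M => lt (v 0) (v 1))) (D : PackO ar S lt br T) (n : ℕ) (φ : QF) :
    UndefO ar D.r D.la D.thl (n, φ) ↔ ¬ FODef br T (fun v : Fin n → M => QFTrue ar S lt φ v) := by
  classical
  have hN := nice_of h
  rw [fodef_iff_o h hT]
  push Not
  constructor
  · rintro ⟨n', -, π, hπ, o, ho, hi, s, hs, t, ht, hE1, hE2, RA, hRA, RB, hRB, hC⟩
    rw [CertCO_iff] at hC
    rw [mem_listsOf] at hπ
    have hπ' : ∀ x < n, π.getD x 0 < n' := fun x hx => hπ.2 _ (getD_mem (by rw [hπ.1]; exact hx))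
    obtain ⟨P, hP, hV⟩ := exists_valP ar (n := n') (r := D.r) hi
    -- the diagrams are legal
    have hleg : ∀ (R : List Atom → Atom → Prop) (s : List Atom), LegO ar n' D.r o D.la R →
        BasO ar n' D.r o R (fun a => a ∈ s) → Leg ar S (fun a => a ∈ s) (Finset.range n') := by
      intro R s hL hB
      apply leg_all hN D.har
      intro T' hT' hTc
      have h1 := leg_of_LegO D hL hP hV (A := T') (hT'.trans (by
        intro z hz
        rw [Finset.mem_range] at hz ⊢
        omega)) hTc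
      rw [Leg_congr (Y := fun a => a ∈ s)] at h1
      · exact h1
      · intro a ha hsup
        exact hB _ hP hV a ((mem_atomsL ar).2 ⟨ha, supp_subset_range.1 (hsup.trans hT')⟩)
    obtain ⟨v, hv1, hv2, hv3⟩ := exists_real h (hleg _ s hC.lA hC.bA) hi
    obtain ⟨w, hw1, hw2, hw3⟩ := exists_real h (hleg _ t hC.lB hC.bB) hi
    have hET := certO_to h D hC hi hv2 hw2 hv3 hw3
    refine ⟨fun i => v (π.getD i 0), fun i => w (π.getD i 0), ET_comp hET (fun i => π.getD i 0) hπ', ?_, ?_⟩
    · rw [qf_sem hv1 hπ' hv3, EvQ_congr hπ' hv2]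
      exact hE1
    · rw [qf_sem hw1 hπ' hw3, EvQ_congr hπ' hw2]
      exact hE2
  · rintro ⟨x, y, hxy, hx, hy⟩
    obtain ⟨n', π, σ, h1, h2, h3, h4, h5, h6, h7, h8⟩ := exists_red x y n
      (fun i hi j hj => ET_eq hxy hi hj)
    have hET : ET br T n' (fun i => x (σ i)) (fun i => y (σ i)) := ET_comp hxy σ h3
    obtain ⟨o, ho, hi, hq1⟩ := exists_rank h.order h7
    have hq2 : ∀ i < n', ∀ j < n', (o.getD i 0 < o.getD j 0 ↔ lt (y (σ i)) (y (σ j))) := by
      intro i hi' j hj'
      rw [hq1 i hi' j hj']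
      exact ET_lt hlt hET hi' hj'
    obtain ⟨RA, RB, hC⟩ := certO_of h hT hlt D (oc := o)
      (fun i hi' j hj' => hi i (List.mem_range.2 hi') j (List.mem_range.2 hj')) hq1 h7 hET
    have hπl : ∀ i < n, ((List.range n).map π).getD i 0 = π i := by
      intro i hi
      rw [List.getD_eq_getElem _ _ (by simpa using hi)]
      simp
    have hπ' : ∀ i < n, ((List.range n).map π).getD i 0 < n' := fun i hi => by
      rw [hπl i hi]
      exact h2 i hi
    have hdiag : ∀ u : ℕ → M, ∀ a ∈ atomsL ar n', (Hold ar S u a ↔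
        a ∈ (atomsL ar n').filter (fun a => decide (Hold ar S u a))) := by
      intro u a ha
      simp [ha]
    have hrc : ∀ R : List Atom → Atom → Prop, ∀ P ∈ subs (atomsO ar (n' + D.r)), ∀ a ∈ atomsL ar (n' + D.r),
        (R P a ↔ RcP ((mastO ar D.r n').filter (fun p => decide (R p.1 p.2))) P a) := by
      intro R P hP a ha
      unfold RcP
      rw [List.mem_filter]
      have h9 : (P, a) ∈ mastO ar D.r n' := by
        unfold mastO
        rw [List.mem_flatMap]
        exact ⟨P, hP, List.mem_map.2 ⟨a, ha, rfl⟩⟩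
      simp [h9]
    refine ⟨n', ?_, (List.range n).map π, ?_, o, ho, hi,
      (atomsL ar n').filter (fun a => decide (Hold ar S (fun i => x (σ i)) a)), mem_subs.2 List.filter_sublist,
      (atomsL ar n').filter (fun a => decide (Hold ar S (fun i => y (σ i)) a)), mem_subs.2 List.filter_sublist,
      ?_, ?_, (mastO ar D.r n').filter (fun p => decide (RA p.1 p.2)), mem_subs.2 List.filter_sublist,
      (mastO ar D.r n').filter (fun p => decide (RB p.1 p.2)), mem_subs.2 List.filter_sublist, ?_⟩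
    · rw [List.mem_range]
      show n' < n + 1
      omega
    · rw [mem_listsOf]
      refine ⟨by simp, ?_⟩
      intro z hz
      simp only [List.mem_map, List.mem_range] at hz
      obtain ⟨i, hi, rfl⟩ := hz
      exact h2 i hi
    · show EvQ ar n _ _ _ φ
      rw [← EvQ_congr hπ' (hdiag _), ← qf_sem h7 hπ' hq1]
      have h9 : (fun i : Fin n => x (σ (((List.range n).map π).getD i 0))) = fun i : Fin n => x i := by
        funext i
        rw [hπl i i.2]
        exact h5 i i.2
      rw [h9]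
      exact hx
    · show ¬ EvQ ar n _ _ _ φ
      rw [← EvQ_congr hπ' (hdiag _), ← qf_sem h8 hπ' hq2]
      have h9 : (fun i : Fin n => y (σ (((List.range n).map π).getD i 0))) = fun i : Fin n => y i := by
        funext i
        rw [hπl i i.2]
        exact h6 i i.2
      rw [h9]
      exact hy
    · rw [CertCO_iff]
      exact CertO_congr (hrc RA) (hrc RB) (hdiag _) (hdiag _) hC

/-- **Decidability of first-order definability in a reduct which defines the order.** -/
theorem expr_decidable_o {l : ℕ} (ar : Fin l → ℕ) {M : Type} [Nonempty M] (S : ∀ i, (Fin (ar i) → M) → Prop)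
    (lt : M → M → Prop) (h : GenOrd ar S lt) {k : ℕ} (br : Fin k → ℕ) (T : ∀ j, (Fin (br j) → M) → Prop)
    (hT : ∀ j, FODef (arO ar) (SO ar S lt) (T j))
    (hlt : FODef br T (fun v : Fin 2 → M => lt (v 0) (v 1))) :
    ComputablePred (fun x : ℕ × QF => FODef br T (fun v : Fin x.1 → M => QFTrue ar S lt x.2 v)) := by
  obtain ⟨D⟩ := exists_packO (br := br) (T := T) h hT
  have h1 : PrimrecPred (fun x : ℕ × QF => ¬ UndefO ar D.r D.la D.thl x) := pp_not (pp_UndefO ar D.r D.la D.thl)
  have h2 : (fun x : ℕ × QF => ¬ UndefO ar D.r D.la D.thl x) =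
      fun x : ℕ × QF => FODef br T (fun v : Fin x.1 → M => QFTrue ar S lt x.2 v) := by
    funext x
    apply propext
    have := undefO_iff h hT hlt D x.1 x.2
    rw [show (x.1, x.2) = x from rfl] at this
    rw [this, not_not]
  rw [← h2]
  obtain ⟨hd, hp⟩ := h1
  exact ⟨hd, hp.to_comp⟩

end

end EF39
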